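import Mathlib

set_option autoImplicit false

/-!
# Bounded rank and the width of counting logic: definitions

`Coherent c`: `c` is a coherent configuration on `V` (a colouring of the ordered pairs).
`Rows c r`: at most `r` colours occur at each vertex.
`Sim k G H a b`: Duplicator wins the bijective `k`-pebble game from the position `(a, b)`.
-/

namespace Pool.Agent.BRW

/-- Coherent configuration (colour classes = basis relations; the diagonal is a union of classes,
classes are closed under reversal, intersection numbers exist). -/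
structure Coherent {V κ : Type} (c : V → V → κ) : Prop where
  diag : ∀ x y z : V, c x x = c y z → y = z
  symm : ∀ x y x' y' : V, c x y = c x' y' → c y x = c y' x'
  count : ∀ x y x' y' : V, c x y = c x' y' → ∀ i j : κ,
    Nat.card {z : V // c x z = i ∧ c z y = j} = Nat.card {z : V // c x' z = i ∧ c z y' = j}

/-- At most `r` colours in each row. -/
def Rows {V κ : Type} (c : V → V → κ) (r : ℕ) : Prop := ∀ x : V, (Set.range (c x)).ncard ≤ r

/-- `R` is a winning region of Duplicator in the bijective `k`-pebble game. -/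
def Good {V W : Type} (k : ℕ) (G : SimpleGraph V) (H : SimpleGraph W)
    (R : (Fin k → V) → (Fin k → W) → Prop) : Prop :=
  (∀ a b, R a b → ∀ i j : Fin k,
      (a i = a j ↔ b i = b j) ∧ (G.Adj (a i) (a j) ↔ H.Adj (b i) (b j))) ∧
  (∀ a b, R a b → ∀ i : Fin k, ∃ f : V ≃ W,
      ∀ v : V, R (Function.update a i v) (Function.update b i (f v)))

/-- Duplicator wins from `(a, b)`. -/
def Sim {V W : Type} (k : ℕ) (G : SimpleGraph V) (H : SimpleGraph W)
    (a : Fin k → V) (b : Fin k → W) : Prop :=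
  ∃ R : (Fin k → V) → (Fin k → W) → Prop, Good k G H R ∧ R a b

/-- The tuple `s_0, ..., s_(t-1), x, y, y, ..., y`. -/
def tup {V : Type} (k t : ℕ) (s : Fin t → V) (x y : V) : Fin k → V :=
  fun i => if h : i.1 < t then s ⟨i.1, h⟩ else if i.1 = t then x else y

/-- The type of `(x, y)` over the parameters `s` (a colour of the pair `(x, y)`). -/
def typ {V : Type} (k : ℕ) (G : SimpleGraph V) (t : ℕ) (s : Fin t → V) (x y : V) :
    Set (Fin k → V) :=
  {b | Sim k G G (tup k t s x y) b}

/-- The type of `(x, y)` without parameters. -/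
def typ0 {V : Type} (k : ℕ) (G : SimpleGraph V) (x y : V) : Set (Fin k → V) :=
  typ k G 0 (fun i => i.elim0) x y

/-- `k`-variable counting logic identifies `G` (in the form of the frozen statement `S15011`). -/
def Identifies {V : Type} (k : ℕ) (G : SimpleGraph V) : Prop :=
  ∀ (W : Type) [Fintype W] [DecidableEq W] (H : SimpleGraph W),
    (∃ R : (Fin k → V) → (Fin k → W) → Prop,
      (∀ a b, R a b → ∀ i j : Fin k,
          (a i = a j ↔ b i = b j) ∧ (G.Adj (a i) (a j) ↔ H.Adj (b i) (b j))) ∧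
      (∀ a b, R a b → ∀ i : Fin k, ∃ f : V ≃ W,
          ∀ v : V, R (Function.update a i v) (Function.update b i (f v))) ∧
      (∃ f : V ≃ W, ∀ v : V, R (fun _ => v) (fun _ => f v))) →
    Nonempty (G ≃g H)

/-- Valency of the colour of `(x, z)`, seen from `x`. -/
noncomputable def val {V κ : Type} (c : V → V → κ) (x z : V) : ℕ :=
  Nat.card {w : V // c x w = c x z}

/-- Number of vertices that distinguish `x` and `y`. -/
noncomputable def dd {V κ : Type} (c : V → V → κ) (x y : V) : ℕ :=
  Nat.card {z : V // c z x ≠ c z y}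

/-- No valency and no number `dd` (of two vertices of one fibre) lies in the window `(ℓ, ℓ^4]`. -/
def Gap {V κ : Type} (c : V → V → κ) (ℓ : ℕ) : Prop :=
  (∀ x z : V, val c x z ≤ ℓ ∨ ℓ ^ 4 < val c x z) ∧
  (∀ x y : V, c x x = c y y → dd c x y ≤ ℓ ∨ ℓ ^ 4 < dd c x y)

/-- `x ≠ y` are in one fibre and few vertices distinguish them. -/
def Bad {V κ : Type} (c : V → V → κ) (ℓ : ℕ) (x y : V) : Prop :=
  x ≠ y ∧ c x x = c y y ∧ dd c x y ≤ ℓ

/-- `x` and `y` have a common neighbour in the class of `(x₀, y₀)`. -/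
def EE {V κ : Type} (c : V → V → κ) (x₀ y₀ x y : V) : Prop :=
  ∃ z : V, c x z = c x₀ y₀ ∧ c y z = c x₀ y₀

/-- Hypotheses of the block lemmas: `(x₀, y₀)` is a bad pair whose colour has a large valency. -/
def LB {V κ : Type} (c : V → V → κ) (ℓ : ℕ) (x₀ y₀ : V) : Prop :=
  Bad c ℓ x₀ y₀ ∧ ℓ ^ 4 < val c x₀ y₀

/-- Both valencies of the colour of `(x, z)` are at most `ℓ`. -/
def Sm {V κ : Type} (c : V → V → κ) (ℓ : ℕ) (x z : V) : Prop :=
  val c x z ≤ ℓ ∧ val c z x ≤ ℓ

/-- The position after the parameters have been pebbled. `E` is the relation to be in one cell,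
`TT x y x' y'`: the pairs `(x, y)` and `(x', y')` have the same type. -/
structure Axs {V W : Type} (G : SimpleGraph V) (H : SimpleGraph W) (E : V → V → Prop)
    (TT : V → V → W → W → Prop) : Prop where
  surj : ∀ x' y' : W, ∃ x y : V, TT x y x' y'
  adj : ∀ (x y : V) (x' y' : W), TT x y x' y' →
    (x = y ↔ x' = y') ∧ (G.Adj x y ↔ H.Adj x' y')
  bij : ∃ f : V ≃ W, ∀ x, TT x x (f x) (f x)
  swap : ∀ (x y : V) (x' y' : W), TT x y x' y' → TT y x y' x'
  fib : ∀ (x y : V) (x' y' : W), TT x y x' y' → TT x x x' x'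
  zig : ∀ (a b c d : V) (a' b' e' g' : W), TT a b a' b' → TT c d a' b' → TT c d e' g' →
    TT a b e' g'
  cons : ∀ (a b c d : V) (a' b' : W), TT a b a' b' → TT c d a' b' → (E a b ↔ E c d)
  beta : ∀ (x : V) (x' : W), TT x x x' x' → ∃ β : V → W, β x = x' ∧
    (∀ y z, E x y → E x z → TT y z (β y) (β z)) ∧
    (∀ y' : W, (∃ x1 y1 : V, TT x1 y1 x' y' ∧ E x1 y1) → ∃ y, E x y ∧ β y = y')
  cross : ∀ (x z x1 z1 : V) (x' z' : W), TT x x x' x' → TT x1 x1 x' x' → TT z z z' z' →
    TT z1 z1 z' z' → ¬ E x z → ¬ E x1 z1 → (G.Adj x z ↔ G.Adj x1 z1)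

end Pool.Agent.BRW
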