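import Mathlib
import Pool.Agent.BRW.Defs

set_option autoImplicit false

/-!
# Bounded rank and the width of counting logic: statements of the modules (MP_87b449_lc)

Main theorem (`StmtMAIN`): for every `r` there are `γ > 0` and `N` such that every graph with
`n ≥ N` vertices that is a union of classes of a coherent configuration with at most `r` colours
in each row is identified by `⌊n^(1-γ)⌋`-variable counting logic. `StmtGRP`: the same for graphs
all of whose point stabilisers (in the automorphism group) have at most `r` orbits.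

Each module proves one `Stmt...` (theorem `Pool.Agent.BRW.<name> : Stmt...`), with the earlier
statements it uses as hypotheses.
-/

namespace Pool.Agent.BRW

/-! ## Part 1. The pebble game -/

/-- SIM. Elementary properties of the bijective pebble game.
Proof. (1) The union of all Good relations is Good. (2) `R a b := a = b` is Good.
(3) `R' b a := R a b` with the inverse bijections. (4) composition of relations and bijections.
(5) `R' := {(a ∘ σ, b ∘ σ) : R a b, σ : Fin k → Fin k}` is Good: for the index `i` there is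
`j ∉ σ (Fin k ∖ {i})`; take the bijection `f` of `R a b` at `j`, and `σ' = update σ i j`:
`(update a j v) ∘ σ' = update (a ∘ σ) i v`. -/
def StmtSIM : Prop :=
  (∀ (V W : Type) (k : ℕ) (G : SimpleGraph V) (H : SimpleGraph W), Good k G H (Sim k G H)) ∧
  (∀ (V : Type) (k : ℕ) (G : SimpleGraph V) (a : Fin k → V), Sim k G G a a) ∧
  (∀ (V W : Type) (k : ℕ) (G : SimpleGraph V) (H : SimpleGraph W) (a : Fin k → V)
    (b : Fin k → W), Sim k G H a b → Sim k H G b a) ∧
  (∀ (V W U : Type) (k : ℕ) (G : SimpleGraph V) (H : SimpleGraph W) (K : SimpleGraph U)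
    (a : Fin k → V) (b : Fin k → W) (c : Fin k → U),
    Sim k G H a b → Sim k H K b c → Sim k G K a c) ∧
  (∀ (V W : Type) (k : ℕ) (G : SimpleGraph V) (H : SimpleGraph W) (a : Fin k → V)
    (b : Fin k → W) (σ : Fin k → Fin k), Sim k G H a b →
    Sim k G H (fun i => a (σ i)) (fun i => b (σ i)))

/-- PEB. Several pebbles can be moved. Induction on the finite set `I` (one move per element). -/
def StmtPEB : Prop :=
  ∀ (V W : Type) (k : ℕ) (G : SimpleGraph V) (H : SimpleGraph W) (a : Fin k → V)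
    (b : Fin k → W), Sim k G H a b → ∀ (I : Finset (Fin k)) (v : Fin k → V),
    ∃ v' : Fin k → W, Sim k G H (fun i => if i ∈ I then v i else a i)
      (fun i => if i ∈ I then v' i else b i)

/-- TYC. The types over `s` form a coherent configuration.
Proof. The second claim: refl, symm, trans of `Sim`. Everything else follows with reindexing
(`StmtSIM`, part 5). `diag`: positions `t` and `t+1`. `symm`: `σ i = i` (`i < t`), `σ t = t+1`,
`σ i = t` (`i > t`). `count`: move the pebble `t+2` (this needs `t+3 ≤ k`): a bijection `f` of `V`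
with `(s,x,y,z,…) ~ (s,x',y',f z,…)`; reindexing gives `(x,z) ~ (x',f z)` and
`(z,y) ~ (f z,y')` over `s`. Forgetting `s`: `σ 0 = t`, `σ i = t+1` (`i > 0`). Last claim: from
`(s,x,x,..) ~ (s,y,y,..)` with `σ 0 = i`, all others to `t`: `(s_i,x,x,..) ~ (s_i,y,y,..)`. -/
def StmtTYC : Prop :=
  ∀ (V : Type) (k t : ℕ) (G : SimpleGraph V) (s : Fin t → V), t + 3 ≤ k →
    Coherent (typ k G t s) ∧
    (∀ x y x' y', typ k G t s x y = typ k G t s x' y' ↔
      Sim k G G (tup k t s x y) (tup k t s x' y')) ∧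
    (∀ x y x' y', typ k G t s x y = typ k G t s x' y' → (G.Adj x y ↔ G.Adj x' y')) ∧
    (∀ x y x' y', typ k G t s x y = typ k G t s x' y' → typ0 k G x y = typ0 k G x' y') ∧
    (∀ (i : Fin t) (x y : V), typ k G t s x x = typ k G t s y y →
      typ0 k G (s i) x = typ0 k G (s i) y)

/-- BET. A set `C` of at most `L` vertices (with `x ∈ C`) is pebbled.
Proof. Let `m = |C|`. From `(s,x,x,..) ~ (s',x',x',..)` put the pebbles `t+1, ..., t+m` on the
elements of `C` (PEB), in some order, answers `y'_i`; let `β` map the `i`-th element to `y'_i` (and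
all other vertices to `x'`). `β x = x'` since the pebble `t` is on `x` (equalities are preserved).
Reindexing gives the second claim. Third claim: move the pebble `t+m+1 < k` to the preimage `y` of
`y'`; reindexing gives `(s,x,y,y,..) ~ (s',x',y',y',..)`; if `y ∈ C` then `y` is also under one of the
pebbles `t+1..t+m`, so `β y = y'`. -/
def StmtBET : Prop :=
  ∀ (V W : Type) [Finite V] (k t L : ℕ) (G : SimpleGraph V) (H : SimpleGraph W)
    (s : Fin t → V) (s' : Fin t → W) (x : V) (x' : W) (C : Set V), t + L + 3 ≤ k →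
    C.ncard ≤ L → x ∈ C → Sim k G H (tup k t s x x) (tup k t s' x' x') →
    ∃ β : V → W, β x = x' ∧
      (∀ y z, y ∈ C → z ∈ C → Sim k G H (tup k t s y z) (tup k t s' (β y) (β z))) ∧
      (∀ y' : W, ∃ y : V, Sim k G H (tup k t s x y) (tup k t s' x' y') ∧ (y ∈ C → β y = y'))

/-- EXT. The position after `s` has been pebbled satisfies the axioms `Axs`.
Proof. Let `R` be the relation of the hypothesis, `v₀ ∈ V`. By PEB from `(const v₀, const (f v₀))`
there are `s' : Fin t → W` and `w₀` with `Sim k G H (tup s v₀ v₀) (tup s' w₀ w₀)` (move the pebbles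
`0..t-1`). Let `TT x y x' y' := Sim k G H (tup k t s x y) (tup k t s' x' y')`.
`surj`: from `(s,v₀,v₀,..) ~ (s',w₀,w₀,..)` move the pebbles `t` and `t+1` (to the preimages of
`x'`, `y'` under the two bijections), then reindex (`i > t` to `t+1`). `bij`: move the pebble `t`,
then reindex (`i ≥ t` to `t`). `adj`, `swap`, `fib`: look at the positions `t, t+1`; reindex.
`zig`: composition and inverse. `cons`: `Sim G G (tup a b) (tup c d)` by composition, hence equal
types, hence (hypothesis on `E`) the claim. `cross`: the same with the last hypothesis.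
`beta`: BET for the cell `C := {y | E x y}` of `x`; if `TT x1 y1 x' y'` and `E x1 y1`, take `y` with
`TT x y x' y'` of BET: `E x y` by `cons`, so `y ∈ C` and `β y = y'`. -/
def StmtEXT : Prop :=
  ∀ (V W : Type) [Finite V] [Finite W] [Nonempty V] (k t L : ℕ) (G : SimpleGraph V)
    (H : SimpleGraph W) (s : Fin t → V) (E : V → V → Prop), t + L + 3 ≤ k →
    Equivalence E → (∀ x, Nat.card {y : V // E x y} ≤ L) →
    (∀ x y x' y', typ k G t s x y = typ k G t s x' y' → (E x y ↔ E x' y')) →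
    (∀ x z x1 z1, typ k G t s x x = typ k G t s x1 x1 → typ k G t s z z = typ k G t s z1 z1 →
      ¬ E x z → ¬ E x1 z1 → (G.Adj x z ↔ G.Adj x1 z1)) →
    (∃ R : (Fin k → V) → (Fin k → W) → Prop, Good k G H R ∧
      ∃ f : V ≃ W, ∀ v : V, R (fun _ => v) (fun _ => f v)) →
    ∃ TT : V → V → W → W → Prop, Axs G H E TT

/-- CBJ. A bijection of the sets of cells.
Proof. For each value `i` the cells with invariant `i` partition `{v | inv v = i}` into parts of
one and the same size `> 0`, the same in `V` and in `W`; and `f` shows that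
`{v | inv v = i}` and `{w | inv' w = i}` have the same size. So for every `i` the numbers of
cells with invariant `i` agree. -/
def StmtCBJ : Prop :=
  ∀ (V W ι : Type) [Finite V] [Finite W] (S : Setoid V) (S' : Setoid W) (inv : V → ι)
    (inv' : W → ι) (f : V ≃ W), (∀ v, inv' (f v) = inv v) →
    (∀ x y : V, S.r x y → inv x = inv y) → (∀ x y : W, S'.r x y → inv' x = inv' y) →
    (∀ (x : V) (y : W), inv x = inv' y →
      Nat.card {z : V // S.r x z} = Nat.card {z : W // S'.r y z}) →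
    ∃ g : Quotient S ≃ Quotient S', ∀ (x : V) (y : W),
      g (Quotient.mk S x) = Quotient.mk S' y → inv x = inv' y

/-- ASM. The axioms `Axs` give an isomorphism.
Proof. Let `E' x' y' := ∃ x y, TT x y x' y' ∧ E x y`. By `surj` and `cons`, for every pair `x', y'`
and every `x, y` with `TT x y x' y'`: `E' x' y' ↔ E x y`. `E'` is an equivalence relation
(symmetry: `swap`; transitivity: `beta` for `y'`). If `TT x x x' x'` then the `β` of `x, x'`
is a bijection of the cell of `x` onto the cell `{y' | E' x' y'}` of `x'` (injective by `adj`,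
values in the cell since `TT x y x' (β y)`, onto by the last part of `beta`), and
`TT y y (β y) (β y)` for `y` in the cell. Put `inv x := {u' : W | ∃ y, E x y ∧ TT y y u' u'}`
(the set of all vertices of `W` whose type occurs in the cell of `x`) and
`inv' x' := {u' : W | ∃ y', E' x' y' ∧ ∃ a, TT a a y' y' ∧ TT a a u' u'}`. With the `β`s:
`TT x x x' x' → inv x = inv' x'`; and `inv x = inv' x'` gives `y` in the cell of `x` with
`TT y y x' x'`, so the cells of `x` and `x'` have the same size (`zig`, `β` of `y, x'`). CBJ gives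
a bijection `g` of the cells preserving the invariants; for every cell `C` choose `y ∈ C` and
`x' ∈ g C` with `TT y y x' x'` and `β_C` := the `β` of `y, x'`. Glue the `β_C` to a bijection `φ`.
In a cell `φ` preserves (non)adjacency by `adj`. For `y, z` in different cells,
`TT y y (φ y) (φ y)`, `TT z z (φ z) (φ z)`; let `TT y1 z1 (φ y) (φ z)` (`surj`). `φ y, φ z` are in
different cells of `W`, so `¬ E y1 z1`; `TT y1 y1 (φ y) (φ y)`, `TT z1 z1 (φ z) (φ z)` by `fib`
and `swap`; so `cross` gives `G.Adj y z ↔ G.Adj y1 z1 ↔ H.Adj (φ y) (φ z)`. -/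
def StmtASM : Prop :=
  ∀ (V W : Type) [Finite V] [Finite W] (G : SimpleGraph V) (H : SimpleGraph W)
    (E : V → V → Prop) (TT : V → V → W → W → Prop), Equivalence E → Axs G H E TT →
    Nonempty (G ≃g H)

/-- CEL. Cells of size `≤ L` and homogeneous pairs of distinct cells: `G` is identified.
Proof. EXT and ASM (the case of an empty `V` is trivial: then `W` is empty). -/
def StmtCEL : Prop :=
  ∀ (V : Type) [Finite V] (k t L : ℕ) (G : SimpleGraph V) (s : Fin t → V)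
    (E : V → V → Prop), t + L + 3 ≤ k →
    Equivalence E → (∀ x, Nat.card {y : V // E x y} ≤ L) →
    (∀ x y x' y', typ k G t s x y = typ k G t s x' y' → (E x y ↔ E x' y')) →
    (∀ x z x1 z1, typ k G t s x x = typ k G t s x1 x1 → typ k G t s z z = typ k G t s z1 z1 →
      ¬ E x z → ¬ E x1 z1 → (G.Adj x z ↔ G.Adj x1 z1)) →
    Identifies k G

/-! ## Part 2. Coherent configurations -/

/-- CNT. The strong form of the counting condition.
Proof. For all `i j` the sets `{z | c x z = i ∧ c z y = j}` and `{z | c x' z = i ∧ c z y' = j}` have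
the same cardinality; glue bijections (fibres of `z ↦ (c x z, c z y)` and of
`z ↦ (c x' z, c z y')`). -/
def StmtCNT : Prop :=
  ∀ (V κ : Type) [Finite V] (c : V → V → κ), Coherent c →
    ∀ x y x' y' : V, c x y = c x' y' →
      ∃ e : V ≃ V, ∀ z, c x' (e z) = c x z ∧ c (e z) y' = c z y

/-- VAL. Valencies.
Proof. With `e` of CNT and `diag`, `symm`: `e x = x'`. For the fourth claim count the pairs
`(u, w)` with `c u w = c x z`. The third claim: CNT for `(u,u)`, `(x,x)`. -/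
def StmtVAL : Prop :=
  ∀ (V κ : Type) [Finite V] (c : V → V → κ), Coherent c →
    (∀ x y x' y' : V, c x y = c x' y' → c x x = c x' x' ∧ c y y = c y' y') ∧
    (∀ x y x' y' : V, c x y = c x' y' → val c x y = val c x' y' ∧ dd c x y = dd c x' y') ∧
    (∀ x z u : V, c u u = c x x → Nat.card {w : V // c u w = c x z} = val c x z) ∧
    (∀ x z : V, Nat.card {w : V // c w w = c x x} * val c x z =
      Nat.card {w : V // c w w = c z z} * val c z x)

/-- JOI. Two coherent configurations have a finest common coarsening `c₀` (intersection of the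
coherent algebras).
Proof. `κ₀ := Quot` of `V × V` by the relation (`c₁`-equal or `c₂`-equal). A `P` invariant under
`c₁` and `c₂` is invariant under `c₀` (`Quot.lift`/`EqvGen` induction). `diag`: the relation
`x = y` is invariant under both. `symm`: induction. `count`: for `c₀`-classes `i, j` the number
`#{z | c₀ x z = i ∧ c₀ z y = j}` is a function of `c₁ x y` (by CNT for `c₁`, since `c₀ x z` is a
function of `c₁ x z`) and of `c₂ x y`; so it is constant on `c₀`-classes. Rows: the row of `c₀` is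
an image of the row of `c₂`. -/
def StmtJOI : Prop :=
  ∀ (V κ₁ κ₂ : Type) [Finite V] (c₁ : V → V → κ₁) (c₂ : V → V → κ₂), Coherent c₁ →
    Coherent c₂ → ∃ (κ₀ : Type) (c₀ : V → V → κ₀), Coherent c₀ ∧
      (∀ x y x' y', c₁ x y = c₁ x' y' → c₀ x y = c₀ x' y') ∧
      (∀ x y x' y', c₂ x y = c₂ x' y' → c₀ x y = c₀ x' y') ∧
      (∀ P : V → V → Prop, (∀ x y x' y', c₁ x y = c₁ x' y' → (P x y ↔ P x' y')) →
        (∀ x y x' y', c₂ x y = c₂ x' y' → (P x y ↔ P x' y')) →
        ∀ x y x' y', c₀ x y = c₀ x' y' → (P x y ↔ P x' y')) ∧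
      (∀ r, Rows c₂ r → Rows c₀ r)

/-! ## Part 3. Blocks of a bad pair of large valency

In all statements `R := c x₀ y₀`, `N := val c x₀ y₀ > ℓ^4`, `X := {x | c x x = c x₀ x₀}`,
`R(x) := {w | c x w = R}` (of size `N` for `x ∈ X`, empty for `x ∉ X`). -/

/-- CLA. Proof. If `c x y = R` then `dd c x y = dd c x₀ y₀ ≤ ℓ`, so for all but `≤ ℓ` vertices
`w`: `c x w = c y w` (`symm`). Hence `|R(x) ∩ R(y)| ≥ N - ℓ` (*).
`R` symmetric: otherwise `R` and its transpose `R'` are different colours. For `x ∈ X`, `z ∈ R(x)`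
all but `≤ ℓ` of the `w ∈ R(x)` have `c z w = R`, so there are `≥ N(N-ℓ)` pairs `(z,w)` in
`R(x)²` with `c z w = R`; `(z,w)` and `(w,z)` cannot both have colour `R`; so `N(N-ℓ) ≤ N²/2`,
`N ≤ 2ℓ`, a contradiction.
`EE` is reflexive on `X` as `N > 0`; symmetric by definition. If `EE x y` via `z`, then by (*)
(and symmetry of `R`) `|R(x) ∩ R(y)| ≥ N - 2ℓ`. If also `EE y w`: `|R(x) ∩ R(w)| ≥ N - 4ℓ > 0`.
`c x y = R → EE x y` by (*). `EE` is invariant by CNT. Bad pairs: if `x ∈ X` and `(x,y)` is bad then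
all but `≤ ℓ` of the `w ∈ R(x)` have `c y w = c x w = R`. -/
def StmtCLA : Prop :=
  ∀ (V κ : Type) [Finite V] (c : V → V → κ) (ℓ : ℕ) (x₀ y₀ : V), Coherent c → 100 ≤ ℓ →
    LB c ℓ x₀ y₀ →
    (∀ x y, c x y = c x₀ y₀ → c y x = c x₀ y₀ ∧ c x x = c x₀ x₀ ∧ EE c x₀ y₀ x y) ∧
    (∀ x, c x x = c x₀ x₀ → EE c x₀ y₀ x x) ∧
    (∀ x y, EE c x₀ y₀ x y → EE c x₀ y₀ y x ∧ c x x = c x₀ x₀) ∧
    (∀ x y z, EE c x₀ y₀ x y → EE c x₀ y₀ y z → EE c x₀ y₀ x z) ∧
    (∀ x y x' y', c x y = c x' y' → EE c x₀ y₀ x y → EE c x₀ y₀ x' y') ∧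
    (∀ x y, c x x = c x₀ x₀ → Bad c ℓ x y → EE c x₀ y₀ x y) ∧
    (∀ x y, EE c x₀ y₀ x y →
      val c x₀ y₀ ≤ Nat.card {w : V // c x w = c x₀ y₀ ∧ c y w = c x₀ y₀} + 2 * ℓ)

/-- CLB. The sub-blocks: `E' x y := EE x y ∧ c x y ≠ R` is transitive with classes of size `≤ ℓ`.
Proof. Let `B` be the block of `x ∈ X`. Count the pairs `(y,w)`, `y ∈ B ∖ R(x)`, `w ∈ R(x) ∩ R(y)`:
for every `y` there are `≥ N - 2ℓ` such `w`; for every `w ∈ R(x)` at most
`|R(w) ∖ R(x)| ≤ ℓ` such `y`. So `|B ∖ R(x)| (N - 2ℓ) ≤ N ℓ`, `|B ∖ R(x)| ≤ 4ℓ`.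
Transitivity: suppose `y ∈ E'(x)`, `z ∈ E'(y)` and `c x z = R`. By CNT, for every `w ∈ R(x)` there
is `y'` with `c x y' = c x y`, `c y' w = c y z`, so `y' ∈ E'(x)`, `w ∈ E'(y')`. So
`N ≤ (4ℓ)²`, a contradiction. Size: let `y ∈ R(x)`. If `z ∈ E'(x)` then `c z x ≠ R` and `c z y = R`
(otherwise `y ∈ E'(z)`, `y ∈ E'(x)`), so `z` distinguishes `x` and `y`; so `|E'(x)| ≤ dd ≤ ℓ`. -/
def StmtCLB : Prop :=
  ∀ (V κ : Type) [Finite V] (c : V → V → κ) (ℓ : ℕ) (x₀ y₀ : V), Coherent c → 100 ≤ ℓ →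
    LB c ℓ x₀ y₀ →
    (∀ x y z, EE c x₀ y₀ x y → EE c x₀ y₀ y z → c x y ≠ c x₀ y₀ → c y z ≠ c x₀ y₀ →
      c x z ≠ c x₀ y₀) ∧
    (∀ x, Nat.card {y : V // EE c x₀ y₀ x y ∧ c x y ≠ c x₀ y₀} ≤ ℓ)

/-- FIS. Fisher's inequality. Proof. Gram matrix `(n - lam) I + lam J` of the characteristic
vectors (over `ℚ` or `ℝ`) is positive definite, so the vectors are linearly independent:
if `∑ a_i χ_i = 0` then `0 = |∑ a_i χ_i|² = (n - lam) ∑ a_i² + lam (∑ a_i)²`. -/
def StmtFIS : Prop :=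
  ∀ (ι D : Type) [Finite ι] [Finite D] (A : ι → Set D) (n lam : ℕ), lam < n →
    (∀ i, (A i).ncard = n) → (∀ i j, i ≠ j → (A i ∩ A j).ncard = lam) →
    Nat.card ι ≤ Nat.card D

/-- SMC (small colours). Let `y ∈ X`, `q := c y z`, `val c y z ≤ ℓ`. Then `z` sees only `q` on the
block of `y`, or no two vertices of the block that are joined by `R` have colour `q` to `z`.
Proof. Let `B` be the block of `y`, `A_u := {w | c u w = q}` for `u ∈ B`, `n := |A_u| = val c y z`.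
By CNT `|A_u ∩ A_v| = lam` is the same for all `R`-pairs `u, v`, `lam ≤ n`.
If `lam = n` then `A_u = A_v` for `R`-pairs; any two `u, v ∈ B` have a common `R`-neighbour (`EE`),
so `A_u` is constant on `B`: first alternative.
If `lam < n`: let `e` be the common size of the classes of `E'` in `B` (or just: they have at most
`ℓ` elements, CLB) and take one representative of each class. Two representatives are joined
by `R`, so FIS gives `(number of classes) ≤ |D|`, `D := ⋃_{u ∈ B} A_u`; so `|B| ≤ ℓ |D|`. For `w ∈ D`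
the number `k := #{u ∈ B | c u w = q}` does not depend on `w` (CNT: `EE` is a union of colours; if
`c u w = q = c u' w'` with `u, u' ∈ B`, then `#{v | EE u v, c v w = q} = #{v | EE u' v, c v w' = q}`).
So `|B| n = |D| k`, so `k ≤ ℓ n ≤ ℓ²`. For `u ∈ B`:
`N lam = ∑_{v ∈ R(u)} |A_u ∩ A_v| ≤ ∑_{w ∈ A_u} k ≤ n k ≤ ℓ³ < N`, so `lam = 0`: second
alternative. -/
def StmtSMC : Prop :=
  ∀ (V κ : Type) [Finite V] (c : V → V → κ) (ℓ : ℕ) (x₀ y₀ : V), Coherent c → 100 ≤ ℓ →
    LB c ℓ x₀ y₀ → ∀ y z : V, c y y = c x₀ x₀ → val c y z ≤ ℓ →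
    (∀ u, EE c x₀ y₀ y u → c u z = c y z) ∨
    (∀ u v, EE c x₀ y₀ y u → EE c x₀ y₀ y v → c u z = c y z → c v z = c y z →
      c u v ≠ c x₀ y₀)

/-- LGC (large colours). Let `y ∈ X`, `q := c y z`, `val c y z > ℓ^4`. Then few `u ∈ R(y)` have
`c u z ≠ q`.
Proof. Let `A_u := {w | c u w = q}`. For an `R`-pair `y, u`: `|A_y ∖ A_u| ≤ dd c y u ≤ ℓ`. For
`w ∈ A_y` the number `ρ := #{u ∈ R(y) | c u w ≠ q}` does not depend on `w` (CNT). So
`ρ val = ∑_{w ∈ A_y} #{u ∈ R(y) | w ∉ A_u} = ∑_{u ∈ R(y)} |A_y ∖ A_u| ≤ N ℓ`, and `val > ℓ^4`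
gives `ρ ℓ^4 ≤ N ℓ`. -/
def StmtLGC : Prop :=
  ∀ (V κ : Type) [Finite V] (c : V → V → κ) (ℓ : ℕ) (x₀ y₀ : V), Coherent c → 100 ≤ ℓ →
    LB c ℓ x₀ y₀ → ∀ y z : V, c y y = c x₀ x₀ → ℓ ^ 4 < val c y z →
    Nat.card {u : V // c y u = c x₀ y₀ ∧ c u z ≠ c y z} * ℓ ^ 3 ≤ val c x₀ y₀

/-- CMP (complement). Let `y ∈ X`, `q := c y z`, and suppose that at most `r ℓ` vertices `u` of the
block `B` of `y` have `c u z ≠ q`. Then no two of them are joined by `R`.
Proof. `D := ⋃_{u ∈ B} A_u`, `A_u := {w | c u w = q}`. For `w ∈ D` the number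
`kb := #{u ∈ B | c u w ≠ q}` does not depend on `w` (CNT, as in SMC; `z ∈ D`), so `kb ≤ r ℓ`. For
`u ∈ B` let `A'_u := D ∖ A_u`; `rb := |A'_u|` does not depend on `u` (`|A_u|` does not). For `R`-pairs
`u, v` in `B`: `|A'_u ∖ A'_v| ≤ dd ≤ ℓ`. So
`N (rb - ℓ) ≤ ∑_{v ∈ R(u)} |A'_u ∩ A'_v| ≤ ∑_{w ∈ A'_u} kb ≤ rb r ℓ`, and `N > ℓ^4 ≥ 2 r ℓ` gives
`rb ≤ 2ℓ`; so `∑_{v ∈ R(u)} |A'_u ∩ A'_v| ≤ 2 r ℓ² < N`. The number `|A'_u ∩ A'_v|` is the same for
all `R`-pairs in `B` (CNT: `w ∈ D` iff `∃ u', EE u u' ∧ c u' w = q`, a condition on the colour of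
`(u,w)`), so it is `0`. For `w = z`: no `R`-pair `u, v` in `B` has `c u z ≠ q`, `c v z ≠ q`. -/
def StmtCMP : Prop :=
  ∀ (V κ : Type) [Finite V] (c : V → V → κ) (ℓ r : ℕ) (x₀ y₀ : V), Coherent c → 100 ≤ ℓ →
    r ≤ ℓ → LB c ℓ x₀ y₀ → ∀ y z : V, c y y = c x₀ x₀ →
    Nat.card {u : V // EE c x₀ y₀ y u ∧ c u z ≠ c y z} ≤ r * ℓ →
    ∀ u v, EE c x₀ y₀ y u → EE c x₀ y₀ y v → c u z ≠ c y z → c v z ≠ c y z →
      c u v ≠ c x₀ y₀

/-- CLF. For every block `B` and every vertex `z` there is a colour `q` such that all `u ∈ B` with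
`c u z ≠ q` are in one sub-block.
Proof. `B` = block of `x`. Every `u ∈ B` has `val c u z ≤ ℓ` or `> ℓ^4` (Gap). `|B| ≥ N` and
`B = R(u) ∪ E'(u)` for `u ∈ B` (CLB: `|E'(u)| ≤ ℓ`). If some `u ∈ B` with `val c u z ≤ ℓ` has the first
alternative of SMC, take `q := c u z`. Otherwise every small colour has at most `ℓ` vertices `u ∈ B`
(second alternative: they are in one sub-block). The row of `z` has at most `r` colours (and
`c u z = c v z ↔ c z u = c z v`). Not all colours seen by `z` on `B` are small, as `r ℓ < N`. Two large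
colours `q, q'` are impossible: by LGC (at a vertex `y` of colour `q`, resp. `q'`) all but
`N/ℓ³ + ℓ < N/2` vertices of `B` have colour `q` (resp. `q'`). So there is exactly one large colour
`q`, all others are small, at most `r ℓ` vertices of `B` have another colour, and CMP gives the claim. -/
def StmtCLF : Prop :=
  ∀ (V κ : Type) [Finite V] (c : V → V → κ) (ℓ r : ℕ) (x₀ y₀ : V), Coherent c → Rows c r →
    Gap c ℓ → 100 * (r + 1) ^ 2 ≤ ℓ → LB c ℓ x₀ y₀ → ∀ x z : V, c x x = c x₀ x₀ →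
    ∃ q : κ, ∀ u v, EE c x₀ y₀ x u → EE c x₀ y₀ x v → c u z ≠ q → c v z ≠ q → c u v ≠ c x₀ y₀

/-- LSD. `c'` is a coherent refinement of `c`; the `c'`-fibres in `X` are inside blocks.
Proof. Step 1: let `q` be the colour of CLF for the block `B` of `x` and `z`. Then
`val c x z > ℓ` implies `c x z = q`: otherwise let `p := c x z`; all `y ∈ R(x)` have `c y z = q ≠ p`. By
CNT (number of `y` with `c x y = R`, `c y w ≠ p`, for pairs `(x,w)` of colour `p`) for all
`w ∈ P(x) := {w | c x w = p}` and all `y ∈ R(x)`: `c y w ≠ p`. So `P(x)` is in the set of vertices that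
distinguish `x` from one fixed `y ∈ R(x)`; so `val c x z ≤ dd c x y ≤ ℓ`, a contradiction.
Step 2: `x₁` is in the same block `B`, so also `c x₁ z₁ = q₁`, `q₁` the colour of CLF for `B, z₁`. All but
`≤ ℓ` (CLB) of the `≥ N > 2ℓ` vertices `u` of `B` have `c u z = q`, and all but `≤ ℓ` have
`c u z₁ = q₁`. `B` is a union of `c'`-fibres, `z` and `z₁` are in one `c'`-fibre; so (CNT for `c'` and
the pairs `(z,z)`, `(z₁,z₁)`: a bijection `e` of `V` with `c' (e u) z₁ = c' u z`, so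
`c (e u) z₁ = c u z` and `e u` is in the `c'`-fibre of `u`, so `e` maps `B` to `B`)
`#{u ∈ B | c u z = q} = #{u ∈ B | c u z₁ = q}`. So `q = q₁`. -/
def StmtLSD : Prop :=
  ∀ (V κ κ' : Type) [Finite V] (c : V → V → κ) (c' : V → V → κ') (ℓ r : ℕ) (x₀ y₀ : V),
    Coherent c → Coherent c' → (∀ x y x' y', c' x y = c' x' y' → c x y = c x' y') →
    Rows c r → Gap c ℓ → 100 * (r + 1) ^ 2 ≤ ℓ → LB c ℓ x₀ y₀ →
    (∀ x y, c x x = c x₀ x₀ → c' x x = c' y y → EE c x₀ y₀ x y) →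
    ∀ x x₁ z z₁ : V, c x x = c x₀ x₀ → c' x x = c' x₁ x₁ → c' z z = c' z₁ z₁ →
      ℓ < val c x z → ℓ < val c x₁ z₁ → c x z = c x₁ z₁

/-- SSD. The other case: no bad pair of large valency in the fibre of `x`.
Proof. Let `F` be the `c'`-fibre of `x`. Suppose `c u z ≠ c x z =: p` for some `u ∈ F`. `(x,u)` is bad
and not `LB`, so `val c x u ≤ ℓ` (Gap), `dd c x u ≤ ℓ`. Let `T := c x u`. By CNT, for every `w` with
`c x w = p` there is `u'` with `c x u' = T` and `c u' w ≠ p`. So `{w | c x w = p}` is in the union of the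
`≤ ℓ` sets `{w | c w x ≠ c w u'}` of size `dd c x u' = dd c x u ≤ ℓ`, so `val c x z ≤ ℓ² ≤ ℓ^4`, so
`≤ ℓ` (Gap), a contradiction. So `c u z = c x z` for all `u ∈ F`, and in the same way
`c u z₁ = c x₁ z₁` for all `u ∈ F`. By CNT for `c'` and `(z,z)`, `(z₁,z₁)`:
`e` with `c (e u) z₁ = c u z`, `e u ∈ F` for `u ∈ F`: so `c x z = c x₁ z₁`. -/
def StmtSSD : Prop :=
  ∀ (V κ κ' : Type) [Finite V] (c : V → V → κ) (c' : V → V → κ') (ℓ : ℕ),
    Coherent c → Coherent c' → (∀ x y x' y', c' x y = c' x' y' → c x y = c x' y') →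
    Gap c ℓ → 100 ≤ ℓ → (∀ x y, x ≠ y → c' x x = c' y y → Bad c ℓ x y) →
    ∀ x x₁ z z₁ : V, (∀ x₀ y₀, c x₀ x₀ = c x x → ¬ LB c ℓ x₀ y₀) →
      c' x x = c' x₁ x₁ → c' z z = c' z₁ z₁ →
      ℓ < val c x z → ℓ < val c x₁ z₁ → c x z = c x₁ z₁

/-- TWO. Proof. (1) `val c x z > ℓ` and `val c x₁ z₁ > ℓ`: if there is an `LB` pair `(x₀,y₀)` with
`x₀` in the fibre of `x`: LSD (the `c'`-fibres in `X` are in blocks: CLA, reflexivity and bad pairs);
otherwise SSD. (2) `val c z x > ℓ` and `val c z₁ x₁ > ℓ`: the same with the roles exchanged, and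
`symm`. (3) otherwise, up to exchange, `val c x z > ℓ`, `val c z x ≤ ℓ`, `val c x₁ z₁ ≤ ℓ`,
`val c z₁ x₁ > ℓ`; `x, x₁` are in one `c`-fibre `X`, `z, z₁` in one `c`-fibre `Z`; by VAL
`|X| val c x z = |Z| val c z x` and `|X| val c x₁ z₁ = |Z| val c z₁ x₁`, so (Gap)
`|X| ℓ^4 < |Z| ℓ` and `|Z| ℓ^4 < |X| ℓ`, a contradiction. -/
def StmtTWO : Prop :=
  ∀ (V κ κ' : Type) [Finite V] (c : V → V → κ) (c' : V → V → κ') (ℓ r : ℕ),
    Coherent c → Coherent c' → (∀ x y x' y', c' x y = c' x' y' → c x y = c x' y') →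
    Rows c r → Gap c ℓ → 100 * (r + 1) ^ 2 ≤ ℓ →
    (∀ x y, x ≠ y → c' x x = c' y y → Bad c ℓ x y) →
    ∀ x x₁ z z₁ : V, c' x x = c' x₁ x₁ → c' z z = c' z₁ z₁ → ¬ Sm c ℓ x z →
      ¬ Sm c ℓ x₁ z₁ → c x z = c x₁ z₁

/-- EQV. Proof. `val c x x = 1`. Transitivity: if `val c x z ≤ ℓ`, `val c z y ≤ ℓ` then by CNT every
`w` with `c x w = c x y` has a `u` with `c x u = c x z`, `c u w = c z y`; so
`val c x y ≤ ℓ² ≤ ℓ^4`, so `≤ ℓ` by Gap. Invariance: VAL. Size: `{y | Sm c ℓ x y}` is the union of at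
most `r` sets `{w | c x w = c x y}` of size `≤ ℓ`. -/
def StmtEQV : Prop :=
  ∀ (V κ : Type) [Finite V] (c : V → V → κ) (ℓ r : ℕ), Coherent c → Rows c r → Gap c ℓ →
    100 ≤ ℓ → Equivalence (Sm c ℓ) ∧ (∀ x, Nat.card {y : V // Sm c ℓ x y} ≤ r * ℓ) ∧
      (∀ x y x' y', c x y = c x' y' → (Sm c ℓ x y ↔ Sm c ℓ x' y'))

/-! ## Part 4. Parameters -/

/-- GAP. Proof. There are at most `r` fibres (the row of `x` meets every fibre: VAL) and so at most
`r²` colours; `val` and `dd` are functions of the colour (VAL), so they take at most `2r²` values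
together. The `2r²+1` windows `(m^(4^j), m^(4^(j+1))]`, `j = 0..2r²`, are disjoint, so one of them
contains no value. -/
def StmtGAP : Prop :=
  ∀ (V κ : Type) [Finite V] (c : V → V → κ) (r m : ℕ), Coherent c → Rows c r → 2 ≤ m →
    ∃ j : ℕ, j ≤ 2 * r ^ 2 ∧ Gap c (m ^ 4 ^ j)

/-- HIT. Small hitting sets (as tuples). Proof. Count the tuples `s : Fin t → V`: there are `n^t`; for
every `D x y` of the family at most `(n-u)^t` tuples avoid it. -/
def StmtHIT : Prop :=
  ∀ (V : Type) [Finite V] (D : V → V → Set V) (u t : ℕ),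
    Nat.card V ^ 2 * (Nat.card V - u) ^ t < Nat.card V ^ t →
    ∃ s : Fin t → V, ∀ x y : V, u ≤ (D x y).ncard → ∃ i, s i ∈ D x y

/-- NUM. Proof. Let `K := 4^(2r²+1)`, `γ := 1/(4K)`, `m := ⌊n^(1/(2K))⌋`. Then `m^(2K) ≤ n`;
`ℓ := m^(4^j) ≤ m^(K/4) ≤ n^(1/8)` and `ℓ ≥ m ≥ n^(1/(2K))/2`, `ℓ^4 ≤ n^(1/2) ≤ n`. With
`t := ⌈3 n log n / ℓ^4⌉`: `(n-ℓ^4)^t ≤ n^t exp(-t ℓ^4/n) ≤ n^t n^(-3)`. So
`t + rℓ + 3 ≤ 48 n^(1-2/K) log n + r n^(1/8) + 4 ≤ n^(1-1/(4K)) - 1` for large `n`. -/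
def StmtNUM : Prop :=
  ∀ r : ℕ, ∃ γ : ℝ, 0 < γ ∧ γ < 1 ∧ ∃ N : ℕ, ∀ n : ℕ, N ≤ n →
    ∃ m : ℕ, 100 * (r + 1) ^ 2 ≤ m ∧ ∀ j : ℕ, j ≤ 2 * r ^ 2 →
      ∃ t : ℕ, n ^ 2 * (n - (m ^ 4 ^ j) ^ 4) ^ t < n ^ t ∧
        t + r * m ^ 4 ^ j + 3 ≤ ⌊(n : ℝ) ^ (1 - γ)⌋₊

/-- MAIN. Proof. Fix `γ, N` of NUM, `n ≥ N`, `m`, `k := ⌊n^(1-γ)⌋`. `c_T := typ0 k G` is coherent
(TYC with `t = 0`). Let `c₀` be the configuration of JOI for `c₁ := c_T` and `c₂ := c`: coherent,
`Rows c₀ r`, `G.Adj` is `c₀`-invariant. GAP: `j`, `ℓ := m^(4^j)`, `Gap c₀ ℓ`. HIT with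
`D x y := {z | c₀ z x ≠ c₀ z y}`, `u := ℓ^4` gives `s : Fin t → V`. `c' := typ k G t s` is coherent
and refines `c_T` (TYC), so `c₀`. If `x ≠ y` and `c' x x = c' y y`, then `c₀ x x = c₀ y y` and
`typ0 (s i) x = typ0 (s i) y`, so `c₀ (s i) x = c₀ (s i) y` for all `i`; so `dd c₀ x y < ℓ^4`
(HIT) and `≤ ℓ` (Gap): `Bad c₀ ℓ x y`. So TWO, EQV and CEL with `E := Sm c₀ ℓ`, `L := r ℓ` give
`Identifies k G`. -/
def StmtMAIN : Prop :=
  ∀ r : ℕ, ∃ γ : ℝ, 0 < γ ∧ γ < 1 ∧ ∃ N : ℕ, ∀ (V κ : Type) [Fintype V] (G : SimpleGraph V)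
    (c : V → V → κ), N ≤ Fintype.card V → Coherent c → Rows c r →
    (∀ x y x' y', c x y = c x' y' → (G.Adj x y ↔ G.Adj x' y')) →
    ∃ k : ℕ, (k : ℝ) ≤ (Fintype.card V : ℝ) ^ (1 - γ) ∧ Identifies k G

/-- GRP. Graphs whose vertex stabilisers have at most `r` orbits. Proof. `c x y` := the orbit of
`(x,y)` under the automorphism group (e.g. the set of all pairs `(g x, g y)`) is coherent
(bijections `z ↦ g z`), `Rows c r`, and `G.Adj` is `c`-invariant. MAIN. -/
def StmtGRP : Prop :=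
  ∀ r : ℕ, ∃ γ : ℝ, 0 < γ ∧ γ < 1 ∧ ∃ N : ℕ, ∀ (V : Type) [Fintype V] (G : SimpleGraph V),
    N ≤ Fintype.card V →
    (∀ x : V, ∃ S : Finset V, S.card ≤ r ∧ ∀ y : V, ∃ g : G ≃g G, g x = x ∧ g y ∈ S) →
    ∃ k : ℕ, (k : ℝ) ≤ (Fintype.card V : ℝ) ^ (1 - γ) ∧ Identifies k G

end Pool.Agent.BRW
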