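import Mathlib
import Pool.Agent.BRW.Defs
import Pool.Agent.BRW.St

set_option autoImplicit false

/-!
# BRW: module LSD
-/

namespace Pool.Agent.BRW

/-- Step 1: a colour of valency larger than `ℓ` is the colour `q` of `StmtCLF`. -/
theorem lsd_step (hCNT : StmtCNT) (hVAL : StmtVAL) (hCLA : StmtCLA) {V κ : Type} [Finite V]
    (c : V → V → κ) (ℓ : ℕ) (x₀ y₀ : V) (hc : Coherent c) (hℓ : 100 ≤ ℓ)
    (hLB : LB c ℓ x₀ y₀) (x z : V) (hx : c x x = c x₀ x₀) (hv : ℓ < val c x z) (q : κ)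
    (hq : ∀ u v, EE c x₀ y₀ x u → EE c x₀ y₀ x v → c u z ≠ q → c v z ≠ q →
      c u v ≠ c x₀ y₀) : c x z = q := by
  obtain ⟨cA1, cA2, -⟩ := hCLA V κ c ℓ x₀ y₀ hc hℓ hLB
  obtain ⟨-, v2, v3, -⟩ := hVAL V κ c hc
  by_contra hne
  have h1 : ∀ y, c x y = c x₀ y₀ → c y z ≠ c x z := by
    intro y hy h2
    exact hq x y (cA2 x hx) (cA1 x y hy).2.2 hne (h2 ▸ hne) hy
  have h2 : ∀ w, c x w = c x z → ∀ y, c x y = c x₀ y₀ → c y w ≠ c x z := by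
    intro w hw y hy h3
    obtain ⟨e, he⟩ := hCNT V κ c hc x z x w hw.symm
    obtain ⟨a, b⟩ := he (e.symm y)
    rw [Equiv.apply_symm_apply] at a b
    exact h1 (e.symm y) (a.symm.trans hy) (b.symm.trans h3)
  have h3 : Nat.card {w : V // c x w = c x₀ y₀} = val c x₀ y₀ := v3 x₀ y₀ x hx
  have h4 : 0 < Nat.card {w : V // c x w = c x₀ y₀} := by
    rw [h3]; exact (Nat.zero_le _).trans_lt hLB.2
  obtain ⟨⟨y, hy⟩⟩ := (Nat.card_pos_iff.1 h4).1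
  have h5 : dd c x y ≤ ℓ := by
    rw [(v2 x y x₀ y₀ hy).2]; exact hLB.1.2.2
  have h6 : val c x z ≤ dd c x y := by
    unfold val dd
    refine Nat.card_le_card_of_injective
      (fun w : {w : V // c x w = c x z} => (⟨w.1, ?_⟩ : {w : V // c w x ≠ c w y})) ?_
    · intro h7
      have h8 := hc.symm w.1 x w.1 y h7
      exact h2 w.1 w.2 y hy (h8 ▸ w.2)
    · intro a b hab
      exact Subtype.ext (congrArg (fun t => t.1) hab)
  omega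

theorem lsd (hCNT : StmtCNT) (hVAL : StmtVAL) (hCLA : StmtCLA) (hCLB : StmtCLB)
    (hCLF : StmtCLF) : StmtLSD := by
  intro V κ κ' _ c c' ℓ r x₀ y₀ hc hc' href hrows hgap hℓ hLB hfib x x₁ z z₁ hx hxx hzz hv hv₁
  have hℓ100 : 100 ≤ ℓ := by
    have h1 : 1 ≤ (r + 1) ^ 2 := Nat.one_le_pow 2 (r + 1) (Nat.succ_pos r)
    omega
  obtain ⟨cA1, cA2, cA3, cA4, -⟩ := hCLA V κ c ℓ x₀ y₀ hc hℓ100 hLB
  obtain ⟨-, cB2⟩ := hCLB V κ c ℓ x₀ y₀ hc hℓ100 hLB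
  obtain ⟨-, -, v3, -⟩ := hVAL V κ c hc
  obtain ⟨w1, -⟩ := hVAL V κ' c' hc'
  have hEx : EE c x₀ y₀ x x₁ := hfib x x₁ hx hxx
  have hEx' : EE c x₀ y₀ x₁ x := (cA3 x x₁ hEx).1
  have hx₁ : c x₁ x₁ = c x₀ x₀ := (cA3 x₁ x hEx').2
  obtain ⟨q, hq⟩ := hCLF V κ c ℓ r x₀ y₀ hc hrows hgap hℓ hLB x z hx
  obtain ⟨q₁, hq₁⟩ := hCLF V κ c ℓ r x₀ y₀ hc hrows hgap hℓ hLB x₁ z₁ hx₁
  rw [lsd_step hCNT hVAL hCLA c ℓ x₀ y₀ hc hℓ100 hLB x z hx hv q hq,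
    lsd_step hCNT hVAL hCLA c ℓ x₀ y₀ hc hℓ100 hLB x₁ z₁ hx₁ hv₁ q₁ hq₁]
  by_contra hne
  -- few vertices of the block have another colour to a vertex
  have few : ∀ (a b : V) (p : κ), (∀ u v, EE c x₀ y₀ a u → EE c x₀ y₀ a v → c u b ≠ p →
      c v b ≠ p → c u v ≠ c x₀ y₀) → {u : V | EE c x₀ y₀ a u ∧ c u b ≠ p}.ncard ≤ ℓ := by
    intro a b p hp
    rcases Set.eq_empty_or_nonempty {u : V | EE c x₀ y₀ a u ∧ c u b ≠ p} with h0 | ⟨u, hu, hup⟩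
    · rw [h0, Set.ncard_empty]; exact Nat.zero_le _
    · refine le_trans ?_ (cB2 u)
      have hsub : {v : V | EE c x₀ y₀ a v ∧ c v b ≠ p} ⊆
          {v : V | EE c x₀ y₀ u v ∧ c u v ≠ c x₀ y₀} := by
        rintro v ⟨hv1, hv2⟩
        exact ⟨cA4 u a v (cA3 a u hu).1 hv1, hp u v hu hv1 hup hv2⟩
      exact (Set.ncard_le_ncard hsub (Set.toFinite _)).trans_eq (Nat.card_coe_set_eq _).symm
  -- the block is large
  have big : ℓ ^ 4 < {u : V | EE c x₀ y₀ x u}.ncard := by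
    have h1 : Nat.card {w : V // c x w = c x₀ y₀} = val c x₀ y₀ := v3 x₀ y₀ x hx
    have h2 : {w : V | c x w = c x₀ y₀} ⊆ {u : V | EE c x₀ y₀ x u} :=
      fun w hw => (cA1 x w hw).2.2
    have h3 := Set.ncard_le_ncard h2 (Set.toFinite _)
    have h4 : Nat.card {w : V // c x w = c x₀ y₀} = {w : V | c x w = c x₀ y₀}.ncard :=
      Nat.card_coe_set_eq _
    have h5 := hLB.2
    omega
  have f1 := few x z q hq
  have f2 := few x₁ z₁ q₁ hq₁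
  obtain ⟨e, he⟩ := hCNT V κ' c' hc' z z z₁ z₁ hzz
  have f3 : {u : V | EE c x₀ y₀ x u ∧ c u z = q}.ncard ≤
      {u : V | EE c x₀ y₀ x₁ u ∧ c u z₁ ≠ q₁}.ncard := by
    refine Set.ncard_le_ncard_of_injOn e ?_ e.injective.injOn (Set.toFinite _)
    rintro u ⟨hu, huq⟩
    have h1 : c' (e u) z₁ = c' u z := (he u).2
    have h2 : c (e u) z₁ = c u z := href _ _ _ _ h1
    have h3 : c' (e u) (e u) = c' u u := (w1 _ _ _ _ h1).1
    have h4 : c u u = c x₀ x₀ := (cA3 u x (cA3 x u hu).1).2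
    refine ⟨cA4 x₁ x _ hEx' (cA4 x u _ hu (hfib u (e u) h4 h3.symm)), ?_⟩
    rw [h2, huq]
    exact hne
  have f4 : {u : V | EE c x₀ y₀ x u}.ncard ≤ {u : V | EE c x₀ y₀ x u ∧ c u z = q}.ncard +
      {u : V | EE c x₀ y₀ x u ∧ c u z ≠ q}.ncard := by
    refine le_trans (Set.ncard_le_ncard ?_ (Set.toFinite _)) (Set.ncard_union_le _ _)
    intro u hu
    by_cases h : c u z = q
    · exact Or.inl ⟨hu, h⟩
    · exact Or.inr ⟨hu, h⟩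
  have h7 : 2 * ℓ ≤ ℓ ^ 4 := by
    have : ℓ * 2 ≤ ℓ * ℓ ^ 3 := by
      refine Nat.mul_le_mul_left _ ?_
      have : ℓ ^ 3 ≥ ℓ := Nat.le_self_pow (by norm_num) _
      omega
    calc 2 * ℓ = ℓ * 2 := mul_comm _ _
      _ ≤ ℓ * ℓ ^ 3 := this
      _ = ℓ ^ 4 := by ring
  omega

end Pool.Agent.BRW
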