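import Pool.Agent.BRW.St

set_option autoImplicit false

/-!
# Module SSD: no bad pair of large valency in the fibre
-/

namespace Pool.Agent.BRW

open Finset

theorem ssd_fib (hCNT : StmtCNT) (hVAL : StmtVAL) {V κ : Type} [Finite V] (c : V → V → κ)
    (ℓ : ℕ) (hc : Coherent c) (hg : Gap c ℓ) (hl : 100 ≤ ℓ) (y u w : V)
    (hLB : ∀ x₀ y₀, c x₀ x₀ = c y y → ¬ LB c ℓ x₀ y₀) (hb : y ≠ u → Bad c ℓ y u)
    (hv : ℓ < val c y w) : c u w = c y w := by
  classical
  have : Fintype V := Fintype.ofFinite V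
  by_contra hne
  have hyu : y ≠ u := by
    rintro rfl
    exact hne rfl
  have hbad := hb hyu
  have h1 : val c y u ≤ ℓ := by
    rcases hg.1 y u with h | h
    · exact h
    · exact absurd ⟨hbad, h⟩ (hLB y u rfl)
  have hval : ∀ a b : V, val c a b = (univ.filter fun v => c a v = c a b).card := by
    intro a b
    rw [val, Nat.card_eq_fintype_card, Fintype.card_subtype]
  have hdd : ∀ a b : V, dd c a b = (univ.filter fun v => c v a ≠ c v b).card := by
    intro a b
    rw [dd, Nat.card_eq_fintype_card, Fintype.card_subtype]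
  have hsub : (univ.filter fun v => c y v = c y w) ⊆
      (univ.filter fun u' => c y u' = c y u).biUnion
        fun u' => univ.filter fun v => c v y ≠ c v u' := by
    intro v hv'
    rw [mem_filter] at hv'
    obtain ⟨e, he⟩ := hCNT V κ c hc y w y v hv'.2.symm
    rw [mem_biUnion]
    refine ⟨e u, mem_filter.2 ⟨mem_univ _, (he u).1⟩, mem_filter.2 ⟨mem_univ _, fun h => ?_⟩⟩
    have h2 := hc.symm _ _ _ _ h
    rw [(he u).2, hv'.2] at h2
    exact hne h2.symm
  have h2 : val c y w ≤ ℓ * ℓ := by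
    rw [hval]
    refine (card_le_card hsub).trans (card_biUnion_le.trans ?_)
    refine (sum_le_card_nsmul _ _ ℓ fun u' hu' => ?_).trans ?_
    · rw [mem_filter] at hu'
      rw [← hdd]
      have h3 := ((hVAL V κ c hc).2.1 y u' y u hu'.2).2
      rw [h3]
      exact hbad.2.2
    · rw [smul_eq_mul, ← hval]
      exact Nat.mul_le_mul_right ℓ h1
  rcases hg.1 y w with h | h
  · omega
  · have h3 : ℓ * ℓ ≤ ℓ ^ 4 := by
      rw [← pow_two]
      exact Nat.pow_le_pow_right (by omega) (by norm_num)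
    omega

theorem ssd (hCNT : StmtCNT) (hVAL : StmtVAL) : StmtSSD := by
  intro V κ κ' _ c c' ℓ hc hc' href hg hl hbad x x₁ z z₁ hLB hx hz h1 h2
  obtain ⟨e, he⟩ := hCNT V κ' c' hc' z z z₁ z₁ hz
  have h3 : c (e x) z₁ = c x z := href _ _ _ _ (he x).2
  have h4 : c' (e x) (e x) = c' x x := ((hVAL V κ' c' hc').1 _ _ _ _ (he x).2).1
  have h5 : c x₁ x₁ = c x x := (href _ _ _ _ hx).symm
  have h6 : c (e x) z₁ = c x₁ z₁ := by
    refine ssd_fib hCNT hVAL c ℓ hc hg hl x₁ (e x) z₁ (fun x₀ y₀ h => ?_) (fun hne => ?_) h2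
    · exact hLB x₀ y₀ (h.trans h5)
    · exact hbad _ _ hne (hx.symm.trans h4.symm)
  rw [← h3, h6]

end Pool.Agent.BRW
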