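import Mathlib
import Pool.Agent.BRW.St

set_option autoImplicit false

/-!
# Module TWO: two pairs of non-small colours between two fibres of `c'` have the same colour
-/

namespace Pool.Agent.BRW

/-- The case of two large valencies (seen from `x` and `x₁`). -/
theorem two_aux (hCLA : StmtCLA) (hLSD : StmtLSD) (hSSD : StmtSSD)
    {V κ κ' : Type} [Finite V] {c : V → V → κ} {c' : V → V → κ'} {ℓ r : ℕ}
    (hc : Coherent c) (hc' : Coherent c')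
    (href : ∀ x y x' y', c' x y = c' x' y' → c x y = c x' y')
    (hr : Rows c r) (hg : Gap c ℓ) (hℓ : 100 * (r + 1) ^ 2 ≤ ℓ)
    (hbad : ∀ x y, x ≠ y → c' x x = c' y y → Bad c ℓ x y)
    (x x₁ z z₁ : V) (hx : c' x x = c' x₁ x₁) (hz : c' z z = c' z₁ z₁)
    (h : ℓ < val c x z) (h₁ : ℓ < val c x₁ z₁) : c x z = c x₁ z₁ := by
  have h100 : 100 ≤ ℓ := by
    have h1 : 1 ≤ (r + 1) ^ 2 := Nat.one_le_pow _ _ (Nat.succ_pos r)
    omega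
  by_cases hLB : ∃ x₀ y₀ : V, c x₀ x₀ = c x x ∧ LB c ℓ x₀ y₀
  · obtain ⟨x₀, y₀, hx₀, hlb⟩ := hLB
    obtain ⟨-, hrefl, -, -, -, hb, -⟩ := hCLA V κ c ℓ x₀ y₀ hc h100 hlb
    refine hLSD V κ κ' c c' ℓ r x₀ y₀ hc hc' href hr hg hℓ hlb ?_ x x₁ z z₁ hx₀.symm hx hz h h₁
    intro u v hu huv
    by_cases huv' : u = v
    · rw [← huv']
      exact hrefl u hu
    · exact hb u v hu (hbad u v huv' huv)
  · refine hSSD V κ κ' c c' ℓ hc hc' href hg h100 hbad x x₁ z z₁ ?_ hx hz h h₁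
    intro x₀ y₀ hx₀ hlb
    exact hLB ⟨x₀, y₀, hx₀, hlb⟩

/-- The mixed case is impossible. -/
theorem two_mix {V κ : Type} [Finite V] {c : V → V → κ} {ℓ : ℕ}
    (hval : ∀ x z : V, Nat.card {w : V // c w w = c x x} * val c x z =
      Nat.card {w : V // c w w = c z z} * val c z x)
    (hg : Gap c ℓ) (h100 : 100 ≤ ℓ) (x x₁ z z₁ : V) (hx : c x x = c x₁ x₁)
    (hz : c z z = c z₁ z₁) (h : ℓ < val c x z) (h' : val c z x ≤ ℓ)
    (h₁ : val c x₁ z₁ ≤ ℓ) (h₁' : ℓ < val c z₁ x₁) : False := by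
  have hX : 0 < Nat.card {w : V // c w w = c x x} :=
    Nat.card_pos_iff.2 ⟨⟨⟨x, rfl⟩⟩, inferInstance⟩
  have hZ : 0 < Nat.card {w : V // c w w = c z z} :=
    Nat.card_pos_iff.2 ⟨⟨⟨z, rfl⟩⟩, inferInstance⟩
  have e := hval x z
  have e₁ := hval x₁ z₁
  rw [← hx, ← hz] at e₁
  obtain ⟨X, hXe⟩ : ∃ X, Nat.card {w : V // c w w = c x x} = X := ⟨_, rfl⟩
  obtain ⟨Z, hZe⟩ : ∃ Z, Nat.card {w : V // c w w = c z z} = Z := ⟨_, rfl⟩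
  rw [hXe] at hX e e₁
  rw [hZe] at hZ e e₁
  have g : ℓ ^ 4 < val c x z := (hg.1 x z).resolve_left (not_le.2 h)
  have g₁ : ℓ ^ 4 < val c z₁ x₁ := (hg.1 z₁ x₁).resolve_left (not_le.2 h₁')
  have hℓ4 : ℓ ≤ ℓ ^ 4 := by
    calc ℓ = ℓ ^ 1 := (pow_one ℓ).symm
      _ ≤ ℓ ^ 4 := Nat.pow_le_pow_right (by omega) (by omega)
  have a1 : X * ℓ ^ 4 < X * val c x z := Nat.mul_lt_mul_of_pos_left g hX
  have a2 : Z * val c z x ≤ Z * ℓ := Nat.mul_le_mul_left Z h'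
  have a3 : Z * ℓ ≤ Z * ℓ ^ 4 := Nat.mul_le_mul_left Z hℓ4
  have a4 : Z * ℓ ^ 4 < Z * val c z₁ x₁ := Nat.mul_lt_mul_of_pos_left g₁ hZ
  have a5 : X * val c x₁ z₁ ≤ X * ℓ := Nat.mul_le_mul_left X h₁
  have a6 : X * ℓ ≤ X * ℓ ^ 4 := Nat.mul_le_mul_left X hℓ4
  rw [e] at a1
  rw [← e₁] at a4
  exact absurd (a1.trans_le (a2.trans (a3.trans (a4.le.trans (a5.trans a6))))) (lt_irrefl _)

/-- TWO. -/
theorem two (_hCNT : StmtCNT) (hVAL : StmtVAL) (hCLA : StmtCLA) (hLSD : StmtLSD)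
    (hSSD : StmtSSD) : StmtTWO := by
  intro V κ κ' _ c c' ℓ r hc hc' href hr hg hℓ hbad x x₁ z z₁ hx hz h h₁
  have h100 : 100 ≤ ℓ := by
    have h1 : 1 ≤ (r + 1) ^ 2 := Nat.one_le_pow _ _ (Nat.succ_pos r)
    omega
  obtain ⟨-, -, -, hval⟩ := hVAL V κ c hc
  have hA := fun x x₁ z z₁ => two_aux hCLA hLSD hSSD hc hc' href hr hg hℓ hbad x x₁ z z₁
  have hB : ∀ x x₁ z z₁ : V, c' x x = c' x₁ x₁ → c' z z = c' z₁ z₁ → ℓ < val c z x →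
      ℓ < val c z₁ x₁ → c x z = c x₁ z₁ := fun x x₁ z z₁ hx hz h h₁ =>
    hc.symm z x z₁ x₁ (hA z z₁ x x₁ hz hx h h₁)
  have h' : ¬ (val c x z ≤ ℓ ∧ val c z x ≤ ℓ) := h
  have h₁' : ¬ (val c x₁ z₁ ≤ ℓ ∧ val c z₁ x₁ ≤ ℓ) := h₁
  have cx : c x x = c x₁ x₁ := href _ _ _ _ hx
  have cz : c z z = c z₁ z₁ := href _ _ _ _ hz
  by_cases p : ℓ < val c x z
  · by_cases p₁ : ℓ < val c x₁ z₁
    · exact hA x x₁ z z₁ hx hz p p₁
    · have q₁ : ℓ < val c z₁ x₁ := by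
        by_contra hq
        exact h₁' ⟨not_lt.1 p₁, not_lt.1 hq⟩
      by_cases q : ℓ < val c z x
      · exact hB x x₁ z z₁ hx hz q q₁
      · exact (two_mix hval hg h100 x x₁ z z₁ cx cz p (not_lt.1 q) (not_lt.1 p₁) q₁).elim
  · have q : ℓ < val c z x := by
      by_contra hq
      exact h' ⟨not_lt.1 p, not_lt.1 hq⟩
    by_cases q₁ : ℓ < val c z₁ x₁
    · exact hB x x₁ z z₁ hx hz q q₁
    · have p₁ : ℓ < val c x₁ z₁ := by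
        by_contra hp
        exact h₁' ⟨not_lt.1 hp, not_lt.1 q₁⟩
      exact (two_mix hval hg h100 x₁ x z₁ z cx.symm cz.symm p₁ (not_lt.1 q₁)
        (not_lt.1 p) q).elim

end Pool.Agent.BRW
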