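import Mathlib
import Pool.Agent.BRW.St

set_option autoImplicit false

/-!
# Bounded rank and the width of counting logic: uniform form (MP_87b449_lc)

The final theorem in terms of the rank `R` (total number of classes), uniform for
`A R ≤ log log n`, with the explicit exponent `1 - 4^(-2R-2)`.
-/

namespace Pool.Agent.BRW

/-- GAP2. `val` and `dd` are functions of the colour (VAL), so they take at most `2R` values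
together; the `2R+1` windows `(m^(4^j), m^(4^(j+1))]`, `j = 0..2R`, are disjoint. -/
def StmtGAP2 : Prop :=
  ∀ (V κ : Type) [Finite V] (c : V → V → κ) (R m : ℕ), Coherent c →
    (Set.range (fun p : V × V => c p.1 p.2)).ncard ≤ R → 2 ≤ m →
    ∃ j : ℕ, j ≤ 2 * R ∧ Gap c (m ^ 4 ^ j)

/-- NUM2. Proof. Let `L = log n`, `K := 4^(2R+1)`. With `A = 12`: `16^R ≤ L^(1/4)`, so
`K ≤ 4 L^(1/4)` and `n^(1/(2K)) = exp (L/(2K)) ≥ exp (L^(3/4)/8)`. Let `m := ⌊n^(1/(2K))⌋`; for large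
`n`: `m ≥ 100(R+1)²` (as `R ≤ log L`) and `m ≥ n^(1/(2K))/2`. For `j ≤ 2R` let `ℓ := m^(4^j)`:
`4^j ≤ K/4`, so `m ≤ ℓ ≤ m^(K/4) ≤ n^(1/8)`, `ℓ^4 ≤ n`. With `t := ⌈3 n L / ℓ^4⌉`:
`(n-ℓ^4)^t ≤ n^t exp(-t ℓ^4/n) ≤ n^t n^(-3)`. And `t ≤ 48 L n^(1-2/K) + 1`. So
`t + R ℓ + 3 ≤ 48 L n^(1-2/K) + R n^(1/8) + 4 ≤ n^(1-1/(4K)) - 1` for large `n`, since
`48 L n^(-7/(4K)) ≤ 48 L exp (-7 L^(3/4)/16) → 0` and `1 - 1/(4K) ≥ 15/16`. -/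
def StmtNUM2 : Prop :=
  ∃ A N : ℕ, ∀ R n : ℕ, N ≤ n → (A : ℝ) * (R : ℝ) ≤ Real.log (Real.log (n : ℝ)) →
    ∃ m : ℕ, 100 * (R + 1) ^ 2 ≤ m ∧ ∀ j : ℕ, j ≤ 2 * R →
      ∃ t : ℕ, n ^ 2 * (n - (m ^ 4 ^ j) ^ 4) ^ t < n ^ t ∧
        t + R * m ^ 4 ^ j + 3 ≤ ⌊(n : ℝ) ^ (1 - 1 / (4 : ℝ) ^ (2 * R + 2))⌋₊

/-- MAIN2. As `StmtMAIN`, with GAP2 and NUM2. -/
def StmtMAIN2 : Prop :=
  ∃ A N : ℕ, ∀ (V κ : Type) [Fintype V] (G : SimpleGraph V) (c : V → V → κ) (R : ℕ),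
    N ≤ Fintype.card V →
    (A : ℝ) * (R : ℝ) ≤ Real.log (Real.log (Fintype.card V : ℝ)) →
    Coherent c → (Set.range (fun p : V × V => c p.1 p.2)).ncard ≤ R →
    (∀ x y x' y', c x y = c x' y' → (G.Adj x y ↔ G.Adj x' y')) →
    ∃ k : ℕ, (k : ℝ) ≤ (Fintype.card V : ℝ) ^ (1 - 1 / (4 : ℝ) ^ (2 * R + 2)) ∧
      Identifies k G

/-- GRP2. Graphs whose automorphism group has at most `R` orbits on the ordered pairs. -/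
def StmtGRP2 : Prop :=
  ∃ A N : ℕ, ∀ (V : Type) [Fintype V] (G : SimpleGraph V) (R : ℕ),
    N ≤ Fintype.card V →
    (A : ℝ) * (R : ℝ) ≤ Real.log (Real.log (Fintype.card V : ℝ)) →
    (∃ P : Finset (V × V), P.card ≤ R ∧ ∀ x y : V, ∃ g : G ≃g G, (g x, g y) ∈ P) →
    ∃ k : ℕ, (k : ℝ) ≤ (Fintype.card V : ℝ) ^ (1 - 1 / (4 : ℝ) ^ (2 * R + 2)) ∧
      Identifies k G

end Pool.Agent.BRW
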