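import Mathlib
import Pool.Agent.BRW.Defs
import Pool.Agent.BRW.St

set_option autoImplicit false

/-!
# ASM: the axioms `Axs` give an isomorphism (gluing of cell bijections)
-/

namespace Pool.Agent.BRW

namespace ASMaux

variable {V W : Type} {G : SimpleGraph V} {H : SimpleGraph W} {E : V → V → Prop}
  {TT : V → V → W → W → Prop}

/-- The relation to be in one cell on the side of `W`. -/
def E' (E : V → V → Prop) (TT : V → V → W → W → Prop) (x' y' : W) : Prop :=
  ∃ x y, TT x y x' y' ∧ E x y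

theorem e'_iff (A : Axs G H E TT) {x y : V} {x' y' : W} (h : TT x y x' y') :
    E' E TT x' y' ↔ E x y := by
  constructor
  · rintro ⟨a, b, hab, he⟩
    exact (A.cons a b x y x' y' hab h).1 he
  · intro he
    exact ⟨x, y, h, he⟩

theorem fib2 (A : Axs G H E TT) {x y : V} {x' y' : W} (h : TT x y x' y') : TT y y y' y' :=
  A.fib y x y' x' (A.swap x y x' y' h)

theorem e'_equiv (hE : Equivalence E) (A : Axs G H E TT) : Equivalence (E' E TT) := by
  refine ⟨?_, ?_, ?_⟩
  · intro x'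
    obtain ⟨x, y, h⟩ := A.surj x' x'
    have hxy : x = y := (A.adj x y x' x' h).1.2 rfl
    exact ⟨x, y, h, hxy ▸ hE.refl x⟩
  · rintro x' y' ⟨x, y, h, he⟩
    exact ⟨y, x, A.swap x y x' y' h, hE.symm he⟩
  · rintro x' y' z' ⟨x, y, hxy, exy⟩ hyz
    have hyy : TT y y y' y' := fib2 A hxy
    obtain ⟨β, hβ, h1, h2⟩ := A.beta y y' hyy
    obtain ⟨z, hz, rfl⟩ := h2 z' hyz
    obtain ⟨x2, hx2, rfl⟩ := h2 x' ⟨y, x, A.swap x y x' y' hxy, hE.symm exy⟩
    exact ⟨x2, z, h1 x2 z hx2 hz, hE.trans (hE.symm hx2) hz⟩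

/-- The set of all vertices of `W` whose type occurs in the cell of `x`. -/
def inv (E : V → V → Prop) (TT : V → V → W → W → Prop) (x : V) : Set W :=
  {u' | ∃ y, E x y ∧ TT y y u' u'}

/-- The same for a vertex of `W`. -/
def inv' (E : V → V → Prop) (TT : V → V → W → W → Prop) (x' : W) : Set W :=
  {u' | ∃ y', E' E TT x' y' ∧ ∃ a, TT a a y' y' ∧ TT a a u' u'}

theorem inv_eq (hE : Equivalence E) (A : Axs G H E TT) {x : V} {x' : W} (h : TT x x x' x') :
    inv E TT x = inv' E TT x' := by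
  obtain ⟨β, hβ, h1, h2⟩ := A.beta x x' h
  ext u'
  constructor
  · rintro ⟨y, hy, hu⟩
    refine ⟨β y, ⟨x, y, ?_, hy⟩, y, h1 y y hy hy, hu⟩
    have := h1 x y (hE.refl x) hy
    rwa [hβ] at this
  · rintro ⟨y', hy', a, ha, hu⟩
    obtain ⟨y, hy, rfl⟩ := h2 y' hy'
    exact ⟨y, hy, A.zig y y a a (β y) (β y) u' u' (h1 y y hy hy) ha hu⟩

theorem exists_of_inv (A : Axs G H E TT) (hE' : Equivalence (E' E TT)) {x : V} {x' : W}
    (h : inv E TT x = inv' E TT x') : ∃ y, E x y ∧ TT y y x' x' := by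
  have hx : x' ∈ inv' E TT x' := by
    obtain ⟨a, b, hab⟩ := A.surj x' x'
    have haa : TT a a x' x' := A.fib a b x' x' hab
    exact ⟨x', hE'.refl x', a, haa, haa⟩
  rw [← h] at hx
  exact hx

/-- `β` maps the cell of `x` into the cell of `x'`. -/
theorem mem_cell (hE : Equivalence E) {x : V} {x' : W} {β : V → W} (hβ : β x = x')
    (h1 : ∀ y z, E x y → E x z → TT y z (β y) (β z)) {y : V} (hy : E x y) :
    E' E TT x' (β y) := by
  have := h1 x y (hE.refl x) hy
  rw [hβ] at this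
  exact ⟨x, y, this, hy⟩

theorem card_eq (hE : Equivalence E) (A : Axs G H E TT) {x : V} {x' : W}
    (h : TT x x x' x') :
    Nat.card {z : V // E x z} = Nat.card {z : W // E' E TT x' z} := by
  obtain ⟨β, hβ, h1, h2⟩ := A.beta x x' h
  refine Nat.card_congr (Equiv.ofBijective
    (fun z : {z : V // E x z} => (⟨β z.1, mem_cell hE hβ h1 z.2⟩ : {z : W // E' E TT x' z})) ?_)
  constructor
  · rintro ⟨a, ha⟩ ⟨b, hb⟩ hab
    have hab' : β a = β b := congrArg Subtype.val hab
    exact Subtype.ext ((A.adj a b (β a) (β b) (h1 a b ha hb)).1.2 hab')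
  · rintro ⟨z', hz'⟩
    obtain ⟨y, hy, hyz⟩ := h2 z' hz'
    exact ⟨⟨y, hy⟩, Subtype.ext hyz⟩

end ASMaux

open ASMaux in
/-- **ASM.** -/
theorem asm (hCBJ : StmtCBJ) : StmtASM := by
  intro V W _ _ G H E TT hE A
  have hE' := e'_equiv hE A
  let S : Setoid V := ⟨E, hE⟩
  let S' : Setoid W := ⟨E' E TT, hE'⟩
  obtain ⟨f, hf⟩ := A.bij
  obtain ⟨g, hg⟩ := hCBJ V W (Set W) S S' (inv E TT) (inv' E TT) f
    (fun v => (inv_eq hE A (hf v)).symm)
    (fun x y hxy => by
      ext u'
      constructor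
      · rintro ⟨z, hz, hu⟩
        exact ⟨z, hE.trans (hE.symm hxy) hz, hu⟩
      · rintro ⟨z, hz, hu⟩
        exact ⟨z, hE.trans hxy hz, hu⟩)
    (fun x y hxy => by
      ext u'
      constructor
      · rintro ⟨z, hz, hu⟩
        exact ⟨z, hE'.trans (hE'.symm hxy) hz, hu⟩
      · rintro ⟨z, hz, hu⟩
        exact ⟨z, hE'.trans hxy hz, hu⟩)
    (fun x y hxy => by
      obtain ⟨x1, hx1, ht⟩ := exists_of_inv A hE' hxy
      refine Eq.trans ?_ (card_eq hE A ht)
      refine Nat.card_congr (Equiv.subtypeEquivRight fun z => ?_)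
      exact ⟨fun h => hE.trans (hE.symm hx1) h, fun h => hE.trans hx1 h⟩)
  -- choice of the cell bijections
  have hch : ∀ C : Quotient S, ∃ β : V → W, ∃ y : V, Quotient.mk S y = C ∧
      Quotient.mk S' (β y) = g C ∧
      ∀ a b, E y a → E y b → TT a b (β a) (β b) := by
    intro C
    induction C using Quotient.inductionOn with
    | h x =>
      obtain ⟨x', hx'⟩ := Quotient.exists_rep (g (Quotient.mk S x))
      have hi := hg x x' hx'.symm
      obtain ⟨y, hy, ht⟩ := exists_of_inv A hE' hi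
      obtain ⟨β, hβ, h1, -⟩ := A.beta y x' ht
      refine ⟨β, y, ?_, ?_, h1⟩
      · exact Quotient.sound (hE.symm hy)
      · rw [hβ]; exact hx'
  choose β y hy hβy hβ using hch
  let φ : V → W := fun x => β (Quotient.mk S x) x
  have hmem : ∀ x : V, E (y (Quotient.mk S x)) x := fun x => Quotient.exact (hy (Quotient.mk S x))
  have hφmk : ∀ x : V, Quotient.mk S' (φ x) = g (Quotient.mk S x) := by
    intro x
    rw [← hβy (Quotient.mk S x)]
    refine Quotient.sound ?_
    refine hE'.symm ?_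
    exact ⟨_, _, hβ (Quotient.mk S x) _ _ (hE.refl _) (hmem x), hmem x⟩
  have hsame : ∀ a b : V, E a b → TT a b (φ a) (φ b) := by
    intro a b hab
    have hq : Quotient.mk S a = Quotient.mk S b := Quotient.sound hab
    have hb : E (y (Quotient.mk S a)) b := hE.trans (hmem a) hab
    have h1 := hβ (Quotient.mk S a) a b (hmem a) hb
    have h2 : φ b = β (Quotient.mk S a) b := by
      show β (Quotient.mk S b) b = β (Quotient.mk S a) b
      rw [hq]
    rw [h2]
    exact h1
  have hEE : ∀ a b : V, E' E TT (φ a) (φ b) → E a b := by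
    intro a b hab
    have h1 : Quotient.mk S' (φ a) = Quotient.mk S' (φ b) := Quotient.sound hab
    rw [hφmk, hφmk] at h1
    exact Quotient.exact (g.injective h1)
  have hinj : Function.Injective φ := by
    intro a b hab
    have he : E a b := hEE a b (hab ▸ hE'.refl (φ a))
    exact (A.adj a b (φ a) (φ b) (hsame a b he)).1.2 hab
  have hbij : Function.Bijective φ := by
    refine ⟨hinj, ?_⟩
    have h1 : Function.Injective (f.symm ∘ φ) := f.symm.injective.comp hinj
    have h2 : Function.Surjective (f.symm ∘ φ) := Finite.surjective_of_injective h1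
    intro w
    obtain ⟨v, hv⟩ := h2 (f.symm w)
    exact ⟨v, f.symm.injective hv⟩
  refine ⟨⟨Equiv.ofBijective φ hbij, ?_⟩⟩
  intro a b
  show H.Adj (φ a) (φ b) ↔ G.Adj a b
  by_cases hab : E a b
  · exact (A.adj a b (φ a) (φ b) (hsame a b hab)).2.symm
  · obtain ⟨a1, b1, h1⟩ := A.surj (φ a) (φ b)
    have hn : ¬ E a1 b1 := by
      intro h
      exact hab (hEE a b ⟨a1, b1, h1, h⟩)
    have h2 := A.cross a b a1 b1 (φ a) (φ b) (hsame a a (hE.refl a)) (A.fib _ _ _ _ h1)
      (hsame b b (hE.refl b)) (fib2 A h1) hab hn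
    exact ((A.adj a1 b1 (φ a) (φ b) h1).2.symm).trans h2.symm

end Pool.Agent.BRW
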