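import Pool.Agent.BRW.St

/-!
# Fisher's inequality
-/

set_option autoImplicit false

namespace Pool.Agent.BRW

open Classical in
/-- The characteristic vector. -/
noncomputable def FIS.chi {ι D : Type} (A : ι → Set D) (i : ι) (d : D) : ℝ :=
  if d ∈ A i then 1 else 0

theorem FIS.dot {ι D : Type} [Fintype D] (A : ι → Set D) (i j : ι) :
    ∑ d, FIS.chi A i d * FIS.chi A j d = ((A i ∩ A j).ncard : ℝ) := by
  classical
  have h1 : ∀ d, FIS.chi A i d * FIS.chi A j d = if d ∈ A i ∩ A j then (1 : ℝ) else 0 := by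
    intro d
    unfold FIS.chi
    by_cases h1 : d ∈ A i <;> by_cases h2 : d ∈ A j <;> simp [h1, h2]
  simp only [h1]
  rw [Finset.sum_boole, Set.ncard_eq_toFinset_card']
  congr 2
  ext d
  simp

/-- **Fisher's inequality.** -/
theorem fis : StmtFIS := by
  classical
  intro ι D _ _ A n lam hlt hA hAA
  have := Fintype.ofFinite ι
  have := Fintype.ofFinite D
  have hli : LinearIndependent ℝ (FIS.chi A) := by
    rw [Fintype.linearIndependent_iff]
    intro a ha
    have hz : ∀ d, ∑ i, a i * FIS.chi A i d = 0 := by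
      intro d
      have h := congrFun ha d
      simpa [Finset.sum_apply] using h
    have h0 : ∑ d, (∑ i, a i * FIS.chi A i d) * (∑ j, a j * FIS.chi A j d) = 0 := by
      simp [hz]
    have h1 : ∑ d, (∑ i, a i * FIS.chi A i d) * (∑ j, a j * FIS.chi A j d) =
        ∑ i, ∑ j, a i * a j * ((A i ∩ A j).ncard : ℝ) := by
      simp only [Finset.sum_mul_sum]
      rw [Finset.sum_comm]
      refine Finset.sum_congr rfl fun i _ => ?_
      rw [Finset.sum_comm]
      refine Finset.sum_congr rfl fun j _ => ?_
      rw [← FIS.dot, Finset.mul_sum]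
      refine Finset.sum_congr rfl fun d _ => ?_
      ring
    have h2 : ∀ i j, a i * a j * ((A i ∩ A j).ncard : ℝ) =
        lam * (a i * a j) + if i = j then ((n : ℝ) - lam) * (a i * a j) else 0 := by
      intro i j
      by_cases hij : i = j
      · subst hij
        rw [Set.inter_self, hA, if_pos rfl]
        ring
      · rw [hAA i j hij, if_neg hij]
        ring
    have h3 : ∑ i, ∑ j, a i * a j * ((A i ∩ A j).ncard : ℝ) =
        lam * (∑ i, a i) ^ 2 + ((n : ℝ) - lam) * ∑ i, a i ^ 2 := by
      simp only [h2, Finset.sum_add_distrib, Finset.sum_ite_eq, Finset.mem_univ, if_true]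
      congr 1
      · rw [sq, Finset.sum_mul_sum, Finset.mul_sum]
        refine Finset.sum_congr rfl fun i _ => ?_
        rw [Finset.mul_sum]
      · rw [Finset.mul_sum]
        refine Finset.sum_congr rfl fun i _ => ?_
        ring
    have h4 : lam * (∑ i, a i) ^ 2 + ((n : ℝ) - lam) * ∑ i, a i ^ 2 = 0 := by
      rw [← h3, ← h1, h0]
    have hpos : (0 : ℝ) < (n : ℝ) - lam := by
      have : (lam : ℝ) < n := by exact_mod_cast hlt
      linarith
    have h5 : 0 ≤ ∑ i, a i ^ 2 := Finset.sum_nonneg fun i _ => sq_nonneg _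
    have h6 : (0 : ℝ) ≤ lam * (∑ i, a i) ^ 2 := by positivity
    have h7 : ∑ i, a i ^ 2 = 0 := by nlinarith
    intro i
    have h8 := (Finset.sum_eq_zero_iff_of_nonneg fun i _ => sq_nonneg (a i)).1 h7 i
      (Finset.mem_univ i)
    exact pow_eq_zero_iff (two_ne_zero) |>.1 h8
  have h := hli.fintype_card_le_finrank
  rw [Module.finrank_fintype_fun_eq_card] at h
  rwa [Nat.card_eq_fintype_card, Nat.card_eq_fintype_card]

end Pool.Agent.BRW
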