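import Pool.Agent.BRW.St

set_option autoImplicit false

/-!
# BRW, module BET (helper3): pebbling a cell
-/

namespace Pool.Agent.BRW

theorem bet (hSIM : StmtSIM) (hPEB : StmtPEB) : StmtBET := by
  classical
  intro V W _ k t L G H s s' x x' C hk hC hx hS
  obtain ⟨hgood, -, -, -, hre⟩ := hSIM
  have e : C ≃ Fin (Nat.card C) := Finite.equivFin C
  have hm : Nat.card C ≤ L := by rw [Nat.card_coe_set_eq]; exact hC
  let pos : C → Fin k := fun y => ⟨t + 1 + (e y : ℕ), by have := (e y).2; omega⟩
  have hpv : ∀ y, (pos y : ℕ) = t + 1 + (e y : ℕ) := fun y => rfl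
  have hinj : Function.Injective pos := by
    intro y z hyz
    apply e.injective
    apply Fin.ext
    have h1 := congrArg Fin.val hyz
    rw [hpv, hpv] at h1
    omega
  let I : Finset (Fin k) := Finset.univ.filter (fun i => ∃ y : C, pos y = i)
  have hI : ∀ i, i ∈ I ↔ ∃ y : C, pos y = i := fun i => by simp [I]
  let v : Fin k → V := fun i => if h : ∃ y : C, pos y = i then (h.choose : V) else x
  have hv : ∀ y : C, v (pos y) = y := by
    intro y
    have h : ∃ z : C, pos z = pos y := ⟨y, rfl⟩
    have h1 : h.choose = y := hinj h.choose_spec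
    show (if h : ∃ z : C, pos z = pos y then (h.choose : V) else x) = y
    rw [dif_pos h, h1]
  obtain ⟨v', hv'⟩ := hPEB V W k G H _ _ hS I v
  have hposI : ∀ y : C, pos y ∈ I := fun y => (hI _).2 ⟨y, rfl⟩
  have hlow : ∀ i : Fin k, i.1 ≤ t → i ∉ I := by
    intro i hi h
    obtain ⟨y, hy⟩ := (hI i).1 h
    have h1 := congrArg Fin.val hy
    rw [hpv] at h1
    omega
  set a₁ : Fin k → V := fun i => if i ∈ I then v i else tup k t s x x i with ha₁
  set b₁ : Fin k → W := fun i => if i ∈ I then v' i else tup k t s' x' x' i with hb₁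
  have ha_pos : ∀ y : C, a₁ (pos y) = y := by
    intro y
    show (if pos y ∈ I then v (pos y) else tup k t s x x (pos y)) = y
    rw [if_pos (hposI y), hv]
  have hb_pos : ∀ y : C, b₁ (pos y) = v' (pos y) := by
    intro y
    show (if pos y ∈ I then v' (pos y) else tup k t s' x' x' (pos y)) = _
    rw [if_pos (hposI y)]
  have ha_low : ∀ i : Fin k, i.1 ≤ t → a₁ i = tup k t s x x i := fun i hi => if_neg (hlow i hi)
  have hb_low : ∀ i : Fin k, i.1 ≤ t → b₁ i = tup k t s' x' x' i := fun i hi => if_neg (hlow i hi)
  let it : Fin k := ⟨t, by omega⟩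
  have hat : a₁ it = x := by
    rw [ha_low it le_rfl]
    simp [tup, it]
  have hbt : b₁ it = x' := by
    rw [hb_low it le_rfl]
    simp [tup, it]
  have heq := (hgood V W k G H).1
  let β : V → W := fun y => if h : y ∈ C then v' (pos ⟨y, h⟩) else x'
  have hβ : ∀ (y : V) (h : y ∈ C), β y = b₁ (pos ⟨y, h⟩) := by
    intro y h
    rw [hb_pos]
    show (if h : y ∈ C then v' (pos ⟨y, h⟩) else x') = _
    rw [dif_pos h]
  refine ⟨β, ?_, ?_, ?_⟩
  · rw [hβ x hx, ← hbt]
    refine ((heq a₁ b₁ hv' _ _).1).1 ?_
    rw [ha_pos, hat]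
  · intro y z hy hz
    let σ : Fin k → Fin k := fun i =>
      if i.1 < t then i else if i.1 = t then pos ⟨y, hy⟩ else pos ⟨z, hz⟩
    have h1 := hre V W k G H a₁ b₁ σ hv'
    have h2 : (fun i => a₁ (σ i)) = tup k t s y z := by
      funext i
      by_cases hi : i.1 < t
      · have hσ : σ i = i := if_pos hi
        rw [hσ, ha_low i hi.le]
        simp [tup, hi]
      · by_cases hi' : i.1 = t
        · have hσ : σ i = pos ⟨y, hy⟩ := by
            show (if i.1 < t then i else if i.1 = t then pos ⟨y, hy⟩ else pos ⟨z, hz⟩) = _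
            rw [if_neg hi, if_pos hi']
          rw [hσ, ha_pos]
          simp [tup, hi']
        · have hσ : σ i = pos ⟨z, hz⟩ := by
            show (if i.1 < t then i else if i.1 = t then pos ⟨y, hy⟩ else pos ⟨z, hz⟩) = _
            rw [if_neg hi, if_neg hi']
          rw [hσ, ha_pos]
          simp [tup, hi, hi']
    have h3 : (fun i => b₁ (σ i)) = tup k t s' (β y) (β z) := by
      funext i
      by_cases hi : i.1 < t
      · have hσ : σ i = i := if_pos hi
        rw [hσ, hb_low i hi.le]
        simp [tup, hi]
      · by_cases hi' : i.1 = t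
        · have hσ : σ i = pos ⟨y, hy⟩ := by
            show (if i.1 < t then i else if i.1 = t then pos ⟨y, hy⟩ else pos ⟨z, hz⟩) = _
            rw [if_neg hi, if_pos hi']
          rw [hσ, ← hβ y hy]
          simp [tup, hi']
        · have hσ : σ i = pos ⟨z, hz⟩ := by
            show (if i.1 < t then i else if i.1 = t then pos ⟨y, hy⟩ else pos ⟨z, hz⟩) = _
            rw [if_neg hi, if_neg hi']
          rw [hσ, ← hβ z hz]
          simp [tup, hi, hi']
    rw [h2, h3] at h1
    exact h1
  · intro y'
    let j0 : Fin k := ⟨t + 1 + Nat.card C, by omega⟩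
    have hj0 : ∀ y : C, pos y ≠ j0 := by
      intro y h
      have h1 := congrArg Fin.val h
      rw [hpv] at h1
      have h2 := (e y).2
      have h3 : t + 1 + (e y : ℕ) = t + 1 + Nat.card C := h1
      omega
    obtain ⟨f, hf⟩ := (hgood V W k G H).2 a₁ b₁ hv' j0
    have h1 := hf (f.symm y')
    rw [Equiv.apply_symm_apply] at h1
    refine ⟨f.symm y', ?_, ?_⟩
    · let σ : Fin k → Fin k := fun i => if i.1 ≤ t then i else j0
      have h2 := hre V W k G H _ _ σ h1
      have hne : ∀ i : Fin k, i.1 ≤ t → i ≠ j0 := by
        intro i hi h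
        have h3 := congrArg Fin.val h
        have h4 : i.1 = t + 1 + Nat.card C := h3
        omega
      have h3 : (fun i => Function.update a₁ j0 (f.symm y') (σ i)) =
          tup k t s x (f.symm y') := by
        funext i
        by_cases hi : i.1 ≤ t
        · have hσ : σ i = i := if_pos hi
          rw [hσ, Function.update_of_ne (hne i hi), ha_low i hi]
          by_cases hi2 : i.1 < t
          · simp [tup, hi2]
          · have hi3 : i.1 = t := by omega
            simp [tup, hi3]
        · have hσ : σ i = j0 := if_neg hi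
          rw [hσ, Function.update_self]
          have hi2 : ¬ i.1 < t := by omega
          have hi3 : ¬ i.1 = t := by omega
          simp [tup, hi2, hi3]
      have h4 : (fun i => Function.update b₁ j0 y' (σ i)) = tup k t s' x' y' := by
        funext i
        by_cases hi : i.1 ≤ t
        · have hσ : σ i = i := if_pos hi
          rw [hσ, Function.update_of_ne (hne i hi), hb_low i hi]
          by_cases hi2 : i.1 < t
          · simp [tup, hi2]
          · have hi3 : i.1 = t := by omega
            simp [tup, hi3]
        · have hσ : σ i = j0 := if_neg hi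
          rw [hσ, Function.update_self]
          have hi2 : ¬ i.1 < t := by omega
          have hi3 : ¬ i.1 = t := by omega
          simp [tup, hi2, hi3]
      rw [h3, h4] at h2
      exact h2
    · intro hy
      have h2 := ((heq _ _ h1 (pos ⟨f.symm y', hy⟩) j0).1).1
      rw [Function.update_of_ne (hj0 _), Function.update_self, Function.update_of_ne (hj0 _),
        Function.update_self, ha_pos] at h2
      rw [hβ _ hy]
      exact h2 rfl

end Pool.Agent.BRW
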