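import Mathlib
import Pool.Agent.BRW.St

set_option autoImplicit false

/-!
# Module CBJ: a bijection of the sets of cells
-/

namespace Pool.Agent.BRW

namespace Cbj

/-- If every cell with invariant `i` has `s` elements, the number of vertices with invariant `i`
is `s` times the number of these cells. -/
theorem count {V ι : Type} [Finite V] (S : Setoid V) (inv : V → ι)
    (h : ∀ x y : V, S.r x y → inv x = inv y) (i : ι) (s : ℕ)
    (hs : ∀ x : V, inv x = i → Nat.card {z : V // S.r x z} = s) :
    Nat.card {v : V // inv v = i} =
      Nat.card {c : Quotient S // Quotient.lift inv h c = i} * s := by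
  classical
  let e : {v : V // inv v = i} ≃
      (Σ c : {c : Quotient S // Quotient.lift inv h c = i}, {v : V // Quotient.mk S v = c.1}) :=
    { toFun := fun v => ⟨⟨Quotient.mk S v.1, v.2⟩, ⟨v.1, rfl⟩⟩
      invFun := fun p => ⟨p.2.1, by
        have h1 := p.1.2
        rw [← p.2.2] at h1
        exact h1⟩
      left_inv := fun v => rfl
      right_inv := by
        rintro ⟨⟨c, hc⟩, ⟨v, hv⟩⟩
        have hv' : Quotient.mk S v = c := hv
        cases hv'
        rfl }
  let _ : Fintype {c : Quotient S // Quotient.lift inv h c = i} := Fintype.ofFinite _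
  rw [Nat.card_congr e, Nat.card_sigma]
  have h2 : ∀ c : {c : Quotient S // Quotient.lift inv h c = i},
      Nat.card {v : V // Quotient.mk S v = c.1} = s := by
    rintro ⟨c, hc⟩
    induction c using Quotient.inductionOn with
    | h x =>
      rw [← hs x hc]
      refine Nat.card_congr (Equiv.subtypeEquivRight (fun z => ?_))
      constructor
      · intro hz
        exact S.iseqv.symm (Quotient.exact hz)
      · intro hz
        exact Quotient.sound (S.iseqv.symm hz)
  rw [Finset.sum_congr rfl (fun c _ => h2 c), Finset.sum_const, Finset.card_univ, smul_eq_mul,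
    Nat.card_eq_fintype_card]

/-- The numbers of cells with invariant `i` agree. -/
theorem fib {V W ι : Type} [Finite V] [Finite W] (S : Setoid V) (S' : Setoid W) (inv : V → ι)
    (inv' : W → ι) (f : V ≃ W) (hf : ∀ v, inv' (f v) = inv v)
    (h : ∀ x y : V, S.r x y → inv x = inv y) (h' : ∀ x y : W, S'.r x y → inv' x = inv' y)
    (hc : ∀ (x : V) (y : W), inv x = inv' y →
      Nat.card {z : V // S.r x z} = Nat.card {z : W // S'.r y z}) (i : ι) :
    Nat.card {c : Quotient S // Quotient.lift inv h c = i} =
      Nat.card {c : Quotient S' // Quotient.lift inv' h' c = i} := by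
  by_cases hx : ∃ x : V, inv x = i
  · obtain ⟨x, hx⟩ := hx
    have h1 : ∀ y : W, inv' y = i → Nat.card {z : W // S'.r y z} = Nat.card {z : V // S.r x z} :=
      fun y hy => (hc x y (hx.trans hy.symm)).symm
    have h0 : ∀ x' : V, inv x' = i → Nat.card {z : V // S.r x' z} = Nat.card {z : V // S.r x z} := by
      intro x' hx'
      rw [hc x' (f x) (by rw [hf, hx, hx']), hc x (f x) (by rw [hf])]
    have h2 := count S inv h i _ h0
    have h3 := count S' inv' h' i _ h1
    have h4 : Nat.card {v : V // inv v = i} = Nat.card {v : W // inv' v = i} := by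
      refine Nat.card_congr (f.subtypeEquiv (fun v => ?_))
      rw [hf]
    have h5 : 0 < Nat.card {z : V // S.r x z} := by
      have : Nonempty {z : V // S.r x z} := ⟨⟨x, S.iseqv.refl x⟩⟩
      exact Nat.card_pos
    rw [h2, h3] at h4
    exact Nat.eq_of_mul_eq_mul_right h5 h4
  · have e1 : IsEmpty {c : Quotient S // Quotient.lift inv h c = i} := by
      constructor
      rintro ⟨c, hcc⟩
      induction c using Quotient.inductionOn with
      | h x => exact hx ⟨x, hcc⟩
    have e2 : IsEmpty {c : Quotient S' // Quotient.lift inv' h' c = i} := by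
      constructor
      rintro ⟨c, hcc⟩
      induction c using Quotient.inductionOn with
      | h y =>
        refine hx ⟨f.symm y, ?_⟩
        rw [← hf, f.apply_symm_apply]
        exact hcc
    rw [Nat.card_of_isEmpty, Nat.card_of_isEmpty]

end Cbj

/-- CBJ: the sets of cells are in a bijection that preserves the invariants. -/
theorem cbj : StmtCBJ := by
  classical
  intro V W ι _ _ S S' inv inv' f hf h h' hc
  have h1 : ∀ i : ι, Nonempty ({c : Quotient S // Quotient.lift inv h c = i} ≃
      {c : Quotient S' // Quotient.lift inv' h' c = i}) := fun i =>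
    Finite.card_eq.1 (Cbj.fib S S' inv inv' f hf h h' hc i)
  let E : ∀ i : ι, {c : Quotient S // Quotient.lift inv h c = i} ≃
      {c : Quotient S' // Quotient.lift inv' h' c = i} := fun i => (h1 i).some
  let g : Quotient S ≃ Quotient S' :=
    (Equiv.sigmaFiberEquiv (Quotient.lift inv h)).symm.trans
      ((Equiv.sigmaCongrRight E).trans (Equiv.sigmaFiberEquiv (Quotient.lift inv' h')))
  have hg : ∀ c : Quotient S, Quotient.lift inv' h' (g c) = Quotient.lift inv h c := by
    intro c
    exact (E (Quotient.lift inv h c) ⟨c, rfl⟩).2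
  refine ⟨g, fun x y hxy => ?_⟩
  have h3 := hg (Quotient.mk S x)
  rw [hxy] at h3
  exact h3.symm

end Pool.Agent.BRW
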