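import Mathlib
import Pool.Agent.BRW.St

set_option autoImplicit false

namespace Pool.Agent.BRW

theorem cel (hEXT : StmtEXT) (hASM : StmtASM) : StmtCEL := by
  intro V _ k t L G s E hk hE hL hinv hcross W _ _ H ⟨R, h1, h2, f, hf⟩
  rcases isEmpty_or_nonempty V with hV | hV
  · exact ⟨⟨f, fun {a} => (hV.false a).elim⟩⟩
  · obtain ⟨TT, hTT⟩ := hEXT V W k t L G H s E hk hE hL hinv hcross ⟨R, ⟨h1, h2⟩, f, hf⟩
    exact hASM V W G H E TT hE hTT

end Pool.Agent.BRW
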