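import Pool.Agent.BRW.St

set_option autoImplicit false

/-!
# Module CLA: the blocks of a bad pair of large valency
-/

namespace Pool.Agent.BRW

namespace ClaX

theorem nc {V : Type} (P : V → Prop) : Nat.card {w : V // P w} = Set.ncard {w | P w} := rfl

section

variable {V κ : Type} [Finite V] {c : V → V → κ} {ℓ : ℕ} {x₀ y₀ : V}

/-- the neighbours of `x` in the class of `(x₀, y₀)` -/
def Rs (c : V → V → κ) (x₀ y₀ x : V) : Set V := {w | c x w = c x₀ y₀}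

theorem Rs_card (hVAL : StmtVAL) (hc : Coherent c) (x : V) (hx : c x x = c x₀ x₀) :
    (Rs c x₀ y₀ x).ncard = val c x₀ y₀ :=
  (hVAL V κ c hc).2.2.1 x₀ y₀ x hx

theorem diff_le (hc : Coherent c) (x y : V) (hd : dd c x y ≤ ℓ) :
    (Rs c x₀ y₀ x \ Rs c x₀ y₀ y).ncard ≤ ℓ := by
  refine le_trans ?_ hd
  unfold dd
  rw [nc]
  refine Set.ncard_le_ncard ?_ (Set.toFinite _)
  intro w hw
  obtain ⟨h1, h2⟩ := hw
  intro h3
  apply h2
  have h4 := hc.symm w x w y h3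
  show c y w = c x₀ y₀
  rw [← h4]
  exact h1

theorem inter_ge (hVAL : StmtVAL) (hc : Coherent c) (x y : V) (hx : c x x = c x₀ x₀)
    (hd : dd c x y ≤ ℓ) :
    val c x₀ y₀ ≤ (Rs c x₀ y₀ x ∩ Rs c x₀ y₀ y).ncard + ℓ := by
  have h1 := Set.ncard_inter_add_ncard_sdiff_eq_ncard (Rs c x₀ y₀ x) (Rs c x₀ y₀ y)
    (Set.toFinite _)
  have h2 := diff_le (x₀ := x₀) (y₀ := y₀) hc x y hd
  have h3 := Rs_card (y₀ := y₀) hVAL hc x hx
  omega

theorem three {A B C : Set V} {N a b : ℕ} (hC : C.ncard = N) (hA : N ≤ (A ∩ C).ncard + a)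
    (hB : N ≤ (B ∩ C).ncard + b) : N ≤ (A ∩ B).ncard + (a + b) := by
  have h1 : ((A ∩ C) ∪ (B ∩ C)).ncard ≤ C.ncard :=
    Set.ncard_le_ncard (by intro w hw; rcases hw with hw | hw <;> exact hw.2) (Set.toFinite _)
  have h2 := Set.ncard_union_add_ncard_inter (A ∩ C) (B ∩ C) (Set.toFinite _) (Set.toFinite _)
  have h3 : ((A ∩ C) ∩ (B ∩ C)).ncard ≤ (A ∩ B).ncard :=
    Set.ncard_le_ncard (by intro w hw; exact ⟨hw.1.1, hw.2.1⟩) (Set.toFinite _)
  omega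

/-- counting pairs of an asymmetric relation -/
theorem asym_count (A : Finset V) (r : V → V → Prop) (ha : ∀ z w, r z w → r w z → False)
    (N ℓ : ℕ) (hA : A.card = N) (h : ∀ z ∈ A, N ≤ {w | w ∈ A ∧ r z w}.ncard + ℓ) :
    N ≤ 2 * ℓ := by
  classical
  have : Fintype V := Fintype.ofFinite V
  set P : Finset (V × V) := (A ×ˢ A).filter fun p => r p.1 p.2 with hP
  set Q : Finset (V × V) := (A ×ˢ A).filter fun p => r p.2 p.1 with hQ
  have hPQ : P.card = Q.card := by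
    refine Finset.card_bij (fun p _ => (p.2, p.1)) ?_ ?_ ?_
    · intro p hp
      rw [hP, Finset.mem_filter, Finset.mem_product] at hp
      rw [hQ, Finset.mem_filter, Finset.mem_product]
      exact ⟨⟨hp.1.2, hp.1.1⟩, hp.2⟩
    · intro p _ q _ hpq
      rw [Prod.mk.injEq] at hpq
      exact Prod.ext hpq.2 hpq.1
    · intro p hp
      rw [hQ, Finset.mem_filter, Finset.mem_product] at hp
      refine ⟨(p.2, p.1), ?_, rfl⟩
      rw [hP, Finset.mem_filter, Finset.mem_product]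
      exact ⟨⟨hp.1.2, hp.1.1⟩, hp.2⟩
  have hdis : Disjoint P Q := by
    rw [Finset.disjoint_left]
    intro p hp hq
    rw [hP, Finset.mem_filter] at hp
    rw [hQ, Finset.mem_filter] at hq
    exact ha _ _ hp.2 hq.2
  have hsum : P.card + Q.card ≤ N * N := by
    rw [← Finset.card_union_of_disjoint hdis, ← hA, ← Finset.card_product]
    exact Finset.card_le_card (Finset.union_subset (Finset.filter_subset _ _)
      (Finset.filter_subset _ _))
  have hPge : N * N ≤ P.card + N * ℓ := by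
    have h1 : P.card = ∑ z ∈ A, (A.filter fun w => r z w).card := by
      rw [hP, Finset.card_filter, Finset.sum_product]
      refine Finset.sum_congr rfl fun z _ => ?_
      rw [Finset.card_filter]
    have h2 : ∑ z ∈ A, N ≤ ∑ z ∈ A, ((A.filter fun w => r z w).card + ℓ) := by
      refine Finset.sum_le_sum fun z hz => ?_
      have h3 := h z hz
      have h4 : {w | w ∈ A ∧ r z w}.ncard = (A.filter fun w => r z w).card := by
        rw [← Set.ncard_coe_finset]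
        congr 1
        ext w
        simp
      rw [h4] at h3
      exact h3
    rw [Finset.sum_const, Finset.sum_add_distrib, Finset.sum_const, ← h1, hA] at h2
    simpa using h2
  rcases Nat.eq_zero_or_pos N with h0 | h0
  · omega
  · have h5 : N * N ≤ N * (2 * ℓ) := by nlinarith
    exact Nat.le_of_mul_le_mul_left h5 h0

theorem sym0 (hVAL : StmtVAL) (hc : Coherent c) (hl : 100 ≤ ℓ) (hLB : LB c ℓ x₀ y₀) :
    c y₀ x₀ = c x₀ y₀ := by
  classical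
  by_contra hne
  have : Fintype V := Fintype.ofFinite V
  obtain ⟨⟨hxy, hfib, hdd⟩, hN⟩ := hLB
  have h4 : 2 * ℓ < ℓ ^ 4 := by
    have : ℓ ^ 4 = ℓ * ℓ * ℓ * ℓ := by ring
    rw [this]
    nlinarith [Nat.mul_le_mul (Nat.mul_le_mul hl hl) hl, Nat.zero_le ℓ]
  have hcard := Rs_card (x₀ := x₀) (y₀ := y₀) hVAL hc x₀ rfl
  have key := asym_count (V := V) ((Rs c x₀ y₀ x₀).toFinset) (fun z w => c z w = c x₀ y₀)
    (by
      intro z w h1 h2
      have h3 := hc.symm z w x₀ y₀ h1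
      exact hne (h3.symm.trans h2))
    (val c x₀ y₀) ℓ
    (by rw [← hcard, Set.ncard_eq_toFinset_card'])
    (by
      intro z hz
      rw [Set.mem_toFinset] at hz
      have hz' : c x₀ z = c x₀ y₀ := hz
      have hd : dd c x₀ z ≤ ℓ := by
        rw [((hVAL V κ c hc).2.1 x₀ z x₀ y₀ hz').2]
        exact hdd
      have h5 := inter_ge (x₀ := x₀) (y₀ := y₀) hVAL hc x₀ z rfl hd
      refine le_trans h5 ?_
      have h6 : (Rs c x₀ y₀ x₀ ∩ Rs c x₀ y₀ z) =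
          {w | w ∈ (Rs c x₀ y₀ x₀).toFinset ∧ c z w = c x₀ y₀} := by
        ext w
        exact ⟨fun hw => ⟨Set.mem_toFinset.mpr hw.1, hw.2⟩,
          fun hw => ⟨Set.mem_toFinset.mp hw.1, hw.2⟩⟩
      rw [h6])
  omega

theorem main (hCNT : StmtCNT) (hVAL : StmtVAL) (hc : Coherent c) (hl : 100 ≤ ℓ)
    (hLB : LB c ℓ x₀ y₀) :
    (∀ x y, c x y = c x₀ y₀ → c y x = c x₀ y₀ ∧ c x x = c x₀ x₀ ∧ EE c x₀ y₀ x y) ∧
    (∀ x, c x x = c x₀ x₀ → EE c x₀ y₀ x x) ∧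
    (∀ x y, EE c x₀ y₀ x y → EE c x₀ y₀ y x ∧ c x x = c x₀ x₀) ∧
    (∀ x y z, EE c x₀ y₀ x y → EE c x₀ y₀ y z → EE c x₀ y₀ x z) ∧
    (∀ x y x' y', c x y = c x' y' → EE c x₀ y₀ x y → EE c x₀ y₀ x' y') ∧
    (∀ x y, c x x = c x₀ x₀ → Bad c ℓ x y → EE c x₀ y₀ x y) ∧
    (∀ x y, EE c x₀ y₀ x y →
      val c x₀ y₀ ≤ Nat.card {w : V // c x w = c x₀ y₀ ∧ c y w = c x₀ y₀} + 2 * ℓ) := by
  have hs0 := sym0 hVAL hc hl hLB
  obtain ⟨⟨hxy, hfib, hdd⟩, hN⟩ := hLB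
  have h4 : 4 * ℓ < ℓ ^ 4 := by
    have : ℓ ^ 4 = ℓ * ℓ * ℓ * ℓ := by ring
    rw [this]
    nlinarith [Nat.mul_le_mul (Nat.mul_le_mul hl hl) hl, Nat.zero_le ℓ]
  have hsym : ∀ x y, c x y = c x₀ y₀ → c y x = c x₀ y₀ := by
    intro x y h
    rw [hc.symm x y x₀ y₀ h, hs0]
  have hfx : ∀ x y, c x y = c x₀ y₀ → c x x = c x₀ x₀ := fun x y h =>
    ((hVAL V κ c hc).1 x y x₀ y₀ h).1
  have hd : ∀ x y, c x y = c x₀ y₀ → dd c x y ≤ ℓ := by
    intro x y h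
    rw [((hVAL V κ c hc).2.1 x y x₀ y₀ h).2]
    exact hdd
  have hpos : ∀ x y : V, ∀ a : ℕ, a ≤ 4 * ℓ →
      val c x₀ y₀ ≤ (Rs c x₀ y₀ x ∩ Rs c x₀ y₀ y).ncard + a → EE c x₀ y₀ x y := by
    intro x y a ha h
    have h5 : 0 < (Rs c x₀ y₀ x ∩ Rs c x₀ y₀ y).ncard := by omega
    rw [Set.ncard_pos (Set.toFinite _)] at h5
    obtain ⟨z, hz1, hz2⟩ := h5
    exact ⟨z, hz1, hz2⟩
  have h7 : ∀ x y, EE c x₀ y₀ x y →
      val c x₀ y₀ ≤ (Rs c x₀ y₀ x ∩ Rs c x₀ y₀ y).ncard + 2 * ℓ := by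
    rintro x y ⟨z, hz1, hz2⟩
    have hz : c z z = c x₀ x₀ := hfx z x (hsym x z hz1)
    have h8 := inter_ge (x₀ := x₀) (y₀ := y₀) hVAL hc x z (hfx x z hz1) (hd x z hz1)
    have h9 := inter_ge (x₀ := x₀) (y₀ := y₀) hVAL hc y z (hfx y z hz2) (hd y z hz2)
    have h10 := three (Rs_card (y₀ := y₀) hVAL hc z hz) h8 h9
    omega
  refine ⟨?_, ?_, ?_, ?_, ?_, ?_, ?_⟩
  · intro x y h
    refine ⟨hsym x y h, hfx x y h, hpos x y ℓ (by omega) ?_⟩
    exact inter_ge hVAL hc x y (hfx x y h) (hd x y h)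
  · intro x hx
    refine hpos x x 0 (by omega) ?_
    rw [Set.inter_self, Rs_card hVAL hc x hx]
    omega
  · rintro x y ⟨z, hz1, hz2⟩
    exact ⟨⟨z, hz2, hz1⟩, hfx x z hz1⟩
  · intro x y z h1 h2
    have hy : c y y = c x₀ x₀ := by
      obtain ⟨w, hw1, hw2⟩ := h1
      exact hfx y w hw2
    have h8 := h7 x y h1
    have h9 := h7 y z h2
    rw [Set.inter_comm] at h9
    have h10 := three (Rs_card (y₀ := y₀) hVAL hc y hy) h8 h9
    exact hpos x z _ (by omega) h10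
  · rintro x y x' y' h ⟨z, hz1, hz2⟩
    obtain ⟨e, he⟩ := hCNT V κ c hc x y x' y' h
    refine ⟨e z, ?_, ?_⟩
    · rw [(he z).1, hz1]
    · rw [hc.symm (e z) y' z y (he z).2, hz2]
  · intro x y hx hb
    exact hpos x y ℓ (by omega) (inter_ge hVAL hc x y hx hb.2.2)
  · exact h7

end

end ClaX

theorem cla (hCNT : StmtCNT) (hVAL : StmtVAL) : StmtCLA := by
  intro V κ _ c ℓ x₀ y₀ hc hl hLB
  exact ClaX.main hCNT hVAL hc hl hLB

end Pool.Agent.BRW
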