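import Pool.Agent.BRW.St

set_option autoImplicit false

/-!
# Bounded rank and the width of counting logic: the sub-blocks (module CLB)
-/

namespace Pool.Agent.BRW

namespace CLB

theorem card_eq {V : Type} [Fintype V] (P : V → Prop) [DecidablePred P] :
    Nat.card {z : V // P z} = (Finset.univ.filter P).card := by
  rw [Nat.card_eq_fintype_card, Fintype.card_subtype]

/-- the arithmetic of the first bound -/
theorem arith {e l N : ℕ} (hl : 100 ≤ l) (hN : l ^ 4 < N) (h : e * (N - 2 * l) ≤ N * l) :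
    e ≤ 2 * l := by
  have h4 : 10000 * l ^ 2 ≤ l ^ 4 := by
    have h5 : 10000 ≤ l ^ 2 := by nlinarith
    calc 10000 * l ^ 2 ≤ l ^ 2 * l ^ 2 := Nat.mul_le_mul_right _ h5
      _ = l ^ 4 := by ring
  have h6 : l ≤ l ^ 2 := by nlinarith
  obtain ⟨M, hM⟩ : ∃ M, N = M + 2 * l := ⟨N - 2 * l, by omega⟩
  have hM2 : 2 * l ^ 2 < M := by omega
  subst hM
  rw [Nat.add_sub_cancel] at h
  by_contra hcon
  push Not at hcon
  have h7 : (2 * l + 1) * M ≤ e * M := Nat.mul_le_mul_right _ hcon
  nlinarith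

end CLB

theorem clb (hCNT : StmtCNT) (hVAL : StmtVAL) (hCLA : StmtCLA) : StmtCLB := by
  classical
  intro V κ _ c l x₀ y₀ hc hl hLB
  obtain ⟨_⟩ := nonempty_fintype V
  obtain ⟨_, hv2, hv3, _⟩ := hVAL V κ c hc
  obtain ⟨a1, a2, a3, a4, a5, _, a7⟩ := hCLA V κ c l x₀ y₀ hc hl hLB
  have hdd : dd c x₀ y₀ ≤ l := hLB.1.2.2
  have hN : l ^ 4 < val c x₀ y₀ := hLB.2
  -- the valency of `R`
  have L1 : ∀ x, c x x = c x₀ x₀ →
      (Finset.univ.filter (fun w => c x w = c x₀ y₀)).card = val c x₀ y₀ := by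
    intro x hx
    rw [← CLB.card_eq]
    exact hv3 x₀ y₀ x hx
  -- `R`-neighbours are distinguished by few vertices
  have L2 : ∀ x y, c x y = c x₀ y₀ →
      (Finset.univ.filter (fun z => c z x ≠ c z y)).card ≤ l := by
    intro x y hxy
    rw [← CLB.card_eq]
    have h1 := (hv2 x y x₀ y₀ hxy).2
    exact h1.trans_le hdd
  -- the first bound for the sub-blocks
  have L3 : ∀ x, (Finset.univ.filter (fun y => EE c x₀ y₀ x y ∧ c x y ≠ c x₀ y₀)).card ≤
      2 * l := by
    intro x
    by_cases hx : c x x = c x₀ x₀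
    · apply CLB.arith hl hN
      have h1 := Finset.sum_card_bipartiteAbove_eq_sum_card_bipartiteBelow
        (s := Finset.univ.filter (fun y => EE c x₀ y₀ x y ∧ c x y ≠ c x₀ y₀))
        (t := Finset.univ.filter (fun w => c x w = c x₀ y₀)) (fun y w => c y w = c x₀ y₀)
      have h2 : (Finset.univ.filter (fun y => EE c x₀ y₀ x y ∧ c x y ≠ c x₀ y₀)).card *
          (val c x₀ y₀ - 2 * l) ≤ ∑ y ∈ Finset.univ.filter
            (fun y => EE c x₀ y₀ x y ∧ c x y ≠ c x₀ y₀),
            ((Finset.univ.filter (fun w => c x w = c x₀ y₀)).bipartiteAbove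
              (fun y w => c y w = c x₀ y₀) y).card := by
        rw [← smul_eq_mul]
        apply Finset.card_nsmul_le_sum
        intro y hy
        rw [Finset.mem_filter] at hy
        have h3 := a7 x y hy.2.1
        rw [Finset.bipartiteAbove, Finset.filter_filter, ← CLB.card_eq]
        omega
      have h3 : ∑ w ∈ Finset.univ.filter (fun w => c x w = c x₀ y₀),
            ((Finset.univ.filter (fun y => EE c x₀ y₀ x y ∧ c x y ≠ c x₀ y₀)).bipartiteBelow
              (fun y w => c y w = c x₀ y₀) w).card ≤ val c x₀ y₀ * l := by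
        rw [← L1 x hx, ← smul_eq_mul]
        apply Finset.sum_le_card_nsmul
        intro w hw
        rw [Finset.mem_filter] at hw
        refine (Finset.card_le_card ?_).trans (L2 x w hw.2)
        intro y hy
        rw [Finset.mem_bipartiteBelow, Finset.mem_filter] at hy
        rw [Finset.mem_filter]
        refine ⟨Finset.mem_univ _, fun h4 => hy.1.2.2 ?_⟩
        exact (a1 y x (h4.trans hy.2)).1
      exact h2.trans (h1.trans_le h3)
    · have h1 : Finset.univ.filter (fun y => EE c x₀ y₀ x y ∧ c x y ≠ c x₀ y₀) = ∅ := by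
        rw [Finset.filter_eq_empty_iff]
        intro y _ hy
        exact hx (a3 x y hy.1).2
      rw [h1]
      simp
  -- transitivity
  have T : ∀ x y z, EE c x₀ y₀ x y → EE c x₀ y₀ y z → c x y ≠ c x₀ y₀ → c y z ≠ c x₀ y₀ →
      c x z ≠ c x₀ y₀ := by
    intro x y z hxy hyz nxy nyz hxz
    have hx : c x x = c x₀ x₀ := (a3 x y hxy).2
    have h1 : Finset.univ.filter (fun w => c x w = c x₀ y₀) ⊆
        (Finset.univ.filter (fun y => EE c x₀ y₀ x y ∧ c x y ≠ c x₀ y₀)).biUnion
          (fun u => Finset.univ.filter (fun w => EE c x₀ y₀ u w ∧ c u w ≠ c x₀ y₀)) := by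
      intro w hw
      rw [Finset.mem_filter] at hw
      obtain ⟨e, he⟩ := hCNT V κ c hc x z x w (hxz.trans hw.2.symm)
      obtain ⟨e1, e2⟩ := he y
      rw [Finset.mem_biUnion]
      refine ⟨e y, ?_, ?_⟩
      · rw [Finset.mem_filter]
        exact ⟨Finset.mem_univ _, a5 x y x (e y) e1.symm hxy, by rw [e1]; exact nxy⟩
      · rw [Finset.mem_filter]
        exact ⟨Finset.mem_univ _, a5 y z (e y) w e2.symm hyz, by rw [e2]; exact nyz⟩
    have h2 := (Finset.card_le_card h1).trans
      (Finset.card_biUnion_le_card_mul _ _ (2 * l) (fun u _ => L3 u))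
    rw [L1 x hx] at h2
    have h3 : (Finset.univ.filter (fun y => EE c x₀ y₀ x y ∧ c x y ≠ c x₀ y₀)).card * (2 * l) ≤
        2 * l * (2 * l) := Nat.mul_le_mul_right _ (L3 x)
    have h4 : 2 * l * (2 * l) ≤ l ^ 4 := by
      have h5 : 4 ≤ l ^ 2 := by nlinarith
      calc 2 * l * (2 * l) = 4 * l ^ 2 := by ring
        _ ≤ l ^ 2 * l ^ 2 := Nat.mul_le_mul_right _ h5
        _ = l ^ 4 := by ring
    omega
  refine ⟨T, ?_⟩
  intro x
  rw [CLB.card_eq]
  by_cases hx : c x x = c x₀ x₀
  · -- an `R`-neighbour of `x`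
    obtain ⟨y, hy⟩ : ∃ y, c x y = c x₀ y₀ := by
      have h1 : 0 < (Finset.univ.filter (fun w => c x w = c x₀ y₀)).card := by
        rw [L1 x hx]
        omega
      obtain ⟨y, hy⟩ := Finset.card_pos.1 h1
      exact ⟨y, (Finset.mem_filter.1 hy).2⟩
    refine (Finset.card_le_card ?_).trans (L2 x y hy)
    intro z hz
    rw [Finset.mem_filter] at hz
    rw [Finset.mem_filter]
    refine ⟨Finset.mem_univ _, fun h => ?_⟩
    have h1 : c z x ≠ c x₀ y₀ := fun h2 => hz.2.2 (a1 z x h2).1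
    have h2 : EE c x₀ y₀ z y := a4 z x y (a3 x z hz.2.1).1 (a1 x y hy).2.2
    have h3 : c z y ≠ c x₀ y₀ := by
      rw [← h]
      exact h1
    exact T x z y hz.2.1 h2 hz.2.2 h3 hy
  · have h1 : Finset.univ.filter (fun y => EE c x₀ y₀ x y ∧ c x y ≠ c x₀ y₀) = ∅ := by
      rw [Finset.filter_eq_empty_iff]
      intro y _ hy
      exact hx (a3 x y hy.1).2
    rw [h1]
    simp

end Pool.Agent.BRW
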