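import Pool.Agent.BRW.St

set_option autoImplicit false

/-!
# Module CLF: on a block almost all vertices see a given vertex in one colour
-/

namespace Pool.Agent.BRW

theorem clf (hVAL : StmtVAL) (hCLA : StmtCLA) (hCLB : StmtCLB) (hSMC : StmtSMC)
    (hLGC : StmtLGC) (hCMP : StmtCMP) : StmtCLF := by
  classical
  intro V κ _ c ℓ r x₀ y₀ hc hr hg hl hLB x z hx
  cases nonempty_fintype V
  have h100 : 100 ≤ ℓ := by nlinarith [Nat.zero_le r, Nat.zero_le (r ^ 2)]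
  have hrl' : 100 * (r + 1) ≤ ℓ := by nlinarith [Nat.zero_le r, Nat.zero_le (r ^ 2)]
  have hrl : r ≤ ℓ := by omega
  obtain ⟨A1, A2, A3, A4, -, -, -⟩ := hCLA V κ c ℓ x₀ y₀ hc h100 hLB
  obtain ⟨-, B2⟩ := hCLB V κ c ℓ x₀ y₀ hc h100 hLB
  have hN : ℓ ^ 4 < val c x₀ y₀ := hLB.2
  have hcard : ∀ u, c u u = c x₀ x₀ → {w : V | c u w = c x₀ y₀}.ncard = val c x₀ y₀ :=
    fun u hu => (hVAL V κ c hc).2.2.1 x₀ y₀ u hu
  have B3 : ∀ u, {y : V | EE c x₀ y₀ u y ∧ c u y ≠ c x₀ y₀}.ncard ≤ ℓ := fun u => B2 u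
  by_cases h1 : ∃ u₁, EE c x₀ y₀ x u₁ ∧ ∀ u, EE c x₀ y₀ u₁ u → c u z = c u₁ z
  · obtain ⟨u₁, hu₁, h⟩ := h1
    exact ⟨c u₁ z, fun u v hu _ hne => absurd (h u (A4 _ _ _ (A3 _ _ hu₁).1 hu)) hne⟩
  push Not at h1
  -- the vertices that see `z` in a small colour
  have hsm : {u : V | EE c x₀ y₀ x u ∧ val c u z ≤ ℓ}.ncard ≤ r * ℓ := by
    have e1 : {u : V | EE c x₀ y₀ x u ∧ val c u z ≤ ℓ}.ncard =
        (Finset.univ.filter fun u : V => EE c x₀ y₀ x u ∧ val c u z ≤ ℓ).card := by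
      rw [← Set.ncard_coe_finset]
      congr 1
      ext u
      simp
    rw [e1]
    refine (Finset.card_le_mul_card_image (f := fun u => c z u) _ ℓ ?_).trans ?_
    · intro i hi
      obtain ⟨u₁, hu₁, rfl⟩ := Finset.mem_image.mp hi
      obtain ⟨hE, hv⟩ := (Finset.mem_filter.mp hu₁).2
      have h2 := (hSMC V κ c ℓ x₀ y₀ hc h100 hLB u₁ z (A3 _ _ (A3 _ _ hE).1).2 hv).resolve_left
        (by
          intro h
          obtain ⟨u, hu, hne⟩ := h1 u₁ hE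
          exact hne (h u hu))
      have hrefl : EE c x₀ y₀ u₁ u₁ := A2 _ (A3 _ _ (A3 _ _ hE).1).2
      refine le_trans ?_ (B3 u₁)
      rw [← Set.ncard_coe_finset]
      refine Set.ncard_le_ncard ?_ (Set.toFinite _)
      intro u hu
      simp only [Finset.coe_filter, Finset.mem_filter, Finset.mem_univ, true_and,
        Set.mem_ofPred_eq] at hu
      obtain ⟨⟨hEu, -⟩, hcu⟩ := hu
      have hEu' : EE c x₀ y₀ u₁ u := A4 _ _ _ (A3 _ _ hE).1 hEu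
      exact ⟨hEu', h2 u₁ u hrefl hEu' rfl (hc.symm _ _ _ _ hcu)⟩
    · rw [mul_comm]
      refine Nat.mul_le_mul_right _ (le_trans ?_ (hr z))
      rw [← Set.ncard_coe_finset]
      refine Set.ncard_le_ncard ?_ (Set.finite_range _)
      intro i hi
      obtain ⟨u, -, rfl⟩ := Finset.mem_image.mp (Finset.mem_coe.mp hi)
      exact ⟨u, rfl⟩
  -- the block is large
  have hBN : val c x₀ y₀ ≤ {u : V | EE c x₀ y₀ x u}.ncard := by
    rw [← hcard x hx]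
    refine Set.ncard_le_ncard ?_ (Set.toFinite _)
    intro u hu
    exact (A1 x u hu).2.2
  have hl4 : r * ℓ < ℓ ^ 4 := by
    have e : ℓ ^ 4 = ℓ * ℓ * ℓ * ℓ := by ring
    have h2 : r * ℓ ≤ ℓ * ℓ := Nat.mul_le_mul_right _ hrl
    have h3 : ℓ * ℓ * 1 < ℓ * ℓ * (ℓ * ℓ) := by
      refine Nat.mul_lt_mul_of_pos_left ?_ (by positivity)
      nlinarith
    rw [e]
    nlinarith
  -- a vertex of the block that sees `z` in a large colour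
  obtain ⟨u₁, hE₁, hv₁⟩ : ∃ u₁, EE c x₀ y₀ x u₁ ∧ ℓ < val c u₁ z := by
    by_contra hcon
    push Not at hcon
    have : {u : V | EE c x₀ y₀ x u}.ncard ≤ {u : V | EE c x₀ y₀ x u ∧ val c u z ≤ ℓ}.ncard :=
      Set.ncard_le_ncard (fun u hu => ⟨hu, hcon u hu⟩) (Set.toFinite _)
    omega
  -- few vertices of the block see `z` in another colour than a large one
  have hfew : ∀ u₂, EE c x₀ y₀ x u₂ → ℓ < val c u₂ z →
      {u : V | EE c x₀ y₀ x u ∧ c u z ≠ c u₂ z}.ncard * ℓ ^ 3 ≤ val c x₀ y₀ + ℓ ^ 4 := by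
    intro u₂ hE₂ hv₂
    have hX : c u₂ u₂ = c x₀ x₀ := (A3 _ _ (A3 _ _ hE₂).1).2
    have hv4 : ℓ ^ 4 < val c u₂ z := (hg.1 u₂ z).resolve_left (by omega)
    have h3 : {u : V | c u₂ u = c x₀ y₀ ∧ c u z ≠ c u₂ z}.ncard * ℓ ^ 3 ≤ val c x₀ y₀ :=
      hLGC V κ c ℓ x₀ y₀ hc h100 hLB u₂ z hX hv4
    have h4 : {u : V | EE c x₀ y₀ x u ∧ c u z ≠ c u₂ z}.ncard ≤
        {u : V | c u₂ u = c x₀ y₀ ∧ c u z ≠ c u₂ z}.ncard +
        {y : V | EE c x₀ y₀ u₂ y ∧ c u₂ y ≠ c x₀ y₀}.ncard := by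
      refine le_trans (Set.ncard_le_ncard ?_ (Set.toFinite _)) (Set.ncard_union_le _ _)
      rintro u ⟨hu1, hu2⟩
      by_cases h5 : c u₂ u = c x₀ y₀
      · exact Or.inl ⟨h5, hu2⟩
      · exact Or.inr ⟨A4 _ _ _ (A3 _ _ hE₂).1 hu1, h5⟩
    have h6 := B3 u₂
    calc {u : V | EE c x₀ y₀ x u ∧ c u z ≠ c u₂ z}.ncard * ℓ ^ 3
        ≤ ({u : V | c u₂ u = c x₀ y₀ ∧ c u z ≠ c u₂ z}.ncard + ℓ) * ℓ ^ 3 :=
          Nat.mul_le_mul_right _ (by omega)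
      _ = {u : V | c u₂ u = c x₀ y₀ ∧ c u z ≠ c u₂ z}.ncard * ℓ ^ 3 + ℓ ^ 4 := by ring
      _ ≤ val c x₀ y₀ + ℓ ^ 4 := by omega
  -- only one large colour
  have hone : ∀ u₂, EE c x₀ y₀ x u₂ → ℓ < val c u₂ z → c u₂ z = c u₁ z := by
    intro u₂ hE₂ hv₂
    by_contra hne
    have h3 := hfew u₁ hE₁ hv₁
    have h4 := hfew u₂ hE₂ hv₂
    have h5 : {u : V | EE c x₀ y₀ x u}.ncard ≤
        {u : V | EE c x₀ y₀ x u ∧ c u z ≠ c u₁ z}.ncard +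
        {u : V | EE c x₀ y₀ x u ∧ c u z ≠ c u₂ z}.ncard := by
      refine le_trans (Set.ncard_le_ncard ?_ (Set.toFinite _)) (Set.ncard_union_le _ _)
      intro u hu
      by_cases h6 : c u z = c u₁ z
      · exact Or.inr ⟨hu, fun h => hne (h.symm.trans h6)⟩
      · exact Or.inl ⟨hu, h6⟩
    have h7 : val c x₀ y₀ * ℓ ^ 3 ≤ 2 * (val c x₀ y₀ + ℓ ^ 4) := by
      calc val c x₀ y₀ * ℓ ^ 3 ≤ ({u : V | EE c x₀ y₀ x u ∧ c u z ≠ c u₁ z}.ncard +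
            {u : V | EE c x₀ y₀ x u ∧ c u z ≠ c u₂ z}.ncard) * ℓ ^ 3 :=
            Nat.mul_le_mul_right _ (hBN.trans h5)
        _ ≤ 2 * (val c x₀ y₀ + ℓ ^ 4) := by
            rw [add_mul]
            omega
    have h8 : val c x₀ y₀ * 4 < val c x₀ y₀ * ℓ ^ 3 := by
      refine Nat.mul_lt_mul_of_pos_left ?_ (by omega)
      calc 4 < 100 ^ 3 := by norm_num
        _ ≤ ℓ ^ 3 := Nat.pow_le_pow_left h100 3
    omega
  have hX₁ : c u₁ u₁ = c x₀ x₀ := (A3 _ _ (A3 _ _ hE₁).1).2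
  have hcmp := hCMP V κ c ℓ r x₀ y₀ hc h100 hrl hLB u₁ z hX₁ (by
    have h3 : {u : V | EE c x₀ y₀ u₁ u ∧ c u z ≠ c u₁ z}.ncard ≤
        {u : V | EE c x₀ y₀ x u ∧ val c u z ≤ ℓ}.ncard := by
      refine Set.ncard_le_ncard ?_ (Set.toFinite _)
      rintro u ⟨hu1, hu2⟩
      have hEu : EE c x₀ y₀ x u := A4 _ _ _ hE₁ hu1
      refine ⟨hEu, ?_⟩
      by_contra hlt
      exact hu2 (hone u hEu (by omega))
    exact h3.trans hsm)
  refine ⟨c u₁ z, fun u v hu hv hcu hcv => ?_⟩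
  exact hcmp u v (A4 _ _ _ (A3 _ _ hE₁).1 hu) (A4 _ _ _ (A3 _ _ hE₁).1 hv) hcu hcv

end Pool.Agent.BRW
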