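import Mathlib
import Pool.Agent.BRW.Defs
import Pool.Agent.BRW.St

set_option autoImplicit false

/-!
# BRW: module CMP (the complement)
-/

namespace Pool.Agent.BRW

theorem cmp (hCNT : StmtCNT) (hVAL : StmtVAL) (hCLA : StmtCLA) (_hCLB : StmtCLB) : StmtCMP := by
  classical
  intro V κ _ c ℓ r x₀ y₀ hc hℓ hr hLB y z hy hcard u v hyu hyv huz hvz huv
  have : Fintype V := Fintype.ofFinite V
  obtain ⟨_, hV2, hV3, _⟩ := hVAL V κ c hc
  obtain ⟨hC1, hC2, hC3, hC4, hC5, _, _⟩ := hCLA V κ c ℓ x₀ y₀ hc hℓ hLB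
  have hdd : dd c x₀ y₀ ≤ ℓ := hLB.1.2.2
  have hbig : ℓ ^ 4 < val c x₀ y₀ := hLB.2
  have hyy : EE c x₀ y₀ y y := hC2 y hy
  have huy : EE c x₀ y₀ u y := (hC3 y u hyu).1
  have hux : c u u = c x₀ x₀ := (hC3 u y huy).2
  have hN : Nat.card {w : V // c u w = c x₀ y₀} = val c x₀ y₀ := hV3 x₀ y₀ u hux
  set q := c y z with hq
  set s : Finset V := Finset.univ.filter (fun v' => c u v' = c x₀ y₀) with hs
  set t : Finset V := Finset.univ.filter
    (fun w => (∃ u', EE c x₀ y₀ y u' ∧ c u' w = q) ∧ c u w ≠ q) with ht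
  have hscard : s.card = val c x₀ y₀ := by
    rw [← hN, Nat.card_eq_fintype_card, Fintype.card_subtype]
  have hdc := Finset.sum_card_bipartiteAbove_eq_sum_card_bipartiteBelow
    (s := s) (t := t) (fun v' w => c v' w ≠ q)
  -- upper bound: every `w` of `t` has few `v'`
  have hup : ∀ w ∈ t, (s.bipartiteBelow (fun v' w => c v' w ≠ q) w).card ≤ r * ℓ := by
    intro w hw
    rw [ht, Finset.mem_filter] at hw
    obtain ⟨u', hu', hu'w⟩ := hw.2.1
    obtain ⟨e, he⟩ := hCNT V κ c hc y z u' w (by rw [hu'w])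
    refine le_trans ?_ hcard
    rw [Nat.card_eq_fintype_card, Fintype.card_subtype]
    apply Finset.card_le_card_of_injOn (fun v' => e.symm v')
    · intro v' hv'
      have hv2 := (Finset.mem_bipartiteBelow _).mp (Finset.mem_coe.mp hv')
      rw [hs, Finset.mem_filter] at hv2
      obtain ⟨⟨_, h1⟩, h2⟩ := hv2
      have h3 : EE c x₀ y₀ y v' := hC4 y u v' hyu (hC1 u v' h1).2.2
      have h4 : EE c x₀ y₀ u' v' := hC4 u' y v' (hC3 y u' hu').1 h3
      have h5 := he (e.symm v')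
      rw [Equiv.apply_symm_apply] at h5
      rw [Finset.mem_coe, Finset.mem_filter]
      refine ⟨Finset.mem_univ _, hC5 u' v' y (e.symm v') h5.1 h4, ?_⟩
      rw [← h5.2]
      exact h2
    · intro a _ b _ h
      exact e.symm.injective h
  -- lower bounds
  have hlow1 : ∀ v' ∈ s, t.card - ℓ ≤ (t.bipartiteAbove (fun v' w => c v' w ≠ q) v').card := by
    intro v' hv'
    rw [hs, Finset.mem_filter] at hv'
    have h1 : dd c u v' ≤ ℓ := by
      rw [(hV2 u v' x₀ y₀ hv'.2).2]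
      exact hdd
    have h2 : (t.filter (fun w => ¬ (c v' w ≠ q))).card ≤ ℓ := by
      refine le_trans ?_ h1
      unfold dd
      rw [Nat.card_eq_fintype_card, Fintype.card_subtype]
      apply Finset.card_le_card
      intro w hw
      rw [Finset.mem_filter, ht, Finset.mem_filter, not_not] at hw
      rw [Finset.mem_filter]
      refine ⟨Finset.mem_univ _, fun h => hw.1.2.2 ?_⟩
      rw [← hw.2]
      exact hc.symm w u w v' h
    have h3 := Finset.card_filter_add_card_filter_not (s := t) (fun w => c v' w ≠ q)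
    have h4 : t.bipartiteAbove (fun v' w => c v' w ≠ q) v' = t.filter (fun w => c v' w ≠ q) := rfl
    rw [h4]
    omega
  have hlow2 : ∀ v' ∈ s, 1 ≤ (t.bipartiteAbove (fun v' w => c v' w ≠ q) v').card := by
    intro v' hv'
    rw [hs, Finset.mem_filter] at hv'
    obtain ⟨e, he⟩ := hCNT V κ c hc u v u v' (by rw [huv, hv'.2])
    obtain ⟨e', he'⟩ := hCNT V κ c hc u z u (e z) (he z).1.symm
    apply Finset.card_pos.mpr
    refine ⟨e z, ?_⟩
    rw [Finset.mem_bipartiteAbove, ht, Finset.mem_filter]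
    refine ⟨⟨Finset.mem_univ _, ⟨e' y, ?_, ?_⟩, ?_⟩, ?_⟩
    · exact hC4 y u (e' y) hyu (hC5 u y u (e' y) (he' y).1.symm huy)
    · rw [(he' y).2]
    · rw [(he z).1]; exact huz
    · intro h
      apply hvz
      rw [← h]
      exact (hc.symm (e z) v' z v (he z).2).symm
  have hU : ∑ w ∈ t, (s.bipartiteBelow (fun v' w => c v' w ≠ q) w).card ≤ t.card * (r * ℓ) := by
    calc ∑ w ∈ t, (s.bipartiteBelow (fun v' w => c v' w ≠ q) w).card
        ≤ ∑ _w ∈ t, r * ℓ := Finset.sum_le_sum hup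
      _ = t.card * (r * ℓ) := by rw [Finset.sum_const, smul_eq_mul]
  have hL1 : s.card * (t.card - ℓ) ≤
      ∑ v' ∈ s, (t.bipartiteAbove (fun v' w => c v' w ≠ q) v').card := by
    calc s.card * (t.card - ℓ) = ∑ _v' ∈ s, (t.card - ℓ) := by
          rw [Finset.sum_const, smul_eq_mul]
      _ ≤ _ := Finset.sum_le_sum hlow1
  have hL2 : s.card * 1 ≤
      ∑ v' ∈ s, (t.bipartiteAbove (fun v' w => c v' w ≠ q) v').card := by
    calc s.card * 1 = ∑ _v' ∈ s, 1 := by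
          rw [Finset.sum_const, smul_eq_mul]
      _ ≤ _ := Finset.sum_le_sum hlow2
  rw [hdc] at hL1 hL2
  have h1 := hL1.trans hU
  have h2 := hL2.trans hU
  rw [hscard] at h1 h2
  have h3 : r * ℓ ≤ ℓ * ℓ := Nat.mul_le_mul_right _ hr
  have h4 : 2 * ℓ ^ 3 ≤ ℓ ^ 4 := by
    calc 2 * ℓ ^ 3 ≤ ℓ * ℓ ^ 3 := Nat.mul_le_mul_right _ (by omega)
      _ = ℓ ^ 4 := by ring
  by_cases h : t.card ≤ 2 * ℓ
  · have h5 : t.card * (r * ℓ) ≤ 2 * ℓ * (ℓ * ℓ) := Nat.mul_le_mul h h3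
    have h6 : 2 * ℓ * (ℓ * ℓ) = 2 * ℓ ^ 3 := by ring
    omega
  · rw [not_le] at h
    have h5 : t.card ≤ 2 * (t.card - ℓ) := by omega
    have h6 : t.card * (r * ℓ) ≤ 2 * (t.card - ℓ) * (ℓ * ℓ) := Nat.mul_le_mul h5 h3
    have h7 : val c x₀ y₀ * (t.card - ℓ) ≤ 2 * (ℓ * ℓ) * (t.card - ℓ) := by
      calc val c x₀ y₀ * (t.card - ℓ) ≤ 2 * (t.card - ℓ) * (ℓ * ℓ) := h1.trans h6
        _ = 2 * (ℓ * ℓ) * (t.card - ℓ) := by ring
    have h8 : val c x₀ y₀ ≤ 2 * (ℓ * ℓ) := Nat.le_of_mul_le_mul_right h7 (by omega)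
    have h9 : 2 * (ℓ * ℓ) ≤ 2 * ℓ ^ 3 := by
      have : ℓ * ℓ * 1 ≤ ℓ * ℓ * ℓ := Nat.mul_le_mul_left _ (by omega)
      have h10 : ℓ * ℓ * ℓ = ℓ ^ 3 := by ring
      omega
    omega

end Pool.Agent.BRW
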