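import Mathlib
import Pool.Agent.BRW.Defs
import Pool.Agent.BRW.St

set_option autoImplicit false

/-!
# Gluing of fibrewise bijections (module CNT)
-/

namespace Pool.Agent.BRW

/-- Two functions whose fibres have the same cardinalities differ by a bijection. -/
theorem exists_equiv_of_card_fiber {V W κ : Type} [Finite V] [Finite W] (f : V → κ) (g : W → κ)
    (h : ∀ p : κ, Nat.card {z : V // f z = p} = Nat.card {z : W // g z = p}) :
    ∃ e : V ≃ W, ∀ z, g (e z) = f z := by
  have h1 : ∀ p : κ, Nonempty ({z : V // f z = p} ≃ {z : W // g z = p}) := fun p =>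
    Finite.card_eq.mp (h p)
  let e0 : ∀ p : κ, {z : V // f z = p} ≃ {z : W // g z = p} := fun p => Classical.choice (h1 p)
  refine ⟨(Equiv.sigmaFiberEquiv f).symm.trans
    ((Equiv.sigmaCongrRight e0).trans (Equiv.sigmaFiberEquiv g)), fun z => ?_⟩
  have h2 := (e0 (f z) ⟨z, rfl⟩).2
  exact h2

/-- CNT: the strong form of the counting condition. -/
theorem cnt : StmtCNT := by
  intro V κ _ c hc x y x' y' hxy
  obtain ⟨e, he⟩ := exists_equiv_of_card_fiber (fun z => (c x z, c z y))
    (fun z => (c x' z, c z y')) (by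
      rintro ⟨i, j⟩
      have h1 := hc.count x y x' y' hxy i j
      simpa only [Prod.mk.injEq] using h1)
  refine ⟨e, fun z => ?_⟩
  have h2 := he z
  simp only [Prod.mk.injEq] at h2
  exact h2

end Pool.Agent.BRW
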