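import Pool.Agent.BRW.St

set_option autoImplicit false

/-!
# Bounded rank and the width of counting logic: module EQV
-/

namespace Pool.Agent.BRW

theorem eqv (hCNT : StmtCNT) (hVAL : StmtVAL) : StmtEQV := by
  classical
  intro V κ _ c ℓ r hc hr hg hℓ
  obtain ⟨v1, v2, v3, -⟩ := hVAL V κ c hc
  have := Fintype.ofFinite V
  have hcard : ∀ p : V → Prop, Nat.card {w : V // p w} = (Finset.univ.filter p).card := by
    intro p
    rw [Nat.card_eq_fintype_card, Fintype.card_subtype]
  have key : ∀ x z y : V, val c x z ≤ ℓ → val c z y ≤ ℓ → val c x y ≤ ℓ := by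
    intro x z y h1 h2
    rcases hg.1 x y with h | h
    · exact h
    · exfalso
      have hle : val c x y ≤ ℓ * ℓ := by
        have hsub : Finset.univ.filter (fun w => c x w = c x y) ⊆
            (Finset.univ.filter (fun u => c x u = c x z)).biUnion
              (fun u => Finset.univ.filter (fun w => c u w = c z y)) := by
          intro w hw
          rw [Finset.mem_filter] at hw
          obtain ⟨e, he⟩ := hCNT V κ c hc x y x w hw.2.symm
          rw [Finset.mem_biUnion]
          refine ⟨e z, ?_, ?_⟩
          · rw [Finset.mem_filter]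
            exact ⟨Finset.mem_univ _, (he z).1⟩
          · rw [Finset.mem_filter]
            exact ⟨Finset.mem_univ _, (he z).2⟩
        have h3 : val c x y = (Finset.univ.filter (fun w => c x w = c x y)).card := hcard _
        have h4 : val c x z = (Finset.univ.filter (fun w => c x w = c x z)).card := hcard _
        rw [h3]
        refine (Finset.card_le_card hsub).trans ?_
        refine (Finset.card_biUnion_le_card_mul _ _ ℓ ?_).trans ?_
        · intro u hu
          rw [Finset.mem_filter] at hu
          have h5 : c u u = c z z := (v1 x u x z hu.2).2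
          rw [← hcard, v3 z y u h5]
          exact h2
        · rw [← h4]
          exact Nat.mul_le_mul_right _ h1
      have h6 : ℓ * ℓ ≤ ℓ ^ 4 := by
        calc ℓ * ℓ = ℓ ^ 2 := (sq ℓ).symm
          _ ≤ ℓ ^ 4 := Nat.pow_le_pow_right (by omega) (by norm_num)
      omega
  refine ⟨⟨?_, ?_, ?_⟩, ?_, ?_⟩
  · intro x
    have h1 : val c x x ≤ ℓ := by
      have h2 : val c x x = (Finset.univ.filter (fun w => c x w = c x x)).card := hcard _
      have h3 : Finset.univ.filter (fun w => c x w = c x x) ⊆ {x} := by
        intro w hw
        rw [Finset.mem_filter] at hw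
        rw [Finset.mem_singleton]
        exact (hc.diag x x w hw.2.symm).symm
      have h4 := Finset.card_le_card h3
      rw [Finset.card_singleton] at h4
      omega
    exact ⟨h1, h1⟩
  · intro x y h
    exact ⟨h.2, h.1⟩
  · intro x z y h1 h2
    exact ⟨key x z y h1.1 h2.1, key y z x h2.2 h1.2⟩
  · intro x
    rw [hcard]
    have h1 : (Finset.univ.filter (fun y => Sm c ℓ x y)).card ≤
        ℓ * ((Finset.univ.filter (fun y => Sm c ℓ x y)).image (c x)).card := by
      refine Finset.card_le_mul_card_image _ _ ?_
      intro a ha
      rw [Finset.mem_image] at ha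
      obtain ⟨y, hy, rfl⟩ := ha
      rw [Finset.mem_filter] at hy
      refine (Finset.card_le_card ?_).trans ((hcard (fun w => c x w = c x y)).symm.le.trans hy.2.1)
      intro w hw
      rw [Finset.mem_filter] at hw
      rw [Finset.mem_filter]
      exact ⟨Finset.mem_univ _, hw.2⟩
    have h2 : ((Finset.univ.filter (fun y => Sm c ℓ x y)).image (c x)).card ≤ r := by
      refine le_trans ?_ (hr x)
      rw [← Set.ncard_coe_finset]
      refine Set.ncard_le_ncard ?_ (Set.finite_range _)
      intro q hq
      rw [Finset.coe_image] at hq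
      obtain ⟨y, -, rfl⟩ := hq
      exact ⟨y, rfl⟩
    calc _ ≤ _ := h1
      _ ≤ ℓ * r := Nat.mul_le_mul_left _ h2
      _ = r * ℓ := Nat.mul_comm _ _
  · intro x y x' y' h
    have h1 := (v2 x y x' y' h).1
    have h2 := (v2 y x y' x' (hc.symm x y x' y' h)).1
    unfold Sm
    rw [h1, h2]

end Pool.Agent.BRW
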