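import Mathlib
import Pool.Agent.BRW.Defs
import Pool.Agent.BRW.St

set_option autoImplicit false

/-!
# BRW_EXT: the position after the parameters have been pebbled satisfies `Axs`
-/

namespace Pool.Agent.BRW

namespace EXT

/-- first swap index map -/
def sgS (k t : ℕ) (h : t + 3 ≤ k) (i : Fin k) : Fin k :=
  if i.1 < t then i else if i.1 = t then ⟨t + 1, by omega⟩ else ⟨t, by omega⟩

/-- collapse to the pebble `t` -/
def sgF (k t : ℕ) (h : t + 3 ≤ k) (i : Fin k) : Fin k :=
  if i.1 < t then i else ⟨t, by omega⟩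

/-- all pebbles after `t` to the pebble `t + 1` -/
def sgM (k t : ℕ) (h : t + 3 ≤ k) (i : Fin k) : Fin k :=
  if i.1 < t then i else if i.1 = t then ⟨t, by omega⟩ else ⟨t + 1, by omega⟩

lemma tup_swap {V : Type} (k t : ℕ) (h : t + 3 ≤ k) (s : Fin t → V) (x y : V) :
    (fun i => tup k t s x y (sgS k t h i)) = tup k t s y x := by
  funext i
  unfold sgS tup
  by_cases h1 : i.1 < t
  · simp [h1]
  · by_cases h2 : i.1 = t
    · simp [h2]
    · simp [h1, h2]

lemma tup_fib {V : Type} (k t : ℕ) (h : t + 3 ≤ k) (s : Fin t → V) (x y : V) :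
    (fun i => tup k t s x y (sgF k t h i)) = tup k t s x x := by
  funext i
  unfold sgF tup
  by_cases h1 : i.1 < t
  · simp [h1]
  · simp [h1]

lemma upd_t {V : Type} (k t : ℕ) (h : t + 3 ≤ k) (s : Fin t → V) (x y v : V) :
    Function.update (tup k t s x y) ⟨t, by omega⟩ v = tup k t s v y := by
  funext i
  by_cases hi : i = ⟨t, by omega⟩
  · subst hi
    simp [tup]
  · rw [Function.update_of_ne hi]
    have h2 : i.1 ≠ t := fun hh => hi (Fin.ext hh)
    unfold tup
    simp [h2]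

lemma upd_t1 {V : Type} (k t : ℕ) (h : t + 3 ≤ k) (s : Fin t → V) (x y v : V) :
    (fun i => Function.update (tup k t s x y) ⟨t + 1, by omega⟩ v (sgM k t h i)) =
      tup k t s x v := by
  funext i
  unfold sgM
  by_cases h1 : i.1 < t
  · have hne : i ≠ (⟨t + 1, by omega⟩ : Fin k) := by
      intro hh
      have := congrArg Fin.val hh
      simp at this
      omega
    rw [if_pos h1, Function.update_of_ne hne]
    unfold tup
    simp [h1]
  · by_cases h2 : i.1 = t
    · rw [if_neg h1, if_pos h2]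
      have hne : (⟨t, by omega⟩ : Fin k) ≠ ⟨t + 1, by omega⟩ := by
        intro hh
        have := congrArg Fin.val hh
        simp at this
      rw [Function.update_of_ne hne]
      unfold tup
      simp [h2]
    · rw [if_neg h1, if_neg h2, Function.update_self]
      unfold tup
      simp [h1, h2]

lemma tup_at_t {V : Type} (k t : ℕ) (h : t + 3 ≤ k) (s : Fin t → V) (x y : V) :
    tup k t s x y ⟨t, by omega⟩ = x := by
  simp [tup]

lemma tup_at_t1 {V : Type} (k t : ℕ) (h : t + 3 ≤ k) (s : Fin t → V) (x y : V) :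
    tup k t s x y ⟨t + 1, by omega⟩ = y := by
  simp [tup]

end EXT

open EXT in
theorem ext (hSIM : StmtSIM) (hPEB : StmtPEB) (hTYC : StmtTYC) (hBET : StmtBET) : StmtEXT := by
  obtain ⟨hS1, hS2, hS3, hS4, hS5⟩ := hSIM
  intro V W _ _ _ k t L G H s E hk hE hL hcons hcross hR
  have h3 : t + 3 ≤ k := by omega
  obtain ⟨R, hG, f, hf⟩ := hR
  obtain ⟨v₀⟩ := ‹Nonempty V›
  have hsim : Sim k G H (fun _ => v₀) (fun _ => f v₀) := ⟨R, hG, hf v₀⟩
  obtain ⟨v', hv'⟩ := hPEB V W k G H _ _ hsim (Finset.univ.filter (fun i : Fin k => i.1 < t))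
    (tup k t s v₀ v₀)
  set s' : Fin t → W := fun j => v' ⟨j.1, by omega⟩ with hs'
  set w₀ := f v₀ with hw₀
  have e1 : (fun i => if i ∈ Finset.univ.filter (fun i : Fin k => i.1 < t) then
      tup k t s v₀ v₀ i else v₀) = tup k t s v₀ v₀ := by
    funext i
    by_cases h1 : i.1 < t
    · simp [h1]
    · simp [h1, tup]
  have e2 : (fun i => if i ∈ Finset.univ.filter (fun i : Fin k => i.1 < t) then
      v' i else w₀) = tup k t s' w₀ w₀ := by
    funext i
    by_cases h1 : i.1 < t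
    · simp [h1, tup, hs']
    · simp [h1, tup]
  rw [e1, e2] at hv'
  have good := hS1 V W k G H
  -- moves
  have mvt : ∀ (x y : V) (x' y' : W), Sim k G H (tup k t s x y) (tup k t s' x' y') →
      ∃ g : V ≃ W, ∀ v, Sim k G H (tup k t s v y) (tup k t s' (g v) y') := by
    intro x y x' y' h
    obtain ⟨g, hg⟩ := good.2 _ _ h ⟨t, by omega⟩
    refine ⟨g, fun v => ?_⟩
    have := hg v
    rwa [upd_t k t h3, upd_t k t h3] at this
  have mvt1 : ∀ (x y : V) (x' y' : W), Sim k G H (tup k t s x y) (tup k t s' x' y') →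
      ∃ g : V ≃ W, ∀ v, Sim k G H (tup k t s x v) (tup k t s' x' (g v)) := by
    intro x y x' y' h
    obtain ⟨g, hg⟩ := good.2 _ _ h ⟨t + 1, by omega⟩
    refine ⟨g, fun v => ?_⟩
    have := hS5 V W k G H _ _ (sgM k t h3) (hg v)
    rwa [upd_t1 k t h3, upd_t1 k t h3] at this
  have hswap : ∀ (x y : V) (x' y' : W), Sim k G H (tup k t s x y) (tup k t s' x' y') →
      Sim k G H (tup k t s y x) (tup k t s' y' x') := by
    intro x y x' y' h
    have := hS5 V W k G H _ _ (sgS k t h3) h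
    rwa [tup_swap k t h3, tup_swap k t h3] at this
  have hfib : ∀ (x y : V) (x' y' : W), Sim k G H (tup k t s x y) (tup k t s' x' y') →
      Sim k G H (tup k t s x x) (tup k t s' x' x') := by
    intro x y x' y' h
    have := hS5 V W k G H _ _ (sgF k t h3) h
    rwa [tup_fib k t h3, tup_fib k t h3] at this
  have htyp : ∀ (a b c d : V) (a' b' : W), Sim k G H (tup k t s a b) (tup k t s' a' b') →
      Sim k G H (tup k t s c d) (tup k t s' a' b') → typ k G t s a b = typ k G t s c d := by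
    intro a b c d a' b' h1 h2
    rw [(hTYC V k t G s h3).2.1]
    exact hS4 V W V k G H G _ _ _ h1 (hS3 V W k G H _ _ h2)
  have hcons' : ∀ (a b c d : V) (a' b' : W), Sim k G H (tup k t s a b) (tup k t s' a' b') →
      Sim k G H (tup k t s c d) (tup k t s' a' b') → (E a b ↔ E c d) := by
    intro a b c d a' b' h1 h2
    exact hcons _ _ _ _ (htyp a b c d a' b' h1 h2)
  refine ⟨fun x y x' y' => Sim k G H (tup k t s x y) (tup k t s' x' y'), ?_⟩
  refine ⟨?_, ?_, ?_, ?_, ?_, ?_, ?_, ?_, ?_⟩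
  · -- surj
    intro x' y'
    obtain ⟨g, hg⟩ := mvt _ _ _ _ hv'
    have h1 := hg (g.symm x')
    rw [Equiv.apply_symm_apply] at h1
    obtain ⟨g2, hg2⟩ := mvt1 _ _ _ _ h1
    have h2 := hg2 (g2.symm y')
    rw [Equiv.apply_symm_apply] at h2
    exact ⟨_, _, h2⟩
  · -- adj
    intro x y x' y' h
    have := good.1 _ _ h ⟨t, by omega⟩ ⟨t + 1, by omega⟩
    rw [tup_at_t k t h3, tup_at_t k t h3, tup_at_t1 k t h3, tup_at_t1 k t h3] at this
    exact this
  · -- bij
    obtain ⟨g, hg⟩ := mvt _ _ _ _ hv'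
    exact ⟨g, fun x => hfib _ _ _ _ (hg x)⟩
  · -- swap
    exact hswap
  · -- fib
    exact hfib
  · -- zig
    intro a b c d a' b' e' g' h1 h2 h4
    exact hS4 V V W k G G H _ _ _ (hS4 V W V k G H G _ _ _ h1 (hS3 V W k G H _ _ h2)) h4
  · -- cons
    exact hcons'
  · -- beta
    intro x x' hx
    have hC : ({y : V | E x y} : Set V).ncard ≤ L := by
      have := hL x
      rwa [← Nat.card_coe_set_eq]
    obtain ⟨β, hβ1, hβ2, hβ3⟩ := hBET V W k t L G H s s' x x' {y : V | E x y} hk hC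
      (hE.refl x) hx
    refine ⟨β, hβ1, fun y z hy hz => hβ2 y z hy hz, ?_⟩
    rintro y' ⟨x1, y1, h1, h2⟩
    obtain ⟨y, hy1, hy2⟩ := hβ3 y'
    have hxy : E x y := (hcons' _ _ _ _ _ _ hy1 h1).2 h2
    exact ⟨y, hxy, hy2 hxy⟩
  · -- cross
    intro x z x1 z1 x' z' h1 h2 h4 h5 h6 h7
    exact hcross x z x1 z1 (htyp _ _ _ _ _ _ h1 h2) (htyp _ _ _ _ _ _ h4 h5) h6 h7

end Pool.Agent.BRW
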