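import Pool.Agent.BRW.St

set_option autoImplicit false

/-!
# Project BRW, module GAP: pigeonhole over windows
-/

namespace Pool.Agent.BRW

open scoped Classical in
/-- there are at most `r * r` colours -/
theorem gap_cover {V κ : Type} [Finite V] (c : V → V → κ) (r : ℕ) (hc : Coherent c)
    (hr : Rows c r) (hVAL : StmtVAL) (x0 : V) :
    ∃ K : Finset κ, K.card ≤ r * r ∧ ∀ x y, c x y ∈ K := by
  obtain ⟨h1, h2, h3, h4⟩ := hVAL V κ c hc
  have hfin : ∀ u, (Set.range (c u)).Finite := fun u => Set.finite_range _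
  have hcard : ∀ u, (hfin u).toFinset.card ≤ r := by
    intro u
    rw [← Set.ncard_eq_toFinset_card _ (hfin u)]
    exact hr u
  have hz : ∀ k ∈ (hfin x0).toFinset, ∃ z, c x0 z = k := by
    intro k hk
    rw [Set.Finite.mem_toFinset] at hk
    exact hk
  have : Nonempty V := ⟨x0⟩
  choose! z hz using hz
  refine ⟨(hfin x0).toFinset.biUnion (fun k => (hfin (z k)).toFinset), ?_, ?_⟩
  · calc ((hfin x0).toFinset.biUnion (fun k => (hfin (z k)).toFinset)).card
        ≤ (hfin x0).toFinset.card * r :=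
          Finset.card_biUnion_le_card_mul _ _ _ (fun k _ => hcard (z k))
      _ ≤ r * r := Nat.mul_le_mul_right _ (hcard x0)
  · intro x y
    have hk : c x0 x ∈ (hfin x0).toFinset := by
      rw [Set.Finite.mem_toFinset]
      exact ⟨x, rfl⟩
    have e1 : c (z (c x0 x)) (z (c x0 x)) = c x x := (h1 x0 (z (c x0 x)) x0 x (hz _ hk)).2
    have e2 := h3 x y (z (c x0 x)) e1
    have hpos : 0 < Nat.card {w : V // c (z (c x0 x)) w = c x y} := by
      rw [e2]
      have : Nonempty {w : V // c x w = c x y} := ⟨⟨y, rfl⟩⟩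
      exact Nat.card_pos
    obtain ⟨⟨w, hw⟩⟩ := (Nat.card_pos_iff.mp hpos).1
    refine Finset.mem_biUnion.mpr ⟨c x0 x, hk, ?_⟩
    rw [Set.Finite.mem_toFinset]
    exact ⟨w, hw⟩

open scoped Classical in
/-- a function of the colour takes at most as many values as there are colours -/
theorem gap_values {V κ : Type} (c : V → V → κ) (K : Finset κ) (hK : ∀ x y, c x y ∈ K)
    (g : V → V → ℕ) (hg : ∀ x y x' y', c x y = c x' y' → g x y = g x' y') :
    ∃ S : Finset ℕ, S.card ≤ K.card ∧ ∀ x y, g x y ∈ S := by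
  refine ⟨K.image (fun k => if h : ∃ p : V × V, c p.1 p.2 = k then g h.choose.1 h.choose.2 else 0),
    Finset.card_image_le, fun x y => ?_⟩
  refine Finset.mem_image.mpr ⟨c x y, hK x y, ?_⟩
  have h : ∃ p : V × V, c p.1 p.2 = c x y := ⟨(x, y), rfl⟩
  rw [dif_pos h]
  exact hg _ _ _ _ h.choose_spec

/-- GAP: some window contains no valency and no number `dd`. -/
theorem gap (_hCNT : StmtCNT) (hVAL : StmtVAL) : StmtGAP := by
  intro V κ _ c r m hc hr hm
  rcases isEmpty_or_nonempty V with hV | ⟨⟨x0⟩⟩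
  · exact ⟨0, Nat.zero_le _, fun x => (hV.false x).elim, fun x => (hV.false x).elim⟩
  obtain ⟨K, hK, hKm⟩ := gap_cover c r hc hr hVAL x0
  obtain ⟨-, h2, -, -⟩ := hVAL V κ c hc
  obtain ⟨S1, hS1, hS1m⟩ := gap_values c K hKm (val c) (fun x y x' y' h => (h2 x y x' y' h).1)
  obtain ⟨S2, hS2, hS2m⟩ := gap_values c K hKm (dd c) (fun x y x' y' h => (h2 x y x' y' h).2)
  by_contra hcon
  push Not at hcon
  have hv : ∀ j, j ≤ 2 * r ^ 2 → ∃ v ∈ S1 ∪ S2, m ^ 4 ^ j < v ∧ v ≤ m ^ 4 ^ (j + 1) := by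
    intro j hj
    have hp : (m ^ 4 ^ j) ^ 4 = m ^ 4 ^ (j + 1) := by
      rw [← pow_mul, pow_succ]
    have h := hcon j hj
    unfold Gap at h
    rw [not_and_or] at h
    rcases h with h | h
    · push Not at h
      obtain ⟨x, z, h3, h4⟩ := h
      exact ⟨val c x z, Finset.mem_union_left _ (hS1m x z), h3, hp ▸ h4⟩
    · push Not at h
      obtain ⟨x, y, -, h3, h4⟩ := h
      exact ⟨dd c x y, Finset.mem_union_right _ (hS2m x y), h3, hp ▸ h4⟩
  choose! v hvS hlo hhi using hv
  have hmono : ∀ i j, i ≤ 2 * r ^ 2 → j ≤ 2 * r ^ 2 → i < j → v i < v j := by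
    intro i j hi hj hij
    calc v i ≤ m ^ 4 ^ (i + 1) := hhi i hi
      _ ≤ m ^ 4 ^ j := Nat.pow_le_pow_right (by omega) (Nat.pow_le_pow_right (by norm_num) hij)
      _ < v j := hlo j hj
  have hinj : Set.InjOn v (Finset.range (2 * r ^ 2 + 1) : Set ℕ) := by
    intro i hi j hj hij
    rw [Finset.mem_coe, Finset.mem_range] at hi hj
    rcases lt_trichotomy i j with h | h | h
    · exact absurd hij (hmono i j (by omega) (by omega) h).ne
    · exact h
    · exact absurd hij (hmono j i (by omega) (by omega) h).ne'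
  have hmaps : Set.MapsTo v (Finset.range (2 * r ^ 2 + 1) : Set ℕ) (S1 ∪ S2 : Finset ℕ) := by
    intro i hi
    rw [Finset.mem_coe, Finset.mem_range] at hi
    exact hvS i (by omega)
  have hle := Finset.card_le_card_of_injOn v hmaps hinj
  rw [Finset.card_range] at hle
  have hu : (S1 ∪ S2).card ≤ S1.card + S2.card := Finset.card_union_le _ _
  have hrr : r * r = r ^ 2 := (sq r).symm
  rw [hrr] at hK
  omega

end Pool.Agent.BRW
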