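import Pool.Agent.BRW.St2
import Pool.Agent.BRW.MGap

set_option autoImplicit false

/-!
# Project BRW, module GAP2: pigeonhole over windows, uniform form
-/

namespace Pool.Agent.BRW

open scoped Classical in
/-- GAP2: some window contains no valency and no number `dd`. -/
theorem gap2 (_hCNT : StmtCNT) (hVAL : StmtVAL) : StmtGAP2 := by
  intro V κ _ c R m hc hR hm
  have hfin : (Set.range (fun p : V × V => c p.1 p.2)).Finite := Set.finite_range _
  have hK : hfin.toFinset.card ≤ R := by
    rw [← Set.ncard_eq_toFinset_card _ hfin]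
    exact hR
  have hKm : ∀ x y, c x y ∈ hfin.toFinset := by
    intro x y
    rw [Set.Finite.mem_toFinset]
    exact ⟨(x, y), rfl⟩
  obtain ⟨-, h2, -, -⟩ := hVAL V κ c hc
  obtain ⟨S1, hS1, hS1m⟩ := gap_values c _ hKm (val c) (fun x y x' y' h => (h2 x y x' y' h).1)
  obtain ⟨S2, hS2, hS2m⟩ := gap_values c _ hKm (dd c) (fun x y x' y' h => (h2 x y x' y' h).2)
  by_contra hcon
  push Not at hcon
  have hv : ∀ j, j ≤ 2 * R → ∃ v ∈ S1 ∪ S2, m ^ 4 ^ j < v ∧ v ≤ m ^ 4 ^ (j + 1) := by
    intro j hj
    have hp : (m ^ 4 ^ j) ^ 4 = m ^ 4 ^ (j + 1) := by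
      rw [← pow_mul, pow_succ]
    have h := hcon j hj
    unfold Gap at h
    rw [not_and_or] at h
    rcases h with h | h
    · push Not at h
      obtain ⟨x, z, h3, h4⟩ := h
      exact ⟨val c x z, Finset.mem_union_left _ (hS1m x z), h3, hp ▸ h4⟩
    · push Not at h
      obtain ⟨x, y, -, h3, h4⟩ := h
      exact ⟨dd c x y, Finset.mem_union_right _ (hS2m x y), h3, hp ▸ h4⟩
  choose! v hvS hlo hhi using hv
  have hmono : ∀ i j, i ≤ 2 * R → j ≤ 2 * R → i < j → v i < v j := by
    intro i j hi hj hij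
    calc v i ≤ m ^ 4 ^ (i + 1) := hhi i hi
      _ ≤ m ^ 4 ^ j := Nat.pow_le_pow_right (by omega) (Nat.pow_le_pow_right (by norm_num) hij)
      _ < v j := hlo j hj
  have hinj : Set.InjOn v (Finset.range (2 * R + 1) : Set ℕ) := by
    intro i hi j hj hij
    rw [Finset.mem_coe, Finset.mem_range] at hi hj
    rcases lt_trichotomy i j with h | h | h
    · exact absurd hij (hmono i j (by omega) (by omega) h).ne
    · exact h
    · exact absurd hij (hmono j i (by omega) (by omega) h).ne'
  have hmaps : Set.MapsTo v (Finset.range (2 * R + 1) : Set ℕ) (S1 ∪ S2 : Finset ℕ) := by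
    intro i hi
    rw [Finset.mem_coe, Finset.mem_range] at hi
    exact hvS i (by omega)
  have hle := Finset.card_le_card_of_injOn v hmaps hinj
  rw [Finset.card_range] at hle
  have hu : (S1 ∪ S2).card ≤ S1.card + S2.card := Finset.card_union_le _ _
  omega

end Pool.Agent.BRW
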