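import Mathlib
import Pool.Agent.BRW.Defs
import Pool.Agent.BRW.St

set_option autoImplicit false

/-!
# Bounded rank and the width of counting logic: the orbital configuration (module GRP)
-/

namespace Pool.Agent.BRW

/-- The orbital of the pair `(x, y)`. -/
def orbl {V : Type} (G : SimpleGraph V) (x y : V) : Set (V × V) :=
  {p | ∃ g : G ≃g G, p = (g x, g y)}

theorem orbl_map {V : Type} (G : SimpleGraph V) (g : G ≃g G) (x y : V) :
    orbl G (g x) (g y) = orbl G x y := by
  ext p
  constructor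
  · rintro ⟨h, rfl⟩
    exact ⟨g.trans h, rfl⟩
  · rintro ⟨h, rfl⟩
    refine ⟨g.symm.trans h, ?_⟩
    have h1 : (g.symm.trans h) (g x) = h (g.symm (g x)) := rfl
    have h2 : (g.symm.trans h) (g y) = h (g.symm (g y)) := rfl
    have h3 : g.symm (g x) = x := g.toEquiv.symm_apply_apply x
    have h4 : g.symm (g y) = y := g.toEquiv.symm_apply_apply y
    rw [h1, h2, h3, h4]

theorem orbl_eq {V : Type} (G : SimpleGraph V) {x y x' y' : V} (h : orbl G x y = orbl G x' y') :
    ∃ g : G ≃g G, x' = g x ∧ y' = g y := by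
  have h1 : (x', y') ∈ orbl G x' y' := ⟨SimpleGraph.Iso.refl, rfl⟩
  rw [← h] at h1
  obtain ⟨g, hg⟩ := h1
  exact ⟨g, congrArg Prod.fst hg, congrArg Prod.snd hg⟩

theorem orbl_coherent {V : Type} (G : SimpleGraph V) : Coherent (orbl G) := by
  refine ⟨?_, ?_, ?_⟩
  · intro x y z h
    obtain ⟨g, h1, h2⟩ := orbl_eq G h
    rw [h1, h2]
  · intro x y x' y' h
    obtain ⟨g, rfl, rfl⟩ := orbl_eq G h
    exact (orbl_map G g y x).symm
  · intro x y x' y' h i j
    obtain ⟨g, rfl, rfl⟩ := orbl_eq G h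
    refine Nat.card_congr (g.toEquiv.subtypeEquiv ?_)
    intro z
    have h1 : orbl G (g x) (g.toEquiv z) = orbl G x z := orbl_map G g x z
    have h2 : orbl G (g.toEquiv z) (g y) = orbl G z y := orbl_map G g z y
    rw [h1, h2]

/-- Module GRP. -/
theorem grp (hMAIN : StmtMAIN) : StmtGRP := by
  intro r
  obtain ⟨γ, h0, h1, N, hN⟩ := hMAIN r
  refine ⟨γ, h0, h1, N, ?_⟩
  intro V _ G hV hS
  refine hN V (Set (V × V)) G (orbl G) hV (orbl_coherent G) ?_ ?_
  · intro x
    obtain ⟨S, hSr, hS⟩ := hS x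
    have hsub : Set.range (orbl G x) ⊆ (orbl G x) '' (S : Set V) := by
      rintro _ ⟨y, rfl⟩
      obtain ⟨g, hgx, hgy⟩ := hS y
      refine ⟨g y, hgy, ?_⟩
      have h2 := orbl_map G g x y
      rw [hgx] at h2
      exact h2
    have hfin : ((orbl G x) '' (S : Set V)).Finite := S.finite_toSet.image _
    calc (Set.range (orbl G x)).ncard ≤ ((orbl G x) '' (S : Set V)).ncard :=
          Set.ncard_le_ncard hsub hfin
      _ ≤ (S : Set V).ncard := Set.ncard_image_le S.finite_toSet
      _ = S.card := Set.ncard_coe_finset S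
      _ ≤ r := hSr
  · intro x y x' y' h
    obtain ⟨g, rfl, rfl⟩ := orbl_eq G h
    exact (g.map_adj_iff).symm

end Pool.Agent.BRW
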