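import Mathlib
import Pool.Agent.BRW.MGrp
import Pool.Agent.BRW.St2

set_option autoImplicit false

/-!
# Bounded rank and the width of counting logic: the orbital configuration (module GRP2)
-/

namespace Pool.Agent.BRW

/-- Module GRP2. -/
theorem grp2 (hMAIN2 : StmtMAIN2) : StmtGRP2 := by
  obtain ⟨A, N, hN⟩ := hMAIN2
  refine ⟨A, N, ?_⟩
  intro V _ G R hV hA hP
  refine hN V (Set (V × V)) G (orbl G) R hV hA (orbl_coherent G) ?_ ?_
  · obtain ⟨P, hPR, hP⟩ := hP
    have hsub : Set.range (fun p : V × V => orbl G p.1 p.2) ⊆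
        (fun p : V × V => orbl G p.1 p.2) '' (P : Set (V × V)) := by
      rintro _ ⟨p, rfl⟩
      obtain ⟨g, hg⟩ := hP p.1 p.2
      exact ⟨(g p.1, g p.2), hg, orbl_map G g p.1 p.2⟩
    have hfin : ((fun p : V × V => orbl G p.1 p.2) '' (P : Set (V × V))).Finite :=
      P.finite_toSet.image _
    calc (Set.range (fun p : V × V => orbl G p.1 p.2)).ncard ≤
          ((fun p : V × V => orbl G p.1 p.2) '' (P : Set (V × V))).ncard :=
          Set.ncard_le_ncard hsub hfin
      _ ≤ (P : Set (V × V)).ncard := Set.ncard_image_le P.finite_toSet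
      _ = P.card := Set.ncard_coe_finset P
      _ ≤ R := hPR
  · intro x y x' y' h
    obtain ⟨g, rfl, rfl⟩ := orbl_eq G h
    exact (g.map_adj_iff).symm

end Pool.Agent.BRW
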