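import Pool.Agent.BRW.St

set_option autoImplicit false

/-!
# Small hitting sets as tuples (module HIT)
-/

namespace Pool.Agent.BRW

open Finset

theorem hit : StmtHIT := by
  classical
  intro V _ D u t h
  have : Fintype V := Fintype.ofFinite V
  rw [Nat.card_eq_fintype_card] at h
  by_contra hcon
  push Not at hcon
  -- the tuples which avoid `D x y`
  let P : V × V → Finset (Fin t → V) := fun p =>
    Fintype.piFinset fun _ => univ.filter fun v => v ∉ D p.1 p.2
  let I : Finset (V × V) := univ.filter fun p => u ≤ (D p.1 p.2).ncard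
  have hsub : (univ : Finset (Fin t → V)) ⊆ I.biUnion P := by
    intro s _
    obtain ⟨x, y, hu, hs⟩ := hcon s
    refine mem_biUnion.2 ⟨(x, y), mem_filter.2 ⟨mem_univ _, hu⟩, ?_⟩
    exact Fintype.mem_piFinset.2 fun i => mem_filter.2 ⟨mem_univ _, hs i⟩
  have hP : ∀ p ∈ I, #(P p) ≤ (Fintype.card V - u) ^ t := by
    intro p hp
    have hu : u ≤ (D p.1 p.2).ncard := (mem_filter.1 hp).2
    have h1 : #(P p) = #(univ.filter fun v => v ∉ D p.1 p.2) ^ t := by
      simp only [P]
      rw [Fintype.card_piFinset_const]
    rw [h1]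
    refine Nat.pow_le_pow_left ?_ t
    have h2 : #(univ.filter fun v => v ∉ D p.1 p.2) + (D p.1 p.2).ncard = Fintype.card V := by
      rw [Set.ncard_eq_toFinset_card', ← card_univ,
        ← card_filter_add_card_filter_not (s := (univ : Finset V)) (fun v => v ∉ D p.1 p.2)]
      congr 2
      ext v
      simp
    omega
  have h1 := card_le_card hsub
  rw [card_univ, Fintype.card_fun, Fintype.card_fin] at h1
  have h2 := h1.trans (card_biUnion_le_card_mul I P _ hP)
  have h3 : #I ≤ Fintype.card V ^ 2 := by
    refine (card_le_univ I).trans ?_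
    rw [Fintype.card_prod, sq]
  have h4 : #I * (Fintype.card V - u) ^ t ≤ Fintype.card V ^ 2 * (Fintype.card V - u) ^ t :=
    Nat.mul_le_mul_right _ h3
  omega

end Pool.Agent.BRW
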