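import Mathlib
import Pool.Agent.BRW.St

/-!
# JOI: the finest common coarsening of two coherent configurations
-/

set_option autoImplicit false

namespace Pool.Agent.BRW

/-- JOI. -/
theorem joi (hCNT : StmtCNT) : StmtJOI := by
  intro V κ₁ κ₂ _ c₁ c₂ h₁ h₂
  classical
  let r : V × V → V × V → Prop :=
    fun p q => c₁ p.1 p.2 = c₁ q.1 q.2 ∨ c₂ p.1 p.2 = c₂ q.1 q.2
  let c₀ : V → V → Quot r := fun x y => Quot.mk r (x, y)
  have q1 : ∀ x y x' y', c₁ x y = c₁ x' y' → c₀ x y = c₀ x' y' :=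
    fun x y x' y' h => Quot.sound (Or.inl h)
  have q2 : ∀ x y x' y', c₂ x y = c₂ x' y' → c₀ x y = c₀ x' y' :=
    fun x y x' y' h => Quot.sound (Or.inr h)
  have key : ∀ (β : Type) (F : V → V → β),
      (∀ x y x' y', c₁ x y = c₁ x' y' → F x y = F x' y') →
      (∀ x y x' y', c₂ x y = c₂ x' y' → F x y = F x' y') →
      ∀ x y x' y', c₀ x y = c₀ x' y' → F x y = F x' y' := by
    intro β F f1 f2 x y x' y' h
    have hr : ∀ p q : V × V, r p q → F p.1 p.2 = F q.1 q.2 := by
      intro p q hpq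
      rcases hpq with hpq | hpq
      · exact f1 _ _ _ _ hpq
      · exact f2 _ _ _ _ hpq
    have h' := congrArg (Quot.lift (fun p : V × V => F p.1 p.2) hr) h
    exact h'
  have dg : ∀ {κ : Type} (c : V → V → κ), Coherent c → ∀ x y x' y', c x y = c x' y' →
      (x = y) = (x' = y') := by
    intro κ c hc x y x' y' h
    apply propext
    constructor
    · intro e
      subst e
      exact hc.diag _ _ _ h
    · intro e
      subst e
      exact hc.diag _ _ _ h.symm
  refine ⟨Quot r, c₀, ⟨?_, ?_, ?_⟩, q1, q2, ?_, ?_⟩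
  · intro x y z h
    have := key Prop (fun x y => x = y) (dg c₁ h₁) (dg c₂ h₂) x x y z h
    exact this.mp rfl
  · exact key (Quot r) (fun x y => c₀ y x)
      (fun x y x' y' h => q1 _ _ _ _ (h₁.symm _ _ _ _ h))
      (fun x y x' y' h => q2 _ _ _ _ (h₂.symm _ _ _ _ h))
  · intro x y x' y' h i j
    refine key ℕ (fun x y => Nat.card {z : V // c₀ x z = i ∧ c₀ z y = j}) ?_ ?_ x y x' y' h
    · intro x y x' y' h
      obtain ⟨e, he⟩ := hCNT V κ₁ c₁ h₁ x y x' y' h
      refine Nat.card_congr (Equiv.subtypeEquiv e fun z => ?_)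
      rw [q1 _ _ _ _ (he z).1, q1 _ _ _ _ (he z).2]
    · intro x y x' y' h
      obtain ⟨e, he⟩ := hCNT V κ₂ c₂ h₂ x y x' y' h
      refine Nat.card_congr (Equiv.subtypeEquiv e fun z => ?_)
      rw [q2 _ _ _ _ (he z).1, q2 _ _ _ _ (he z).2]
  · intro P p1 p2 x y x' y' h
    have := key Prop P (fun x y x' y' h => propext (p1 x y x' y' h))
      (fun x y x' y' h => propext (p2 x y x' y' h)) x y x' y' h
    exact iff_of_eq this
  · intro n hn x
    refine le_trans ?_ (hn x)
    let φ : κ₂ → Quot r := fun k => if h : ∃ y, c₂ x y = k then c₀ x h.choose else c₀ x x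
    have hsub : Set.range (c₀ x) ⊆ φ '' Set.range (c₂ x) := by
      rintro _ ⟨y, rfl⟩
      refine ⟨c₂ x y, ⟨y, rfl⟩, ?_⟩
      have hex : ∃ z, c₂ x z = c₂ x y := ⟨y, rfl⟩
      have : φ (c₂ x y) = c₀ x hex.choose := dif_pos hex
      rw [this]
      exact q2 _ _ _ _ hex.choose_spec
    exact (Set.ncard_le_ncard hsub ((Set.finite_range _).image _)).trans
      (Set.ncard_image_le (Set.finite_range _))

end Pool.Agent.BRW
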