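import Mathlib
import Pool.Agent.BRW.Defs
import Pool.Agent.BRW.St

set_option autoImplicit false

/-!
# BRW: module LGC (large colours)
-/

namespace Pool.Agent.BRW

theorem lgc (hCNT : StmtCNT) (hVAL : StmtVAL) (_hCLA : StmtCLA) : StmtLGC := by
  classical
  intro V κ _ c ℓ x₀ y₀ hc hℓ hLB y z hy hz
  have : Fintype V := Fintype.ofFinite V
  obtain ⟨_, hV2, hV3, _⟩ := hVAL V κ c hc
  have hdd : dd c x₀ y₀ ≤ ℓ := hLB.1.2.2
  have hN : Nat.card {w : V // c y w = c x₀ y₀} = val c x₀ y₀ := hV3 x₀ y₀ y hy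
  set s : Finset V := Finset.univ.filter (fun u => c y u = c x₀ y₀) with hs
  set t : Finset V := Finset.univ.filter (fun w => c y w = c y z) with ht
  have hscard : s.card = val c x₀ y₀ := by
    rw [← hN, Nat.card_eq_fintype_card, Fintype.card_subtype]
  have htcard : t.card = val c y z := by
    unfold val
    rw [Nat.card_eq_fintype_card, Fintype.card_subtype]
  have hdc := Finset.sum_card_bipartiteAbove_eq_sum_card_bipartiteBelow
    (s := s) (t := t) (fun u w => c u w ≠ c y z)
  -- each `u` in `s`: few `w`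
  have h1 : ∀ u ∈ s, (t.bipartiteAbove (fun u w => c u w ≠ c y z) u).card ≤ ℓ := by
    intro u hu
    have hu' : c y u = c x₀ y₀ := by
      rw [hs, Finset.mem_filter] at hu
      exact hu.2
    have h2 : dd c y u ≤ ℓ := by
      rw [(hV2 y u x₀ y₀ hu').2]
      exact hdd
    refine le_trans ?_ h2
    unfold dd
    rw [Nat.card_eq_fintype_card, Fintype.card_subtype]
    apply Finset.card_le_card
    intro w hw
    rw [Finset.mem_bipartiteAbove, ht, Finset.mem_filter] at hw
    rw [Finset.mem_filter]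
    refine ⟨Finset.mem_univ _, fun h => hw.2 ?_⟩
    rw [← hw.1.2]
    exact (hc.symm w y w u h).symm
  -- each `w` in `t`: the number of `u` is constant
  have h3 : ∀ w ∈ t, (s.bipartiteBelow (fun u w => c u w ≠ c y z) w).card =
      Nat.card {u : V // c y u = c x₀ y₀ ∧ c u z ≠ c y z} := by
    intro w hw
    have hw' : c y w = c y z := by
      rw [ht, Finset.mem_filter] at hw
      exact hw.2
    obtain ⟨e, he⟩ := hCNT V κ c hc y w y z hw'
    rw [Nat.card_eq_fintype_card, Fintype.card_subtype]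
    apply Finset.card_bij (fun u _ => e u)
    · intro u hu
      rw [Finset.mem_bipartiteBelow, hs, Finset.mem_filter] at hu
      rw [Finset.mem_filter]
      refine ⟨Finset.mem_univ _, ?_, ?_⟩
      · rw [(he u).1]; exact hu.1.2
      · rw [(he u).2]; exact hu.2
    · intro u _ v _ h
      exact e.injective h
    · intro v hv
      rw [Finset.mem_filter] at hv
      refine ⟨e.symm v, ?_, by simp⟩
      rw [Finset.mem_bipartiteBelow, hs, Finset.mem_filter]
      have h4 := he (e.symm v)
      rw [Equiv.apply_symm_apply] at h4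
      refine ⟨⟨Finset.mem_univ _, ?_⟩, ?_⟩
      · rw [← h4.1]; exact hv.2.1
      · rw [← h4.2]; exact hv.2.2
  have h5 : ∑ u ∈ s, (t.bipartiteAbove (fun u w => c u w ≠ c y z) u).card ≤ s.card * ℓ := by
    calc ∑ u ∈ s, (t.bipartiteAbove (fun u w => c u w ≠ c y z) u).card
        ≤ ∑ _u ∈ s, ℓ := Finset.sum_le_sum h1
      _ = s.card * ℓ := by rw [Finset.sum_const, smul_eq_mul]
  rw [hdc, Finset.sum_congr rfl h3, Finset.sum_const, smul_eq_mul, hscard, htcard] at h5
  set ρ := Nat.card {u : V // c y u = c x₀ y₀ ∧ c u z ≠ c y z} with hρ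
  have h6 : ρ * ℓ ^ 3 * ℓ ≤ val c x₀ y₀ * ℓ := by
    calc ρ * ℓ ^ 3 * ℓ = ℓ ^ 4 * ρ := by ring
      _ ≤ val c y z * ρ := Nat.mul_le_mul_right _ hz.le
      _ ≤ val c x₀ y₀ * ℓ := h5
  exact Nat.le_of_mul_le_mul_right h6 (by omega)

end Pool.Agent.BRW
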