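import Mathlib
import Pool.Agent.BRW.St

set_option autoImplicit false

namespace Pool.Agent.BRW

theorem main (hTYC : StmtTYC) (hCEL : StmtCEL) (hJOI : StmtJOI) (hTWO : StmtTWO)
    (hEQV : StmtEQV) (hGAP : StmtGAP) (hHIT : StmtHIT) (hNUM : StmtNUM) : StmtMAIN := by
  intro r
  obtain ⟨γ, hγ0, hγ1, N, hN⟩ := hNUM r
  refine ⟨γ, hγ0, hγ1, N, ?_⟩
  intro V κ _ G c hcard hc hr hG
  obtain ⟨m, hm, hj⟩ := hN (Fintype.card V) hcard
  set k : ℕ := ⌊(Fintype.card V : ℝ) ^ (1 - γ)⌋₊ with hkdef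
  refine ⟨k, Nat.floor_le (by positivity), ?_⟩
  -- the configuration of the types without parameters
  obtain ⟨t0, -, ht0⟩ := hj 0 (Nat.zero_le _)
  have hk3 : 0 + 3 ≤ k := by omega
  obtain ⟨hT, -, hTadj, -, -⟩ := hTYC V k 0 G (fun i => i.elim0) hk3
  obtain ⟨κ₀, c₀, hc0, hc01, hc02, hc0P, hc0r⟩ := hJOI V _ κ _ c hT hc
  have hr0 := hc0r r hr
  have hadj : ∀ x y x' y', c₀ x y = c₀ x' y' → (G.Adj x y ↔ G.Adj x' y') :=
    hc0P G.Adj (fun x y x' y' h => hTadj x y x' y' h) hG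
  have hm2 : 2 ≤ m := by nlinarith [Nat.zero_le r]
  obtain ⟨j, hjr, hgap⟩ := hGAP V κ₀ c₀ r m hc0 hr0 hm2
  set ℓ : ℕ := m ^ 4 ^ j with hℓ
  have hmℓ : m ≤ ℓ := by
    rw [hℓ]
    exact Nat.le_self_pow (by positivity) m
  have hℓ1 : 100 * (r + 1) ^ 2 ≤ ℓ := le_trans hm hmℓ
  have hℓ2 : 100 ≤ ℓ := by nlinarith [Nat.zero_le r]
  obtain ⟨t, hthit, htk⟩ := hj j hjr
  obtain ⟨s, hs⟩ := hHIT V (fun x y => {z : V | c₀ z x ≠ c₀ z y}) (ℓ ^ 4) t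
    (by rw [Nat.card_eq_fintype_card]; exact hthit)
  have hk2 : t + 3 ≤ k := by
    have : 0 ≤ r * m ^ 4 ^ j := Nat.zero_le _
    omega
  obtain ⟨hc', -, -, hforget, hpar⟩ := hTYC V k t G s hk2
  have href : ∀ x y x' y', typ k G t s x y = typ k G t s x' y' → c₀ x y = c₀ x' y' :=
    fun x y x' y' h => hc01 x y x' y' (hforget x y x' y' h)
  have hbad : ∀ x y, x ≠ y → typ k G t s x x = typ k G t s y y → Bad c₀ ℓ x y := by
    intro x y hxy h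
    refine ⟨hxy, href x x y y h, ?_⟩
    rcases hgap.2 x y (href x x y y h) with h1 | h1
    · exact h1
    · exfalso
      have h2 : ℓ ^ 4 ≤ ({z : V | c₀ z x ≠ c₀ z y} : Set V).ncard := le_of_lt h1
      obtain ⟨i, hi⟩ := hs x y h2
      exact hi (hc01 _ _ _ _ (hpar i x y h))
  obtain ⟨hE, hEcard, hEinv⟩ := hEQV V κ₀ c₀ ℓ r hc0 hr0 hgap hℓ2
  have hcel := hCEL V k t (r * ℓ) G s (Sm c₀ ℓ) htk hE hEcard
    (fun x y x' y' h => hEinv x y x' y' (href x y x' y' h))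
    (fun x z x1 z1 h1 h2 h3 h4 =>
      hadj x z x1 z1 (hTWO V κ₀ _ c₀ (typ k G t s) ℓ r hc0 hc' href hr0 hgap hℓ1 hbad
        x x1 z z1 h1 h2 h3 h4))
  exact hcel

end Pool.Agent.BRW
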