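import Mathlib
import Pool.Agent.BRW.St2

set_option autoImplicit false

namespace Pool.Agent.BRW

theorem main2 (hTYC : StmtTYC) (hCEL : StmtCEL) (hJOI : StmtJOI) (hTWO : StmtTWO)
    (hEQV : StmtEQV) (hGAP2 : StmtGAP2) (hHIT : StmtHIT) (hNUM2 : StmtNUM2) : StmtMAIN2 := by
  obtain ⟨A, N, hN⟩ := hNUM2
  refine ⟨A, N, ?_⟩
  intro V κ _ G c R hcard hAR hc hr hG
  obtain ⟨m, hm, hj⟩ := hN R (Fintype.card V) hcard hAR
  set k : ℕ := ⌊(Fintype.card V : ℝ) ^ (1 - 1 / (4 : ℝ) ^ (2 * R + 2))⌋₊ with hkdef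
  refine ⟨k, Nat.floor_le (by positivity), ?_⟩
  -- the configuration of the types without parameters
  obtain ⟨t0, -, ht0⟩ := hj 0 (Nat.zero_le _)
  have hk3 : 0 + 3 ≤ k := by omega
  obtain ⟨hT, -, hTadj, -, -⟩ := hTYC V k 0 G (fun i => i.elim0) hk3
  obtain ⟨κ₀, c₀, hc0, hc01, hc02, hc0P, hc0r⟩ := hJOI V _ κ _ c hT hc
  have hfac : ∃ g : κ → κ₀, ∀ p : V × V, c₀ p.1 p.2 = g (c p.1 p.2) ∨ IsEmpty V := by
    rcases isEmpty_or_nonempty V with hV | hV
    · by_cases h : Nonempty κ₀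
      · exact ⟨fun _ => h.some, fun p => Or.inr hV⟩
      · rw [not_nonempty_iff] at h
        exfalso
        have h5 : Fintype.card V = 0 := Fintype.card_eq_zero
        have h6 : k = 0 := by
          rw [hkdef, h5]
          have h7 : (1 : ℝ) - 1 / (4 : ℝ) ^ (2 * R + 2) ≠ 0 := by
            have h8 : (1 : ℝ) / (4 : ℝ) ^ (2 * R + 2) < 1 := by
              rw [div_lt_one (by positivity)]
              exact one_lt_pow₀ (by norm_num) (by omega)
            linarith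
          simp only [Nat.cast_zero]
          rw [Real.zero_rpow h7]
          simp
        omega
    · classical
      have v : V := hV.some
      refine ⟨fun i => if h : ∃ p : V × V, c p.1 p.2 = i then c₀ h.choose.1 h.choose.2
        else c₀ v v, fun p => Or.inl ?_⟩
      have h : ∃ q : V × V, c q.1 q.2 = c p.1 p.2 := ⟨p, rfl⟩
      simp only [h, dif_pos]
      exact hc02 _ _ _ _ h.choose_spec.symm
  have hrank0 : (Set.range (fun p : V × V => c₀ p.1 p.2)).ncard ≤ R := by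
    obtain ⟨g, hg⟩ := hfac
    have h1 : Set.range (fun p : V × V => c₀ p.1 p.2) ⊆
        g '' (Set.range (fun p : V × V => c p.1 p.2)) := by
      rintro i ⟨p, rfl⟩
      refine ⟨c p.1 p.2, ⟨p, rfl⟩, ?_⟩
      rcases hg p with h | h
      · exact h.symm
      · exact (h.false p.1).elim
    calc _ ≤ (g '' (Set.range (fun p : V × V => c p.1 p.2))).ncard :=
          Set.ncard_le_ncard h1 ((Set.finite_range _).image _)
      _ ≤ (Set.range (fun p : V × V => c p.1 p.2)).ncard :=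
          Set.ncard_image_le (Set.finite_range _)
      _ ≤ R := hr
  have hr0 : Rows c₀ R := by
    intro x
    refine le_trans (Set.ncard_le_ncard ?_ (Set.finite_range _)) hrank0
    rintro i ⟨y, rfl⟩
    exact ⟨(x, y), rfl⟩
  have hadj : ∀ x y x' y', c₀ x y = c₀ x' y' → (G.Adj x y ↔ G.Adj x' y') :=
    hc0P G.Adj (fun x y x' y' h => hTadj x y x' y' h) hG
  have hm2 : 2 ≤ m := by nlinarith [Nat.zero_le R]
  obtain ⟨j, hjr, hgap⟩ := hGAP2 V κ₀ c₀ R m hc0 hrank0 hm2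
  set ℓ : ℕ := m ^ 4 ^ j with hℓ
  have hmℓ : m ≤ ℓ := by
    rw [hℓ]
    exact Nat.le_self_pow (by positivity) m
  have hℓ1 : 100 * (R + 1) ^ 2 ≤ ℓ := le_trans hm hmℓ
  have hℓ2 : 100 ≤ ℓ := by nlinarith [Nat.zero_le R]
  obtain ⟨t, hthit, htk⟩ := hj j hjr
  obtain ⟨s, hs⟩ := hHIT V (fun x y => {z : V | c₀ z x ≠ c₀ z y}) (ℓ ^ 4) t
    (by rw [Nat.card_eq_fintype_card]; exact hthit)
  have hk2 : t + 3 ≤ k := by
    have : 0 ≤ R * m ^ 4 ^ j := Nat.zero_le _
    omega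
  obtain ⟨hc', -, -, hforget, hpar⟩ := hTYC V k t G s hk2
  have href : ∀ x y x' y', typ k G t s x y = typ k G t s x' y' → c₀ x y = c₀ x' y' :=
    fun x y x' y' h => hc01 x y x' y' (hforget x y x' y' h)
  have hbad : ∀ x y, x ≠ y → typ k G t s x x = typ k G t s y y → Bad c₀ ℓ x y := by
    intro x y hxy h
    refine ⟨hxy, href x x y y h, ?_⟩
    rcases hgap.2 x y (href x x y y h) with h1 | h1
    · exact h1
    · exfalso
      have h2 : ℓ ^ 4 ≤ ({z : V | c₀ z x ≠ c₀ z y} : Set V).ncard := le_of_lt h1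
      obtain ⟨i, hi⟩ := hs x y h2
      exact hi (hc01 _ _ _ _ (hpar i x y h))
  obtain ⟨hE, hEcard, hEinv⟩ := hEQV V κ₀ c₀ ℓ R hc0 hr0 hgap hℓ2
  have hcel := hCEL V k t (R * ℓ) G s (Sm c₀ ℓ) htk hE hEcard
    (fun x y x' y' h => hEinv x y x' y' (href x y x' y' h))
    (fun x z x1 z1 h1 h2 h3 h4 =>
      hadj x z x1 z1 (hTWO V κ₀ _ c₀ (typ k G t s) ℓ R hc0 hc' href hr0 hgap hℓ1 hbad
        x x1 z z1 h1 h2 h3 h4))
  exact hcel

end Pool.Agent.BRW
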