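import Mathlib
import Pool.Agent.BRW.Defs
import Pool.Agent.BRW.St

set_option autoImplicit false

/-!
# Module NUM: the asymptotic inequality for the parameters
-/

namespace Pool.Agent.BRW

open Filter Asymptotics

/-- The counting inequality for one `n` and one `ℓ`. -/
theorem num_step (n L : ℕ) (hn : 2 ≤ n) (hL : 1 ≤ L) (hLn : L ≤ n) :
    n ^ 2 * (n - L) ^ ⌈3 * (n : ℝ) * Real.log n / L⌉₊ < n ^ ⌈3 * (n : ℝ) * Real.log n / L⌉₊ := by
  set t := ⌈3 * (n : ℝ) * Real.log n / L⌉₊ with ht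
  have hn0 : (0 : ℝ) < n := by exact_mod_cast (by omega : 0 < n)
  have hL0 : (0 : ℝ) < L := by exact_mod_cast hL
  have htr : 3 * (n : ℝ) * Real.log n / L ≤ t := Nat.le_ceil _
  have h1 : 3 * Real.log n ≤ t * ((L : ℝ) / n) := by
    have h2 : 3 * (n : ℝ) * Real.log n ≤ t * L := by
      have := (div_le_iff₀ hL0).1 htr
      linarith
    rw [← mul_div_assoc, le_div_iff₀ hn0]
    linarith
  have h3 : (1 - (L : ℝ) / n) ^ t ≤ Real.exp (-(3 * Real.log n)) := by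
    have h4 : 1 - (L : ℝ) / n ≤ Real.exp (-((L : ℝ) / n)) := Real.one_sub_le_exp_neg _
    have h5 : 0 ≤ 1 - (L : ℝ) / n := by
      rw [sub_nonneg, div_le_one hn0]; exact_mod_cast hLn
    calc (1 - (L : ℝ) / n) ^ t ≤ (Real.exp (-((L : ℝ) / n))) ^ t := pow_le_pow_left₀ h5 h4 t
      _ = Real.exp (-(t * ((L : ℝ) / n))) := by rw [← Real.exp_nat_mul]; congr 1; ring
      _ ≤ Real.exp (-(3 * Real.log n)) := Real.exp_le_exp.2 (neg_le_neg h1)
  have h6 : Real.exp (-(3 * Real.log n)) = ((n : ℝ) ^ 3)⁻¹ := by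
    rw [Real.exp_neg, mul_comm, Real.exp_mul, Real.exp_log hn0]
    norm_cast
  rw [h6] at h3
  have h7 : ((n : ℝ) - L) ^ t ≤ n ^ t * ((n : ℝ) ^ 3)⁻¹ := by
    have h8 : ((n : ℝ) - L) = n * (1 - (L : ℝ) / n) := by field_simp
    rw [h8, mul_pow]
    exact mul_le_mul_of_nonneg_left h3 (by positivity)
  have h9 : (n : ℝ) ^ 2 * ((n : ℝ) - L) ^ t < n ^ t := by
    have hn2 : (2 : ℝ) ≤ n := by exact_mod_cast hn
    calc (n : ℝ) ^ 2 * ((n : ℝ) - L) ^ t ≤ (n : ℝ) ^ 2 * (n ^ t * ((n : ℝ) ^ 3)⁻¹) :=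
          mul_le_mul_of_nonneg_left h7 (by positivity)
      _ = n ^ t * (n : ℝ)⁻¹ := by field_simp
      _ < n ^ t * 1 := by
          apply mul_lt_mul_of_pos_left _ (by positivity)
          exact inv_lt_one_of_one_lt₀ (by linarith)
      _ = n ^ t := mul_one _
  have h10 : ((n ^ 2 * (n - L) ^ t : ℕ) : ℝ) < ((n ^ t : ℕ) : ℝ) := by
    push_cast [Nat.cast_sub hLn]
    exact h9
  exact_mod_cast h10

theorem num : StmtNUM := by
  intro r
  set K : ℕ := 4 ^ (2 * r ^ 2 + 1) with hK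
  have hK4 : 4 ≤ K := by
    rw [hK, pow_succ]
    have : 1 ≤ 4 ^ (2 * r ^ 2) := Nat.one_le_pow _ _ (by norm_num)
    omega
  have hKr : (4 : ℝ) ≤ K := by exact_mod_cast hK4
  set a : ℝ := 1 / (2 * K) with ha
  have ha0 : 0 < a := by positivity
  have ha1 : a ≤ 1 / 8 := by
    rw [ha]
    apply one_div_le_one_div_of_le (by norm_num)
    linarith
  refine ⟨a / 2, by positivity, by linarith, ?_⟩
  -- the eventual inequalities
  have hc : Tendsto (fun n : ℕ => (n : ℝ)) atTop atTop := tendsto_natCast_atTop_atTop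
  have e1 : ∀ᶠ n : ℕ in atTop, 2 * (100 * (r + 1 : ℝ) ^ 2 + 1) ≤ (n : ℝ) ^ a :=
    ((tendsto_rpow_atTop ha0).comp hc).eventually_ge_atTop _
  have e2 : ∀ᶠ n : ℕ in atTop, 4 * (r : ℝ) ≤ (n : ℝ) ^ (1 / 2 - a / 2) :=
    ((tendsto_rpow_atTop (by linarith)).comp hc).eventually_ge_atTop _
  have e3 : ∀ᶠ n : ℕ in atTop, 16 ≤ (n : ℝ) ^ (1 - a / 2) :=
    ((tendsto_rpow_atTop (by linarith)).comp hc).eventually_ge_atTop _
  have e4 : ∀ᶠ n : ℕ in atTop, 24 * Real.log n ≤ (n : ℝ) ^ (a / 2) := by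
    have h := (isLittleO_log_rpow_atTop (show 0 < a / 2 by positivity)).bound
      (show (0 : ℝ) < 1 / 24 by norm_num)
    have h' := hc.eventually h
    filter_upwards [h', eventually_ge_atTop 1] with n hn hn1
    have h1 : (1 : ℝ) ≤ n := by exact_mod_cast hn1
    rw [Real.norm_of_nonneg (Real.log_nonneg h1),
      Real.norm_of_nonneg (Real.rpow_nonneg (by positivity) _)] at hn
    linarith
  obtain ⟨N, hN⟩ := eventually_atTop.1 (e1.and (e2.and (e3.and e4)))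
  refine ⟨max N 2, fun n hn => ?_⟩
  obtain ⟨h1, h2, h3, h4⟩ := hN n ((le_max_left _ _).trans hn)
  have hn2 : 2 ≤ n := (le_max_right _ _).trans hn
  have hn1 : (1 : ℝ) ≤ n := by exact_mod_cast (by omega : 1 ≤ n)
  have hn0 : (0 : ℝ) < n := by linarith
  have hna : (0 : ℝ) < (n : ℝ) ^ a := Real.rpow_pos_of_pos hn0 _
  set m := ⌊(n : ℝ) ^ a⌋₊ with hm
  have hm1 : (m : ℝ) ≤ (n : ℝ) ^ a := Nat.floor_le hna.le
  have hm2 : (n : ℝ) ^ a < m + 1 := Nat.lt_floor_add_one _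
  have hr0 : (0 : ℝ) ≤ 100 * (r + 1 : ℝ) ^ 2 := by positivity
  have hm3 : (n : ℝ) ^ a / 2 ≤ m := by linarith
  have hm4 : 100 * (r + 1) ^ 2 ≤ m := by
    have : (100 * (r + 1 : ℝ) ^ 2) ≤ m := by linarith
    exact_mod_cast this
  have hmpos : 1 ≤ m := by
    have : 1 ≤ (r + 1) ^ 2 := Nat.one_le_pow _ _ (by omega)
    omega
  refine ⟨m, hm4, fun j hj => ?_⟩
  set l := m ^ 4 ^ j with hl
  have hl1 : 1 ≤ l := Nat.one_le_pow _ _ hmpos
  have hlm : m ≤ l ^ 4 := by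
    calc m = m ^ 1 := (pow_one m).symm
      _ ≤ m ^ (4 ^ j * 4) := Nat.pow_le_pow_right hmpos (by
          have : 1 ≤ 4 ^ j := Nat.one_le_pow _ _ (by norm_num)
          omega)
      _ = l ^ 4 := by rw [hl, pow_mul]
  have hlK : l ^ 4 ≤ m ^ K := by
    rw [hl, ← pow_mul, hK, pow_succ]
    exact Nat.pow_le_pow_right hmpos (Nat.mul_le_mul_right _
      (Nat.pow_le_pow_right (by norm_num) hj))
  have hhalf : ((n : ℝ) ^ a) ^ K = (n : ℝ) ^ (1 / 2 : ℝ) := by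
    rw [← Real.rpow_natCast, ← Real.rpow_mul hn0.le]
    congr 1
    rw [ha]; field_simp
  have hl4 : ((l : ℝ)) ^ 4 ≤ (n : ℝ) ^ (1 / 2 : ℝ) := by
    have : ((l : ℝ)) ^ 4 ≤ (m : ℝ) ^ K := by exact_mod_cast hlK
    refine this.trans ?_
    rw [← hhalf]
    exact pow_le_pow_left₀ (by positivity) hm1 K
  have hln : l ^ 4 ≤ n := by
    have h5 : (n : ℝ) ^ (1 / 2 : ℝ) ≤ n := by
      calc (n : ℝ) ^ (1 / 2 : ℝ) ≤ (n : ℝ) ^ (1 : ℝ) :=
            Real.rpow_le_rpow_of_exponent_le hn1 (by norm_num)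
        _ = n := Real.rpow_one _
    exact_mod_cast hl4.trans h5
  have hll : (l : ℝ) ≤ (n : ℝ) ^ (1 / 2 : ℝ) := by
    refine le_trans ?_ hl4
    have : l ≤ l ^ 4 := by
      calc l = l ^ 1 := (pow_one l).symm
        _ ≤ l ^ 4 := Nat.pow_le_pow_right hl1 (by norm_num)
    exact_mod_cast this
  refine ⟨_, num_step n (l ^ 4) hn2 (Nat.one_le_pow _ _ hl1) hln, ?_⟩
  apply Nat.le_floor
  have hlog : 0 ≤ Real.log n := Real.log_nonneg hn1
  have ht : (⌈3 * (n : ℝ) * Real.log n / ((l ^ 4 : ℕ) : ℝ)⌉₊ : ℝ) ≤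
      6 * n * Real.log n / (n : ℝ) ^ a + 1 := by
    refine (Nat.ceil_lt_add_one (by positivity)).le.trans (add_le_add ?_ le_rfl)
    have h5 : (n : ℝ) ^ a / 2 ≤ ((l ^ 4 : ℕ) : ℝ) :=
      hm3.trans (by exact_mod_cast hlm)
    calc 3 * (n : ℝ) * Real.log n / ((l ^ 4 : ℕ) : ℝ)
        ≤ 3 * (n : ℝ) * Real.log n / ((n : ℝ) ^ a / 2) :=
          div_le_div_of_nonneg_left (by positivity) (by positivity) h5
      _ = 6 * n * Real.log n / (n : ℝ) ^ a := by field_simp; ring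
  have hA : 6 * n * Real.log n / (n : ℝ) ^ a ≤ (n : ℝ) ^ (1 - a / 2) / 4 := by
    rw [div_le_iff₀ hna]
    have h6 : (n : ℝ) ^ (1 - a / 2) * (n : ℝ) ^ a = n * (n : ℝ) ^ (a / 2) := by
      rw [← Real.rpow_add hn0]
      nth_rewrite 2 [← Real.rpow_one (n : ℝ)]
      rw [← Real.rpow_add hn0]
      congr 1; ring
    have h7 : 24 * Real.log n * n ≤ (n : ℝ) ^ (a / 2) * n :=
      mul_le_mul_of_nonneg_right h4 hn0.le
    nlinarith [h6, h7]
  have hB : (r : ℝ) * (n : ℝ) ^ (1 / 2 : ℝ) ≤ (n : ℝ) ^ (1 - a / 2) / 4 := by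
    have h6 : (n : ℝ) ^ (1 - a / 2) = (n : ℝ) ^ (1 / 2 - a / 2) * (n : ℝ) ^ (1 / 2 : ℝ) := by
      rw [← Real.rpow_add hn0]; congr 1; ring
    rw [h6]
    have h7 : (0 : ℝ) ≤ (n : ℝ) ^ (1 / 2 : ℝ) := Real.rpow_nonneg hn0.le _
    nlinarith [mul_le_mul_of_nonneg_right h2 h7]
  have hC : (r : ℝ) * l ≤ (r : ℝ) * (n : ℝ) ^ (1 / 2 : ℝ) :=
    mul_le_mul_of_nonneg_left hll (by positivity)
  push_cast
  push_cast at ht
  have hD : (0 : ℝ) ≤ (n : ℝ) ^ (1 - a / 2) := Real.rpow_nonneg hn0.le _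
  linarith

end Pool.Agent.BRW
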