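import Mathlib
import Pool.Agent.BRW.St2

set_option autoImplicit false

/-!
# The numbers in the uniform form (module NUM2 of MP_87b449_lc)   (helper8)
-/

namespace Pool.Agent.BRW

namespace Num2

open Real Filter

theorem ev : ∃ S : ℝ, 2 ≤ S ∧ ∀ s : ℝ, S ≤ s → 100 * s ^ 8 + 1 ≤ Real.exp (s / 8) := by
  have h := (isLittleO_pow_exp_pos_mul_atTop (k := 8) (b := 1 / 8) (by norm_num)).def
    (c := 1 / 101) (by norm_num)
  obtain ⟨S, hS⟩ := Filter.eventually_atTop.1 h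
  refine ⟨max S 2, le_max_right _ _, fun s hs => ?_⟩
  have h1 := hS s (le_trans (le_max_left _ _) hs)
  have h2 : (2 : ℝ) ≤ s := le_trans (le_max_right _ _) hs
  rw [Real.norm_of_nonneg (by positivity), Real.norm_of_nonneg (by positivity)] at h1
  have h3 : (1 : ℝ) ≤ s ^ 8 := one_le_pow₀ (by linarith)
  have h4 : Real.exp (s / 8) = Real.exp (1 / 8 * s) := by ring_nf
  rw [h4]; linarith

/-- The count of the parameters: `n² (n - ℓ⁴)^t < n^t`. -/
theorem hit (n l t : ℕ) (L : ℝ) (hL : 0 < L) (hn : (n : ℝ) = Real.exp L) (hl : l ^ 4 ≤ n)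
    (ht : 3 * (n : ℝ) * L ≤ t * (l : ℝ) ^ 4) : n ^ 2 * (n - l ^ 4) ^ t < n ^ t := by
  have hn0 : (0 : ℝ) < n := by rw [hn]; exact Real.exp_pos L
  have hc : (((n - l ^ 4 : ℕ)) : ℝ) = (n : ℝ) - (l : ℝ) ^ 4 := by
    rw [Nat.cast_sub hl]; push_cast; ring
  have h1 : (n : ℝ) - (l : ℝ) ^ 4 ≤ n * Real.exp (-((l : ℝ) ^ 4 / n)) := by
    have h2 := Real.add_one_le_exp (-((l : ℝ) ^ 4 / n))
    have h3 : (n : ℝ) * (-((l : ℝ) ^ 4 / n) + 1) = (n : ℝ) - (l : ℝ) ^ 4 := by
      field_simp; ring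
    rw [← h3]; exact mul_le_mul_of_nonneg_left h2 hn0.le
  have h0 : 0 ≤ (n : ℝ) - (l : ℝ) ^ 4 := by
    have : ((l ^ 4 : ℕ) : ℝ) ≤ n := by exact_mod_cast hl
    push_cast at this; linarith
  have h4 : ((n : ℝ) - (l : ℝ) ^ 4) ^ t ≤ (n : ℝ) ^ t * Real.exp (-(3 * L)) := by
    calc ((n : ℝ) - (l : ℝ) ^ 4) ^ t ≤ (n * Real.exp (-((l : ℝ) ^ 4 / n))) ^ t :=
          pow_le_pow_left₀ h0 h1 t
      _ = (n : ℝ) ^ t * Real.exp (t * (-((l : ℝ) ^ 4 / n))) := by
          rw [mul_pow, ← Real.exp_nat_mul]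
      _ ≤ (n : ℝ) ^ t * Real.exp (-(3 * L)) := by
          apply mul_le_mul_of_nonneg_left _ (by positivity)
          apply Real.exp_le_exp.2
          have h5 : 3 * L ≤ t * ((l : ℝ) ^ 4 / n) := by
            rw [← mul_div_assoc, le_div_iff₀ hn0]; linarith
          linarith
  have h6 : (n : ℝ) ^ 2 * ((n : ℝ) - (l : ℝ) ^ 4) ^ t < (n : ℝ) ^ t := by
    have hp : (0 : ℝ) < (n : ℝ) ^ t := by positivity
    have h7 : (n : ℝ) ^ 2 = Real.exp (2 * L) := by
      rw [hn, ← Real.exp_nat_mul]; norm_num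
    calc (n : ℝ) ^ 2 * ((n : ℝ) - (l : ℝ) ^ 4) ^ t
        ≤ (n : ℝ) ^ 2 * ((n : ℝ) ^ t * Real.exp (-(3 * L))) :=
          mul_le_mul_of_nonneg_left h4 (by positivity)
      _ = (n : ℝ) ^ t * Real.exp (-L) := by
          rw [h7, mul_left_comm, ← Real.exp_add]; congr 2; ring
      _ < (n : ℝ) ^ t * 1 := by
          apply mul_lt_mul_of_pos_left _ hp
          rw [Real.exp_lt_one_iff]; linarith
      _ = (n : ℝ) ^ t := mul_one _
  have h8 : ((n ^ 2 * (n - l ^ 4) ^ t : ℕ) : ℝ) < ((n ^ t : ℕ) : ℝ) := by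
    rw [Nat.cast_mul, Nat.cast_pow, Nat.cast_pow, hc, Nat.cast_pow]; exact h6
  exact_mod_cast h8

/-- All inequalities in terms of `s = (log n)^(1/4)`. -/
theorem core (R n : ℕ) (s L : ℝ) (h2 : 2 ≤ s) (hs : 100 * s ^ 8 + 1 ≤ Real.exp (s / 8))
    (hL : L = s ^ 4) (hn : (n : ℝ) = Real.exp L) (hR : (16 : ℝ) ^ R ≤ s) :
    ∃ m : ℕ, 100 * (R + 1) ^ 2 ≤ m ∧ ∀ j : ℕ, j ≤ 2 * R →
      ∃ t : ℕ, n ^ 2 * (n - (m ^ 4 ^ j) ^ 4) ^ t < n ^ t ∧
        t + R * m ^ 4 ^ j + 3 ≤ ⌊(n : ℝ) ^ (1 - 1 / (4 : ℝ) ^ (2 * R + 2))⌋₊ := by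
  have hL0 : 0 < L := by rw [hL]; positivity
  have hR16 : (R : ℝ) + 1 ≤ (16 : ℝ) ^ R := by
    have h := one_add_mul_le_pow (a := (15 : ℝ)) (by norm_num) R
    have h' : (1 : ℝ) + 15 = 16 := by norm_num
    rw [h'] at h
    have : (0 : ℝ) ≤ R := Nat.cast_nonneg R
    linarith
  have hRs : (R : ℝ) + 1 ≤ s := hR16.trans hR
  set P : ℝ := (16 : ℝ) ^ R with hP
  have hP1 : 1 ≤ P := one_le_pow₀ (by norm_num)
  have hP0 : 0 < P := by linarith
  have hs4 : s ≤ L := by rw [hL]; exact le_self_pow₀ (by linarith) (by norm_num)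
  -- x = n^(1/(2K)), K = 4 P
  set x : ℝ := Real.exp (L / (8 * P)) with hx
  have hLP : s / 8 ≤ L / (8 * P) := by
    rw [div_le_div_iff₀ (by norm_num) (by positivity), hL]
    have h1 : s * (8 * P) ≤ s * (8 * s) := by
      apply mul_le_mul_of_nonneg_left _ (by linarith); linarith
    nlinarith [pow_pos (by linarith : (0:ℝ) < s) 2, pow_pos (by linarith : (0:ℝ) < s) 3]
  have hxs : 100 * s ^ 8 + 1 ≤ x := hs.trans (Real.exp_le_exp.2 hLP)
  have hs2 : s ^ 2 ≤ s ^ 8 := pow_le_pow_right₀ (by linarith) (by norm_num)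
  have hx2 : 2 ≤ x := by nlinarith
  have hx0 : 0 < x := Real.exp_pos _
  have hfl : x - 1 < (⌊x⌋₊ : ℝ) := by have := Nat.lt_floor_add_one x; linarith
  have hfl' : (⌊x⌋₊ : ℝ) ≤ x := Nat.floor_le hx0.le
  have hm2 : x / 2 ≤ (⌊x⌋₊ : ℝ) := by linarith
  have hm1 : 1 ≤ ⌊x⌋₊ := Nat.le_floor (by push_cast; linarith)
  refine ⟨⌊x⌋₊, ?_, fun j hj => ?_⟩
  · apply Nat.le_floor
    push_cast
    have : ((R : ℝ) + 1) ^ 2 ≤ s ^ 2 := pow_le_pow_left₀ (by positivity) hRs 2
    linarith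
  · set l : ℕ := ⌊x⌋₊ ^ 4 ^ j with hl
    have hml : ⌊x⌋₊ ≤ l := Nat.le_self_pow (by positivity) _
    have hj4 : ((4 ^ j : ℕ) : ℝ) ≤ P := by
      have h1 : (4 : ℕ) ^ j ≤ 4 ^ (2 * R) := Nat.pow_le_pow_right (by norm_num) hj
      have h2 : (4 : ℕ) ^ (2 * R) = 16 ^ R := by rw [pow_mul]; norm_num
      rw [h2] at h1
      rw [hP]; exact_mod_cast h1
    have hlx : (l : ℝ) ≤ Real.exp (L / 8) := by
      rw [hl, Nat.cast_pow]
      calc (⌊x⌋₊ : ℝ) ^ (4 ^ j) ≤ x ^ (4 ^ j) := pow_le_pow_left₀ (Nat.cast_nonneg _) hfl' _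
        _ = Real.exp (((4 ^ j : ℕ) : ℝ) * (L / (8 * P))) := by rw [hx, ← Real.exp_nat_mul]
        _ ≤ Real.exp (L / 8) := by
            apply Real.exp_le_exp.2
            calc ((4 ^ j : ℕ) : ℝ) * (L / (8 * P)) ≤ P * (L / (8 * P)) :=
                  mul_le_mul_of_nonneg_right hj4 (by positivity)
              _ = L / 8 := by field_simp
    have hl4 : l ^ 4 ≤ n := by
      have h1 : ((l ^ 4 : ℕ) : ℝ) ≤ n := by
        push_cast
        calc (l : ℝ) ^ 4 ≤ (Real.exp (L / 8)) ^ 4 := pow_le_pow_left₀ (Nat.cast_nonneg _) hlx 4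
          _ = Real.exp ((4 : ℕ) * (L / 8)) := by rw [← Real.exp_nat_mul]
          _ ≤ Real.exp L := by apply Real.exp_le_exp.2; push_cast; linarith
          _ = n := hn.symm
      exact_mod_cast h1
    have hl1 : x / 2 ≤ (l : ℝ) := hm2.trans (by exact_mod_cast hml)
    have hl0 : (0 : ℝ) < l := by linarith
    have hn0 : (0 : ℝ) < n := by rw [hn]; exact Real.exp_pos L
    refine ⟨⌈3 * (n : ℝ) * L / (l : ℝ) ^ 4⌉₊, hit n l _ L hL0 hn hl4 ?_, ?_⟩
    · have h1 := Nat.le_ceil (3 * (n : ℝ) * L / (l : ℝ) ^ 4)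
      rw [div_le_iff₀ (by positivity)] at h1
      exact h1
    · apply Nat.le_floor
      have ht : (⌈3 * (n : ℝ) * L / (l : ℝ) ^ 4⌉₊ : ℝ) ≤ 48 * n * L / x ^ 4 + 1 := by
        have h1 := (Nat.ceil_lt_add_one (a := 3 * (n : ℝ) * L / (l : ℝ) ^ 4) (by positivity)).le
        have h2 : 3 * (n : ℝ) * L / (l : ℝ) ^ 4 ≤ 3 * n * L / (x / 2) ^ 4 := by
          apply div_le_div_of_nonneg_left (by positivity) (by positivity)
          exact pow_le_pow_left₀ (by positivity) hl1 4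
        have h3 : 3 * (n : ℝ) * L / (x / 2) ^ 4 = 48 * n * L / x ^ 4 := by
          field_simp; ring
        linarith
      have hpow : (n : ℝ) ^ (1 - 1 / (4 : ℝ) ^ (2 * R + 2)) = Real.exp (L - L / (16 * P)) := by
        have h1 : (4 : ℝ) ^ (2 * R + 2) = 16 * P := by
          rw [pow_add, pow_mul, hP]; norm_num; ring
        rw [h1, hn, ← Real.exp_mul]; congr 1; field_simp
      rw [hpow]
      -- first half
      have ha : 48 * (n : ℝ) * L / x ^ 4 ≤ Real.exp (L - L / (16 * P)) / 2 := by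
        have h1 : (n : ℝ) / x ^ 4 = Real.exp (L - L / (2 * P)) := by
          rw [hn, hx, ← Real.exp_nat_mul, ← Real.exp_sub]; congr 1; field_simp; ring
        have h2 : 96 * L ≤ Real.exp (7 * L / (16 * P)) := by
          have h3 : s / 8 ≤ 7 * L / (16 * P) := by
            refine hLP.trans ?_
            rw [div_le_div_iff₀ (by positivity) (by positivity)]
            nlinarith [mul_pos hL0 hP0]
          have h4 : 96 * L ≤ 100 * s ^ 8 + 1 := by
            rw [hL]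
            have : s ^ 4 ≤ s ^ 8 := pow_le_pow_right₀ (by linarith) (by norm_num)
            nlinarith
          exact h4.trans (hs.trans (Real.exp_le_exp.2 h3))
        have h5 : Real.exp (L - L / (16 * P)) =
            Real.exp (L - L / (2 * P)) * Real.exp (7 * L / (16 * P)) := by
          rw [← Real.exp_add]; congr 1; field_simp; ring
        have h6 : 48 * (n : ℝ) * L / x ^ 4 = 48 * L * (n / x ^ 4) := by ring
        rw [h6, h1, h5]
        nlinarith [Real.exp_pos (L - L / (2 * P))]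
      -- second half
      have hb : (R : ℝ) * l + 4 ≤ Real.exp (L - L / (16 * P)) / 2 := by
        have h1 : Real.exp (L / 8) * Real.exp (s / 8) ≤ Real.exp (L - L / (16 * P)) := by
          rw [← Real.exp_add]
          apply Real.exp_le_exp.2
          have h2 : L / (16 * P) ≤ L / 16 := by
            apply div_le_div_of_nonneg_left hL0.le (by norm_num); linarith
          linarith
        have h3 : 2 * s + 8 ≤ Real.exp (s / 8) := by
          refine le_trans ?_ hs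
          have : s ≤ s ^ 8 := le_self_pow₀ (by linarith) (by norm_num)
          linarith
        have h4 : 1 ≤ Real.exp (L / 8) := Real.one_le_exp (by positivity)
        have h5 : (R : ℝ) * l ≤ s * Real.exp (L / 8) :=
          mul_le_mul (by linarith) hlx hl0.le (by linarith)
        have h6 : Real.exp (L / 8) * (2 * s + 8) ≤ Real.exp (L - L / (16 * P)) :=
          le_trans (mul_le_mul_of_nonneg_left h3 (by linarith)) h1
        nlinarith
      push_cast
      linarith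

end Num2

open Num2 in
theorem num2 : StmtNUM2 := by
  obtain ⟨S, hS2, hS⟩ := ev
  refine ⟨12, ⌈Real.exp (S ^ 4)⌉₊, fun R n hN hA => ?_⟩
  have hn1 : Real.exp (S ^ 4) ≤ n := by
    calc Real.exp (S ^ 4) ≤ (⌈Real.exp (S ^ 4)⌉₊ : ℝ) := Nat.le_ceil _
      _ ≤ n := by exact_mod_cast hN
  have hn0 : (0 : ℝ) < n := lt_of_lt_of_le (Real.exp_pos _) hn1
  have hL : S ^ 4 ≤ Real.log n := (Real.le_log_iff_exp_le hn0).2 hn1
  have hS0 : (0 : ℝ) < S := by linarith
  have hL0 : 0 < Real.log n := lt_of_lt_of_le (by positivity) hL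
  set s : ℝ := Real.exp (Real.log (Real.log n) / 4) with hs
  have hs4 : Real.log n = s ^ 4 := by
    rw [hs, ← Real.exp_nat_mul]
    have h1 : ((4 : ℕ) : ℝ) * (Real.log (Real.log n) / 4) = Real.log (Real.log n) := by
      push_cast; ring
    rw [h1, Real.exp_log hL0]
  have hs0 : 0 < s := Real.exp_pos _
  have hSs : S ≤ s := by
    rw [hs4] at hL
    exact le_of_pow_le_pow_left₀ (by norm_num) hs0.le hL
  have hR : (16 : ℝ) ^ R ≤ s := by
    have h16 : (16 : ℝ) ≤ Real.exp 3 := by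
      have h1 : Real.exp 3 = Real.exp 1 ^ 3 := by rw [← Real.exp_nat_mul]; norm_num
      have h2 := Real.exp_one_gt_d9
      rw [h1]
      have h3 : (2.7 : ℝ) ^ 3 ≤ Real.exp 1 ^ 3 := pow_le_pow_left₀ (by norm_num) (by linarith) 3
      norm_num at h3 ⊢
      linarith
    calc (16 : ℝ) ^ R ≤ (Real.exp 3) ^ R := pow_le_pow_left₀ (by norm_num) h16 R
      _ = Real.exp (R * 3) := by rw [← Real.exp_nat_mul]
      _ ≤ s := by
          rw [hs]; apply Real.exp_le_exp.2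
          push_cast at hA
          linarith
  exact core R n s (Real.log n) (by linarith) (hS s hSs) hs4 (Real.exp_log hn0).symm hR

end Pool.Agent.BRW
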