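import Mathlib
import Pool.Agent.BRW.Defs
import Pool.Agent.BRW.St

set_option autoImplicit false

/-!
# Several pebbles can be moved
-/

namespace Pool.Agent.BRW

theorem peb (hSIM : StmtSIM) : StmtPEB := by
  intro V W k G H a b hab I v
  induction I using Finset.induction_on with
  | empty => exact ⟨b, by simpa using hab⟩
  | @insert i I hi ih =>
    obtain ⟨v', hv'⟩ := ih
    obtain ⟨f, hf⟩ := (hSIM.1 V W k G H).2 _ _ hv' i
    refine ⟨Function.update v' i (f (v i)), ?_⟩
    have h := hf (v i)
    have e1 : (fun j => if j ∈ insert i I then v j else a j) =
        Function.update (fun j => if j ∈ I then v j else a j) i (v i) := by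
      funext j
      by_cases hj : j = i
      · subst hj
        simp
      · simp [Finset.mem_insert, hj, Function.update_of_ne]
    have e2 : (fun j => if j ∈ insert i I then Function.update v' i (f (v i)) j else b j) =
        Function.update (fun j => if j ∈ I then v' j else b j) i (f (v i)) := by
      funext j
      by_cases hj : j = i
      · subst hj
        simp
      · simp [Finset.mem_insert, hj, Function.update_of_ne]
    rw [e1, e2]
    exact h

end Pool.Agent.BRW
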