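import Pool.Agent.BRW.St

/-!
# BRW, module SIM: elementary properties of the bijective pebble game
-/

set_option autoImplicit false

namespace Pool.Agent.BRW

namespace SimX

/-- A self-map of `Fin k` misses a point off any index. -/
theorem miss {k : ℕ} (σ : Fin k → Fin k) (i : Fin k) : ∃ j : Fin k, ∀ i', i' ≠ i → σ i' ≠ j := by
  by_contra hc
  have h : ∀ j : Fin k, ∃ i', i' ≠ i ∧ σ i' = j := by
    intro j
    by_contra h1
    exact hc ⟨j, fun i' hi' he => h1 ⟨i', hi', he⟩⟩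
  have h1 : (Finset.univ : Finset (Fin k)) ⊆ ((Finset.univ : Finset (Fin k)).erase i).image σ := by
    intro j _
    obtain ⟨i', hi', he⟩ := h j
    exact Finset.mem_image.2 ⟨i', Finset.mem_erase.2 ⟨hi', Finset.mem_univ _⟩, he⟩
  have h2 := Finset.card_le_card h1
  have h3 := h2.trans Finset.card_image_le
  rw [Finset.card_erase_of_mem (Finset.mem_univ i), Finset.card_univ, Fintype.card_fin] at h3
  have := i.2
  omega

end SimX

/-- SIM. -/
theorem sim : StmtSIM := by
  refine ⟨?_, ?_, ?_, ?_, ?_⟩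
  · intro V W k G H
    refine ⟨?_, ?_⟩
    · rintro a b ⟨R, hR, hab⟩
      exact hR.1 a b hab
    · rintro a b ⟨R, hR, hab⟩ i
      obtain ⟨f, hf⟩ := hR.2 a b hab i
      exact ⟨f, fun v => ⟨R, hR, hf v⟩⟩
  · intro V k G a
    refine ⟨fun a b => a = b, ⟨?_, ?_⟩, rfl⟩
    · rintro a b rfl i j
      exact ⟨Iff.rfl, Iff.rfl⟩
    · rintro a b rfl i
      exact ⟨Equiv.refl V, fun v => rfl⟩
  · rintro V W k G H a b ⟨R, hR, hab⟩
    refine ⟨fun b a => R a b, ⟨?_, ?_⟩, hab⟩
    · intro b a h i j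
      obtain ⟨h1, h2⟩ := hR.1 a b h i j
      exact ⟨h1.symm, h2.symm⟩
    · intro b a h i
      obtain ⟨f, hf⟩ := hR.2 a b h i
      refine ⟨f.symm, fun w => ?_⟩
      have := hf (f.symm w)
      rwa [f.apply_symm_apply] at this
  · rintro V W U k G H K a b c ⟨R, hR, hab⟩ ⟨S, hS, hbc⟩
    refine ⟨fun a c => ∃ b, R a b ∧ S b c, ⟨?_, ?_⟩, ⟨b, hab, hbc⟩⟩
    · rintro a c ⟨b, h1, h2⟩ i j
      obtain ⟨h3, h4⟩ := hR.1 a b h1 i j
      obtain ⟨h5, h6⟩ := hS.1 b c h2 i j
      exact ⟨h3.trans h5, h4.trans h6⟩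
    · rintro a c ⟨b, h1, h2⟩ i
      obtain ⟨f, hf⟩ := hR.2 a b h1 i
      obtain ⟨g, hg⟩ := hS.2 b c h2 i
      exact ⟨f.trans g, fun v => ⟨Function.update b i (f v), hf v, hg (f v)⟩⟩
  · rintro V W k G H a b σ ⟨R, hR, hab⟩
    refine ⟨fun a' b' => ∃ (a : Fin k → V) (b : Fin k → W) (τ : Fin k → Fin k), R a b ∧
      a' = (fun i => a (τ i)) ∧ b' = (fun i => b (τ i)), ⟨?_, ?_⟩, ⟨a, b, σ, hab, rfl, rfl⟩⟩
    · rintro a' b' ⟨a, b, τ, h, rfl, rfl⟩ i j
      exact hR.1 a b h (τ i) (τ j)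
    · rintro a' b' ⟨a, b, τ, h, rfl, rfl⟩ i
      obtain ⟨j, hj⟩ := SimX.miss τ i
      obtain ⟨f, hf⟩ := hR.2 a b h j
      have key : ∀ {U : Type} (c : Fin k → U) (u : U),
          Function.update (fun i => c (τ i)) i u =
            fun i' => Function.update c j u (Function.update τ i j i') := by
        intro U c u
        funext i'
        by_cases hi : i' = i
        · subst hi
          rw [Function.update_self, Function.update_self, Function.update_self]
        · rw [Function.update_of_ne hi, Function.update_of_ne hi,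
            Function.update_of_ne (hj i' hi)]
      exact ⟨f, fun v => ⟨Function.update a j v, Function.update b j (f v),
        Function.update τ i j, hf v, key a v, key b (f v)⟩⟩

end Pool.Agent.BRW
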