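import Mathlib
import Pool.Agent.BRW.St

set_option autoImplicit false

/-!
# SMC: small colours (Fisher's inequality and double counting)
-/

namespace Pool.Agent.BRW

/-- Small colours: the first or the second alternative of `StmtSMC`. -/
theorem smc (hCNT : StmtCNT) (hVAL : StmtVAL) (hCLA : StmtCLA) (hCLB : StmtCLB)
    (hFIS : StmtFIS) : StmtSMC := by
  intro V κ _ c ℓ x₀ y₀ hc hℓ hLB y z hy hval
  classical
  have : Fintype V := Fintype.ofFinite V
  obtain ⟨cl1, cl2, cl3, cl4, cl5, -, -⟩ := hCLA V κ c ℓ x₀ y₀ hc hℓ hLB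
  obtain ⟨clb1, clb2⟩ := hCLB V κ c ℓ x₀ y₀ hc hℓ hLB
  obtain ⟨-, -, v3, -⟩ := hVAL V κ c hc
  have cardf : ∀ (p : V → Prop) [DecidablePred p],
      Nat.card {w : V // p w} = (Finset.univ.filter p).card := by
    intro p _
    rw [Nat.card_eq_fintype_card, Fintype.card_subtype]
  have hN : ℓ ^ 4 < val c x₀ y₀ := hLB.2
  have hne : x₀ ≠ y₀ := hLB.1.1
  -- the neighbourhoods in the colour of `(y, z)`
  set A : V → Finset V := fun u => Finset.univ.filter (fun w => c u w = c y z) with hA
  have memA : ∀ u w, w ∈ A u ↔ c u w = c y z := by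
    intro u w
    simp [hA]
  have hn : ∀ u, c u u = c x₀ x₀ → (A u).card = val c y z := by
    intro u hu
    rw [← v3 y z u (hu.trans hy.symm), cardf]
  have hpair : ∀ u v, c u v = c x₀ y₀ → (A u ∩ A v).card = (A x₀ ∩ A y₀).card := by
    intro u v huv
    obtain ⟨e, he⟩ := hCNT V κ c hc u v x₀ y₀ huv
    refine Finset.card_equiv e ?_
    intro w
    rw [Finset.mem_inter, Finset.mem_inter, memA, memA, memA, memA, (he w).1,
      hc.symm _ _ _ _ (he w).2]
  -- the block of `y`
  obtain ⟨B, memB⟩ : ∃ B : Finset V, ∀ u, u ∈ B ↔ EE c x₀ y₀ y u :=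
    ⟨Finset.univ.filter (fun u => EE c x₀ y₀ y u), fun u => by simp⟩
  have hyB : y ∈ B := (memB y).2 (cl2 y hy)
  have hBX : ∀ u, u ∈ B → c u u = c x₀ x₀ := fun u hu =>
    (cl3 u y (cl3 y u ((memB u).1 hu)).1).2
  have hBB : ∀ u v, u ∈ B → v ∈ B → EE c x₀ y₀ u v := fun u v hu hv =>
    cl4 u y v (cl3 y u ((memB u).1 hu)).1 ((memB v).1 hv)
  have hBE : ∀ u v, u ∈ B → EE c x₀ y₀ u v → v ∈ B := fun u v hu hv =>
    (memB v).2 (cl4 y u v ((memB u).1 hu) hv)
  have hrefl : ∀ u, u ∈ B → c u u ≠ c x₀ y₀ := by
    intro u hu h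
    exact hne (hc.diag u x₀ y₀ h)
  by_cases hlam : (A x₀ ∩ A y₀).card = val c y z
  · -- all neighbourhoods in the block are equal
    left
    have heq : ∀ u v, c u v = c x₀ y₀ → A u = A v := by
      intro u v huv
      obtain ⟨hvu, hu, -⟩ := cl1 u v huv
      obtain ⟨-, hv, -⟩ := cl1 v u hvu
      have h1 : A u ∩ A v = A u := Finset.eq_of_subset_of_card_le Finset.inter_subset_left
        (by rw [hn u hu, hpair u v huv, hlam])
      have h2 : A u ∩ A v = A v := Finset.eq_of_subset_of_card_le Finset.inter_subset_right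
        (by rw [hn v hv, hpair u v huv, hlam])
      exact h1.symm.trans h2
    intro u hu
    obtain ⟨w, hw1, hw2⟩ := hu
    have h1 := heq y w hw1
    have h2 := heq u w hw2
    rw [← memA, h2, ← h1, memA]
  · right
    have hlt : (A x₀ ∩ A y₀).card < val c y z := by
      refine lt_of_le_of_ne ?_ hlam
      rw [← hn x₀ rfl]
      exact Finset.card_le_card Finset.inter_subset_left
    -- the union of the neighbourhoods
    set D : Finset V := B.biUnion A with hD
    have memD : ∀ w, w ∈ D ↔ ∃ u ∈ B, c u w = c y z := by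
      intro w
      rw [hD, Finset.mem_biUnion]
      simp only [memA]
    have hAD : ∀ u, u ∈ B → A u ⊆ D := fun u hu => Finset.subset_biUnion_of_mem A hu
    -- a maximal set of representatives
    obtain ⟨I, hI, hImax⟩ := Finset.exists_max_image
      ((B.powerset).filter (fun I => ∀ i ∈ I, ∀ j ∈ I, i ≠ j → c i j = c x₀ y₀))
      Finset.card ⟨∅, by simp⟩
    rw [Finset.mem_filter, Finset.mem_powerset] at hI
    obtain ⟨hIB, hIR⟩ := hI
    have hcov : B ⊆ I.biUnion (fun i => Finset.univ.filter
        (fun v => EE c x₀ y₀ i v ∧ c i v ≠ c x₀ y₀)) := by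
      intro u hu
      by_contra hcon
      rw [Finset.mem_biUnion] at hcon
      push Not at hcon
      have hR : ∀ i ∈ I, c i u = c x₀ y₀ := by
        intro i hi
        have h := hcon i hi
        rw [Finset.mem_filter] at h
        by_contra h'
        exact h ⟨Finset.mem_univ _, hBB i u (hIB hi) hu, h'⟩
      have huI : u ∉ I := fun h => hrefl u hu (hR u h)
      have h := hImax (insert u I) (by
        rw [Finset.mem_filter, Finset.mem_powerset]
        refine ⟨Finset.insert_subset hu hIB, ?_⟩
        intro i hi j hj hij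
        rw [Finset.mem_insert] at hi hj
        rcases hi with rfl | hi
        · rcases hj with rfl | hj
          · exact absurd rfl hij
          · exact (cl1 _ _ (hR j hj)).1
        · rcases hj with rfl | hj
          · exact hR i hi
          · exact hIR i hi j hj hij)
      rw [Finset.card_insert_of_notMem huI] at h
      omega
    have hBcard : B.card ≤ I.card * ℓ := by
      refine (Finset.card_le_card hcov).trans (Finset.card_biUnion_le_card_mul _ _ _ ?_)
      intro i _
      rw [← cardf]
      exact clb2 i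
    have hIcard : I.card ≤ D.card := by
      have h := hFIS I D (fun i => {w : D | c i.1 w.1 = c y z}) (val c y z)
        (A x₀ ∩ A y₀).card hlt ?_ ?_
      · rwa [Nat.card_eq_fintype_card, Nat.card_eq_fintype_card, Fintype.card_coe,
          Fintype.card_coe] at h
      · intro i
        rw [← hn i.1 (hBX _ (hIB i.2)), ← Set.ncard_coe_finset,
          ← Set.ncard_image_of_injective _ Subtype.val_injective]
        congr 1
        ext w
        simp only [Set.mem_image, Set.mem_ofPred_eq, Finset.mem_coe, memA]
        constructor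
        · rintro ⟨w', hw', rfl⟩
          exact hw'
        · intro hw
          exact ⟨⟨w, hAD i.1 (hIB i.2) ((memA _ _).2 hw)⟩, hw, rfl⟩
      · intro i j hij
        have hij' : i.1 ≠ j.1 := fun h => hij (Subtype.ext h)
        rw [← hpair i.1 j.1 (hIR _ i.2 _ j.2 hij'), ← Set.ncard_coe_finset,
          ← Set.ncard_image_of_injective _ Subtype.val_injective]
        congr 1
        ext w
        simp only [Set.mem_image, Set.mem_inter_iff, Set.mem_ofPred_eq, Finset.coe_inter,
          Finset.mem_coe, memA]
        constructor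
        · rintro ⟨w', hw', rfl⟩
          exact hw'
        · intro hw
          exact ⟨⟨w, hAD i.1 (hIB i.2) ((memA _ _).2 hw.1)⟩, hw, rfl⟩
    have hBD : B.card ≤ D.card * ℓ := hBcard.trans (Nat.mul_le_mul_right _ hIcard)
    -- the number of block vertices seeing `w` in the colour
    set kk : ℕ := (B.filter (fun u => c u z = c y z)).card with hkk
    have hk : ∀ w ∈ D, (B.filter (fun u => c u w = c y z)).card = kk := by
      intro w hw
      obtain ⟨u, hu, huw⟩ := (memD w).1 hw
      obtain ⟨e, he⟩ := hCNT V κ c hc u w y z huw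
      rw [hkk]
      refine Finset.card_equiv e ?_
      intro v
      rw [Finset.mem_filter, Finset.mem_filter, (he v).2]
      have hev : v ∈ B ↔ e v ∈ B := by
        constructor
        · intro hv
          exact (memB _).2 (cl5 u v y (e v) (he v).1.symm (hBB u v hu hv))
        · intro hv
          exact hBE u v hu (cl5 y (e v) u v (he v).1 ((memB _).1 hv))
      rw [hev]
    have hdc : B.card * val c y z = D.card * kk := by
      have h := Finset.sum_card_bipartiteAbove_eq_sum_card_bipartiteBelow
        (s := B) (t := D) (fun u w => c u w = c y z)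
      have h1 : ∑ u ∈ B, (D.bipartiteAbove (fun u w => c u w = c y z) u).card =
          B.card * val c y z := by
        rw [← smul_eq_mul, ← Finset.sum_const]
        refine Finset.sum_congr rfl ?_
        intro u hu
        rw [← hn u (hBX u hu)]
        congr 1
        ext w
        rw [Finset.mem_bipartiteAbove, memA]
        exact ⟨fun h => h.2, fun h => ⟨hAD u hu ((memA _ _).2 h), h⟩⟩
      have h2 : ∑ w ∈ D, (B.bipartiteBelow (fun u w => c u w = c y z) w).card =
          D.card * kk := by
        rw [← smul_eq_mul, ← Finset.sum_const]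
        refine Finset.sum_congr rfl ?_
        intro w hw
        exact hk w hw
      rw [← h1, ← h2, h]
    have hzD : z ∈ D := (memD z).2 ⟨y, hyB, rfl⟩
    have hDpos : 0 < D.card := Finset.card_pos.2 ⟨z, hzD⟩
    have hkl : kk ≤ ℓ * ℓ := by
      have h1 : D.card * kk ≤ D.card * (ℓ * ℓ) := by
        calc D.card * kk = B.card * val c y z := hdc.symm
          _ ≤ (D.card * ℓ) * ℓ := Nat.mul_le_mul hBD hval
          _ = D.card * (ℓ * ℓ) := Nat.mul_assoc _ _ _
      exact Nat.le_of_mul_le_mul_left h1 hDpos
    -- the pairs `v`, `w` with `c y v = R`, `w` in both neighbourhoods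
    have hsum : val c x₀ y₀ * (A x₀ ∩ A y₀).card ≤ val c y z * kk := by
      set Rn : Finset V := Finset.univ.filter (fun v => c y v = c x₀ y₀) with hRn
      have hRcard : Rn.card = val c x₀ y₀ := by
        rw [hRn, ← cardf]
        exact v3 x₀ y₀ y hy
      have h := Finset.sum_card_bipartiteAbove_eq_sum_card_bipartiteBelow
        (s := Rn) (t := A y) (fun v w => c v w = c y z)
      have h1 : ∑ v ∈ Rn, ((A y).bipartiteAbove (fun v w => c v w = c y z) v).card =
          Rn.card * (A x₀ ∩ A y₀).card := by
        rw [← smul_eq_mul, ← Finset.sum_const]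
        refine Finset.sum_congr rfl ?_
        intro v hv
        have hyv : c y v = c x₀ y₀ := (Finset.mem_filter.1 hv).2
        rw [← hpair y v hyv]
        congr 1
        ext w
        rw [Finset.mem_bipartiteAbove, Finset.mem_inter, memA, memA]
      have h2 : ∑ w ∈ A y, (Rn.bipartiteBelow (fun v w => c v w = c y z) w).card ≤
          (A y).card * kk := by
        rw [← smul_eq_mul, ← Finset.sum_const]
        refine Finset.sum_le_sum ?_
        intro w hw
        rw [← hk w (hAD y hyB hw)]
        refine Finset.card_le_card ?_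
        intro v hv
        rw [Finset.mem_bipartiteBelow] at hv
        rw [Finset.mem_filter]
        have hyv : c y v = c x₀ y₀ := (Finset.mem_filter.1 hv.1).2
        exact ⟨(memB v).2 (cl1 y v hyv).2.2, hv.2⟩
      rw [← h, h1, hRcard, hn y hy] at h2
      exact h2
    have hzero : (A x₀ ∩ A y₀).card = 0 := by
      by_contra hpos
      have h1 : val c x₀ y₀ ≤ val c x₀ y₀ * (A x₀ ∩ A y₀).card :=
        Nat.le_mul_of_pos_right _ (Nat.pos_of_ne_zero hpos)
      have h2 : val c y z * kk ≤ ℓ * (ℓ * ℓ) := Nat.mul_le_mul hval hkl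
      have h3 : ℓ * (ℓ * ℓ) ≤ ℓ ^ 4 := by
        calc ℓ * (ℓ * ℓ) = ℓ ^ 3 := by ring
          _ ≤ ℓ ^ 4 := Nat.pow_le_pow_right (by omega) (by norm_num)
      omega
    intro u v _ _ huz hvz huv
    have h1 : z ∈ A u ∩ A v := Finset.mem_inter.2 ⟨(memA _ _).2 huz, (memA _ _).2 hvz⟩
    have h2 := hpair u v huv
    rw [hzero, Finset.card_eq_zero] at h2
    rw [h2] at h1
    exact absurd h1 (Finset.notMem_empty z)

end Pool.Agent.BRW
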