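import Mathlib
import Pool.Agent.BRW.St

set_option autoImplicit false

/-!
# Valencies of a coherent configuration (module VAL)
-/

namespace Pool.Agent.BRW

theorem vals (hCNT : StmtCNT) : StmtVAL := by
  intro V κ _ c hc
  -- both ends of a pair
  have h1 : ∀ x y x' y' : V, c x y = c x' y' → ∃ e : V ≃ V, e x = x' ∧ e y = y' ∧
      (∀ z, c x' (e z) = c x z) ∧ ∀ z, c (e z) y' = c z y := by
    intro x y x' y' h
    obtain ⟨e, he⟩ := hCNT V κ c hc x y x' y' h
    refine ⟨e, ?_, ?_, fun z => (he z).1, fun z => (he z).2⟩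
    · exact (hc.diag x x' (e x) (he x).1.symm).symm
    · exact hc.diag y (e y) y' (he y).2.symm
  have hA : ∀ x y x' y' : V, c x y = c x' y' → c x x = c x' x' ∧ c y y = c y' y' := by
    intro x y x' y' h
    obtain ⟨e, ex, ey, e1, e2⟩ := h1 x y x' y' h
    constructor
    · have := e1 x
      rw [ex] at this
      exact this.symm
    · have := e2 y
      rw [ey] at this
      exact this.symm
  have hB : ∀ x z u : V, c u u = c x x → Nat.card {w : V // c u w = c x z} = val c x z := by
    intro x z u h
    obtain ⟨e, -, -, e1, -⟩ := h1 x x u u h.symm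
    unfold val
    refine (Nat.card_congr (e.subtypeEquiv fun w => ?_)).symm
    rw [e1 w]
  refine ⟨hA, ?_, hB, ?_⟩
  · intro x y x' y' h
    obtain ⟨e, ex, ey, e1, e2⟩ := h1 x y x' y' h
    constructor
    · unfold val
      refine Nat.card_congr (e.subtypeEquiv fun w => ?_)
      rw [e1 w, h]
    · unfold dd
      refine Nat.card_congr (e.subtypeEquiv fun w => ?_)
      rw [e2 w, hc.symm x' (e w) x w (e1 w)]
  · intro x z
    classical
    haveI := Fintype.ofFinite V
    -- the pairs of this colour, counted from the left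
    have key : ∀ x z : V, Nat.card {p : V × V // c p.1 p.2 = c x z} =
        Nat.card {w : V // c w w = c x x} * val c x z := by
      intro x z
      have e : {p : V × V // c p.1 p.2 = c x z} ≃
          (Σ u : {u : V // c u u = c x x}, {w : V // c u w = c x z}) :=
        { toFun := fun p => ⟨⟨p.1.1, (hA _ _ _ _ p.2).1⟩, ⟨p.1.2, p.2⟩⟩
          invFun := fun q => ⟨(q.1.1, q.2.1), q.2.2⟩
          left_inv := fun p => rfl
          right_inv := fun q => rfl }
      rw [Nat.card_congr e, Nat.card_sigma, Finset.sum_congr rfl fun u _ => hB x z u.1 u.2,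
        Finset.sum_const, Finset.card_univ, smul_eq_mul, Nat.card_eq_fintype_card]
    rw [← key x z, ← key z x]
    refine Nat.card_congr ((Equiv.prodComm V V).subtypeEquiv fun p => ?_)
    exact ⟨fun h => hc.symm _ _ _ _ h, fun h => hc.symm _ _ _ _ h⟩

end Pool.Agent.BRW
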