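import Mathlib
import Pool.Agent.BRW.Defs
import Pool.Agent.BRW.St

set_option autoImplicit false

/-!
# TYC: the types over the parameters `s` form a coherent configuration (MP_87b449_lc)
-/

namespace Pool.Agent.BRW

theorem tup_lt {V : Type} {k t : ℕ} (s : Fin t → V) (x y : V) (i : Fin k) (h : i.1 < t) :
    tup k t s x y i = s ⟨i.1, h⟩ := by
  simp [tup, h]

theorem tup_eq {V : Type} {k t : ℕ} (s : Fin t → V) (x y : V) (i : Fin k) (h : i.1 = t) :
    tup k t s x y i = x := by
  simp [tup, h]

theorem tup_gt {V : Type} {k t : ℕ} (s : Fin t → V) (x y : V) (i : Fin k) (h : t < i.1) :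
    tup k t s x y i = y := by
  have h1 : ¬ i.1 < t := by omega
  have h2 : i.1 ≠ t := by omega
  simp [tup, h1, h2]

/-- The index map `i ↦ i` (`i < t`), `t ↦ p`, `i ↦ q` (`i > t`). -/
def rix (k t : ℕ) (p q : Fin k) : Fin k → Fin k :=
  fun i => if i.1 < t then i else if i.1 = t then p else q

theorem tup_rix {V : Type} {k t : ℕ} (s : Fin t → V) (a : Fin k → V) (p q : Fin k)
    (ha : ∀ (i : Fin k) (h : i.1 < t), a i = s ⟨i.1, h⟩) :
    (fun i => a (rix k t p q i)) = tup k t s (a p) (a q) := by
  funext i
  by_cases h : i.1 < t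
  · rw [tup_lt s _ _ i h]
    simp only [rix, h, if_true]
    exact ha i h
  · by_cases h2 : i.1 = t
    · rw [tup_eq s _ _ i h2]
      simp [rix, h2]
    · rw [tup_gt s _ _ i (by omega)]
      simp [rix, h, h2]

theorem tup0_eq {V : Type} {k : ℕ} (a : Fin k → V) (p q : Fin k) :
    (fun i : Fin k => a (if i.1 = 0 then p else q)) =
      tup k 0 (fun i : Fin 0 => i.elim0) (a p) (a q) := by
  funext i
  by_cases h2 : i.1 = 0
  · rw [tup_eq _ _ _ i h2]
    simp [h2]
  · rw [tup_gt _ _ _ i (by omega)]
    simp [h2]

theorem tyc (hSIM : StmtSIM) : StmtTYC := by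
  obtain ⟨hG, hr, hs, htr, hre⟩ := hSIM
  intro V k t G s hk
  -- equality of types
  have key : ∀ (t' : ℕ) (s' : Fin t' → V) (x y x' y' : V),
      typ k G t' s' x y = typ k G t' s' x' y' ↔
        Sim k G G (tup k t' s' x y) (tup k t' s' x' y') := by
    intro t' s' x y x' y'
    constructor
    · intro h
      have h1 : tup k t' s' x' y' ∈ typ k G t' s' x' y' := hr V k G _
      rw [← h] at h1
      exact h1
    · intro h
      apply Set.ext
      intro b
      constructor
      · intro hb
        exact htr V V V k G G G _ _ _ (hs V V k G G _ _ h) hb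
      · intro hb
        exact htr V V V k G G G _ _ _ h hb
  have hp : t < k := by omega
  have hq : t + 1 < k := by omega
  have hw : t + 2 < k := by omega
  set p : Fin k := ⟨t, hp⟩ with hpdef
  set q : Fin k := ⟨t + 1, hq⟩ with hqdef
  set w : Fin k := ⟨t + 2, hw⟩ with hwdef
  have tp : ∀ x y : V, tup k t s x y p = x := fun x y => tup_eq s x y p rfl
  have tq : ∀ x y : V, tup k t s x y q = y := fun x y => tup_gt s x y q (by simp [hqdef])
  have hlt : ∀ (x y : V) (i : Fin k) (h : i.1 < t), tup k t s x y i = s ⟨i.1, h⟩ :=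
    fun x y i h => tup_lt s x y i h
  -- reindexing of a pair of positions over `s`
  have reix : ∀ (a b : Fin k → V), Sim k G G a b →
      (∀ (i : Fin k) (h : i.1 < t), a i = s ⟨i.1, h⟩) →
      (∀ (i : Fin k) (h : i.1 < t), b i = s ⟨i.1, h⟩) → ∀ p' q' : Fin k,
      typ k G t s (a p') (a q') = typ k G t s (b p') (b q') := by
    intro a b hab ha hb p' q'
    rw [key, ← tup_rix s a p' q' ha, ← tup_rix s b p' q' hb]
    exact hre V V k G G a b (rix k t p' q') hab
  -- forgetting `s`
  have reix0 : ∀ (a b : Fin k → V), Sim k G G a b → ∀ p' q' : Fin k,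
      typ0 k G (a p') (a q') = typ0 k G (b p') (b q') := by
    intro a b hab p' q'
    unfold typ0
    rw [key, ← tup0_eq a p' q', ← tup0_eq b p' q']
    exact hre V V k G G a b (fun i => if i.1 = 0 then p' else q') hab
  refine ⟨⟨?_, ?_, ?_⟩, key t s, ?_, ?_, ?_⟩
  · -- diag
    intro x y z h
    rw [key] at h
    have h1 := ((hG V V k G G).1 _ _ h p q).1
    rw [tp, tq, tp, tq] at h1
    exact h1.1 rfl
  · -- symm
    intro x y x' y' h
    rw [key] at h
    have h1 := reix _ _ h (hlt x y) (hlt x' y') q p
    rw [tp, tq, tp, tq] at h1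
    exact h1
  · -- count
    intro x y x' y' h i j
    rw [key] at h
    obtain ⟨f, hf⟩ := (hG V V k G G).2 _ _ h w
    apply Nat.card_congr
    refine Equiv.subtypeEquiv f ?_
    intro z
    have hz := hf z
    have hpw : p ≠ w := by
      intro e
      have := congrArg Fin.val e
      simp [hpdef, hwdef] at this
    have hqw : q ≠ w := by
      intro e
      have := congrArg Fin.val e
      simp [hqdef, hwdef] at this
    have ha : ∀ (u v c : V) (i : Fin k) (h : i.1 < t),
        Function.update (tup k t s u v) w c i = s ⟨i.1, h⟩ := by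
      intro u v c i h
      have hiw : i ≠ w := by
        intro e
        have := congrArg Fin.val e
        simp [hwdef] at this
        omega
      rw [Function.update_of_ne hiw]
      exact hlt u v i h
    have e1 := reix _ _ hz (ha x y z) (ha x' y' (f z)) p w
    have e2 := reix _ _ hz (ha x y z) (ha x' y' (f z)) w q
    rw [Function.update_self, Function.update_self, Function.update_of_ne hpw,
      Function.update_of_ne hpw, tp, tp] at e1
    rw [Function.update_self, Function.update_self, Function.update_of_ne hqw,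
      Function.update_of_ne hqw, tq, tq] at e2
    rw [e1, e2]
  · -- adjacency
    intro x y x' y' h
    rw [key] at h
    have h1 := ((hG V V k G G).1 _ _ h p q).2
    rw [tp, tq, tp, tq] at h1
    exact h1
  · -- forgetting `s`
    intro x y x' y' h
    rw [key] at h
    have h1 := reix0 _ _ h p q
    rw [tp, tq, tp, tq] at h1
    exact h1
  · -- a parameter and a vertex
    intro i x y h
    rw [key] at h
    have hik : i.1 < k := by have := i.2; omega
    have h1 := reix0 _ _ h ⟨i.1, hik⟩ p
    rw [tp, tp, hlt x x ⟨i.1, hik⟩ i.2, hlt y y ⟨i.1, hik⟩ i.2] at h1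
    exact h1

end Pool.Agent.BRW
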